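import Mathlib
import Pool.Agent.MP_7d676c_lc.Defs

/-! The language BitSLP. -/

namespace Pool.Agent.MP_7d676c_b

open N68a2faeb Pool.Agent.MP_7d676c_lc

open Classical in
/-- The language BitSLP: codes (numbers in binary) of pairs of a valid program and a position `i`
such that the floor of the value divided by `2 ^ i` is odd. -/
noncomputable def BitSLP : DecisionProblem := fun x =>
  decide (∃ (P : List (ℕ × ℕ × ℕ)) (i : ℕ),
    N487b59b3.bitEncode (P, i) = x ∧ Valid P ∧ Odd ⌊(value P : ℚ) / 2 ^ i⌋)

end Pool.Agent.MP_7d676c_b
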