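import Mathlib
import Pool.Agent.Mg.F2e8011.G7e36c2
import Pool.Agent.MP_7d676c_b.Defs

section

/-! Binomial coefficients modulo a prime power as sums over Teichmueller representatives. -/

namespace Pool.Agent.MP_7d676c_b

open Finset

theorem pow_congr_Teich (p E a b : ℕ) (h : (a : ZMod p) = (b : ZMod p)) :
    (a : ZMod (p ^ E)) ^ p ^ E = (b : ZMod (p ^ E)) ^ p ^ E := by
  have h1 : (p : ℤ) ∣ (a : ℤ) - (b : ℤ) := by
    rw [← ZMod.intCast_zmod_eq_zero_iff_dvd]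
    push_cast
    rw [h, sub_self]
  obtain ⟨k, hk⟩ := h1
  have h2 : ((p : ℕ) : ZMod (p ^ E)) ∣ (a : ZMod (p ^ E)) - (b : ZMod (p ^ E)) := by
    refine ⟨(k : ZMod (p ^ E)), ?_⟩
    have := congrArg (Int.cast : ℤ → ZMod (p ^ E)) hk
    push_cast at this
    exact this
  have h3 := dvd_sub_pow_of_dvd_sub h2 E
  have h4 : ((p : ℕ) : ZMod (p ^ E)) ^ (E + 1) = 0 := by
    rw [pow_succ, ← Nat.cast_pow, ZMod.natCast_self, zero_mul]
  rw [h4, zero_dvd_iff, sub_eq_zero] at h3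
  exact h3

/-- The Teichmueller lift as a monoid homomorphism. -/
def tm_Teich (p E : ℕ) [Fact p.Prime] : ZMod p →* ZMod (p ^ E) where
  toFun x := ((x.val : ℕ) : ZMod (p ^ E)) ^ p ^ E
  map_one' := by rw [ZMod.val_one, Nat.cast_one, one_pow]
  map_mul' x y := by
    rw [← mul_pow, ← Nat.cast_mul]
    apply pow_congr_Teich
    simp

theorem unit_Teich (p E : ℕ) [hp : Fact p.Prime] (h : ZMod p) (h1 : h ≠ 1) :
    IsUnit (tm_Teich p E h - 1) := by
  have hnd : ¬ (p : ℤ) ∣ ((h.val : ℤ) ^ p ^ E - 1) := by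
    rw [← ZMod.intCast_zmod_eq_zero_iff_dvd]
    push_cast
    rw [ZMod.natCast_zmod_val, ZMod.pow_card_pow, sub_eq_zero]
    exact h1
  have hc : IsCoprime (p : ℤ) ((h.val : ℤ) ^ p ^ E - 1) :=
    ((Nat.prime_iff_prime_int.1 hp.out).irreducible.coprime_iff_not_dvd).2 hnd
  obtain ⟨u, w, huw⟩ := hc.pow_left (m := E)
  have := congrArg (Int.cast : ℤ → ZMod (p ^ E)) huw
  push_cast at this
  have h4 : ((p : ℕ) : ZMod (p ^ E)) ^ E = 0 := by
    rw [← Nat.cast_pow, ZMod.natCast_self]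
  rw [h4, mul_zero, zero_add, mul_comm] at this
  exact IsUnit.of_mul_eq_one _ this

theorem sum_units_Teich (p E m : ℕ) [hp : Fact p.Prime] :
    ∑ x : (ZMod p)ˣ, tm_Teich p E x ^ m =
      if p - 1 ∣ m then (p : ZMod (p ^ E)) - 1 else 0 := by
  have key := FiniteField.forall_pow_eq_one_iff (ZMod p) m
  rw [ZMod.card] at key
  split_ifs with h
  · have h2 : ∀ x : (ZMod p)ˣ, tm_Teich p E x ^ m = 1 := by
      intro x
      rw [← map_pow, ← Units.val_pow_eq_pow_val, key.2 h x, Units.val_one, map_one]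
    simp only [h2, sum_const, card_univ, ZMod.card_units, nsmul_eq_mul, mul_one]
    rw [Nat.cast_sub hp.out.one_le, Nat.cast_one]
  · rw [← key] at h
    push Not at h
    obtain ⟨g, hg⟩ := h
    have hu : IsUnit (tm_Teich p E ((g ^ m : (ZMod p)ˣ) : ZMod p) - 1) :=
      unit_Teich p E _ (fun h => hg (Units.val_eq_one.1 h))
    have h3 : ∑ x : (ZMod p)ˣ, tm_Teich p E x ^ m =
        ∑ x : (ZMod p)ˣ, tm_Teich p E ((g * x : (ZMod p)ˣ) : ZMod p) ^ m :=
      (Fintype.sum_equiv (Equiv.mulLeft g) _ _ (fun _ => rfl)).symm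
    have h4 : (tm_Teich p E ((g ^ m : (ZMod p)ˣ) : ZMod p) - 1) *
        ∑ x : (ZMod p)ˣ, tm_Teich p E x ^ m = 0 := by
      rw [sub_mul, one_mul, sub_eq_zero]
      conv_rhs => rw [h3]
      rw [mul_sum]
      refine sum_congr rfl fun x _ => ?_
      rw [Units.val_mul, map_mul, mul_pow, Units.val_pow_eq_pow_val, map_pow]
    exact (hu.mul_right_eq_zero).1 h4

theorem sum_Ico_Teich (p E : ℕ) [hp : Fact p.Prime] (f : ZMod (p ^ E) → ZMod (p ^ E)) :
    ∑ y ∈ Finset.Ico 1 p, f ((y : ZMod (p ^ E)) ^ p ^ E) =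
      ∑ x : (ZMod p)ˣ, f (tm_Teich p E x) := by
  symm
  refine sum_bij (fun x _ => (x : ZMod p).val) ?_ ?_ ?_ ?_
  · intro x _
    rw [mem_Ico]
    refine ⟨?_, ZMod.val_lt _⟩
    rw [Nat.one_le_iff_ne_zero, Ne, ZMod.val_eq_zero]
    exact x.ne_zero
  · intro x _ y _ h
    exact Units.ext (ZMod.val_injective p h)
  · intro y hy
    rw [mem_Ico] at hy
    have h0 : (y : ZMod p) ≠ 0 := by
      rw [Ne, ZMod.natCast_eq_zero_iff]
      intro hd
      have := Nat.le_of_dvd (by omega) hd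
      omega
    refine ⟨Units.mk0 _ h0, mem_univ _, ?_⟩
    simp [ZMod.val_natCast, Nat.mod_eq_of_lt hy.2]
  · intro x _
    rfl

theorem teich_choose (p E c v : ℕ) (hp : p.Prime) (hc : c + 2 ≤ p) (hv : v ≤ c) :
    ∑ y ∈ Finset.Ico 1 p, (1 + (y : ZMod (p ^ E)) ^ p ^ E) ^ c *
        ((y : ZMod (p ^ E)) ^ p ^ E) ^ (p - 1 - v) =
      ((p : ZMod (p ^ E)) - 1) * (c.choose v : ZMod (p ^ E)) := by
  have := Fact.mk hp
  rw [sum_Ico_Teich p E (fun t => (1 + t) ^ c * t ^ (p - 1 - v))]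
  have h2 : ∀ k ∈ range (c + 1), ∑ x : (ZMod p)ˣ,
      tm_Teich p E x ^ k * 1 ^ (c - k) * (c.choose k : ZMod (p ^ E)) *
        tm_Teich p E x ^ (p - 1 - v) =
        if k = v then ((p : ZMod (p ^ E)) - 1) * (c.choose v : ZMod (p ^ E)) else 0 := by
    intro k hk
    have hk' := mem_range.1 hk
    have h3 : ∀ y : ZMod (p ^ E),
        y ^ k * 1 ^ (c - k) * (c.choose k : ZMod (p ^ E)) * y ^ (p - 1 - v) =
        (c.choose k : ZMod (p ^ E)) * y ^ (k + (p - 1 - v)) := fun y => by ring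
    simp only [h3]
    rw [← mul_sum, sum_units_Teich]
    by_cases h : k = v
    · subst h
      rw [if_pos rfl, if_pos (by rw [show k + (p - 1 - k) = p - 1 by omega]), mul_comm]
    · rw [if_neg h, if_neg, mul_zero]
      rintro ⟨d, hd⟩
      rcases d with _ | _ | d
      · omega
      · omega
      · rw [Nat.mul_succ, Nat.mul_succ] at hd
        omega
  simp only [add_comm (1 : ZMod (p ^ E)), add_pow, sum_mul]
  rw [sum_comm, sum_congr rfl h2, sum_ite_eq', if_pos (mem_range.2 (by omega))]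

end Pool.Agent.MP_7d676c_b

end

section

/-! One step of a Lucas type recursion for binomial coefficients modulo a prime power. -/

namespace Pool.Agent.MP_7d676c_b

open Finset

/-- the coefficients of the recursion -/
def gam (E z a : ℕ) : ℤ := ∑ r ∈ range E, (-1) ^ (r + a) * (z.choose r : ℤ) * (r.choose a : ℤ)

theorem range_eq_Level {R : Type} [AddCommMonoid R] (f : ℕ → R) (m n : ℕ)
    (hm : ∀ i, m ≤ i → f i = 0) (hn : ∀ i, n ≤ i → f i = 0) :
    ∑ i ∈ range m, f i = ∑ i ∈ range n, f i := by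
  have h : ∀ k, (∀ i, k ≤ i → f i = 0) → k ≤ m + n →
      ∑ i ∈ range k, f i = ∑ i ∈ range (m + n), f i := fun k hk hk' =>
    sum_subset (range_subset_range.2 hk') fun i _ hi => hk i (by simpa using hi)
  rw [h m hm (by omega), h n hn (by omega)]

theorem pow_Level {R : Type} [CommRing R] (A B : R) (E z : ℕ) (h : (A - B) ^ E = 0) :
    A ^ z = ∑ a ∈ range E, if a ≤ z then (gam E z a : R) * A ^ a * B ^ (z - a) else 0 := by
  have h1 : A ^ z = ∑ r ∈ range E, (A - B) ^ r * B ^ (z - r) * (z.choose r : R) := by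
    rw [← range_eq_Level _ (z + 1) E, ← add_pow, sub_add_cancel]
    · intro i hi
      rw [Nat.choose_eq_zero_of_lt hi, Nat.cast_zero, mul_zero]
    · intro i hi
      rw [pow_eq_zero_of_le hi h, zero_mul, zero_mul]
  have h2 : ∀ r ∈ range E, (A - B) ^ r * B ^ (z - r) * (z.choose r : R) =
      ∑ a ∈ range E, if a ≤ z then
        (-1) ^ (r + a) * (z.choose r : R) * (r.choose a : R) * A ^ a * B ^ (z - a) else 0 := by
    intro r hr
    rcases lt_or_ge z r with hz | hz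
    · simp [Nat.choose_eq_zero_of_lt hz]
    · have h0 : ∀ i, r + 1 ≤ i → (if i ≤ z then
          (-1) ^ (r + i) * (z.choose r : R) * (r.choose i : R) * A ^ i * B ^ (z - i) else 0) = 0 :=
        fun i hi => by simp [Nat.choose_eq_zero_of_lt hi]
      rw [← range_eq_Level _ (r + 1) E h0 fun i hi => h0 i (by have := mem_range.1 hr; omega),
        sub_pow, sum_mul, sum_mul]
      refine sum_congr rfl fun a ha => ?_
      have ha' : a ≤ r := by have := mem_range.1 ha; omega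
      have e : z - a = r - a + (z - r) := by omega
      rw [if_pos (ha'.trans hz), e, pow_add B, add_comm r a]
      ring
  rw [h1, sum_congr rfl h2, sum_comm]
  refine sum_congr rfl fun a _ => ?_
  split_ifs
  · unfold gam
    push_cast
    rw [sum_mul, sum_mul]
  · simp

open Polynomial in
theorem coeff_Level {R : Type} [CommRing R] (p n m j : ℕ) (hp : 0 < p) :
    (((1 + X) ^ n * (1 + X ^ p) ^ m : R[X])).coeff j =
      ∑ i ∈ range (j + 1), if p * i ≤ j then (n.choose (j - p * i) : R) * (m.choose i : R) else 0 := by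
  rw [← range_eq_Level _ (m + 1) (j + 1), add_comm 1 (X ^ p : R[X]), add_pow (X ^ p : R[X]), mul_sum,
    finsetSum_coeff]
  · refine sum_congr rfl fun i _ => ?_
    rw [one_pow, mul_one, ← pow_mul, ← mul_assoc, coeff_mul_natCast, coeff_mul_X_pow',
      coeff_one_add_X_pow]
    split_ifs <;> simp
  · intro i hi
    simp [Nat.choose_eq_zero_of_lt hi]
  · intro i hi
    rw [if_neg]
    have := Nat.le_mul_of_pos_left i hp
    omega

open Polynomial in
theorem nil_Level (p E : ℕ) (hp : p.Prime) :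
    (((1 + X) ^ p - (1 + X ^ p) : (ZMod (p ^ E))[X])) ^ E = 0 := by
  obtain ⟨r, hr⟩ := exists_add_pow_prime_eq hp (1 : (ZMod (p ^ E))[X]) X
  have h : ((p : (ZMod (p ^ E))[X])) ^ E = 0 := by
    rw [← Nat.cast_pow, ← C_eq_natCast, ZMod.natCast_self, C_0]
  rw [hr, one_pow, add_sub_cancel_left, mul_pow, mul_pow, mul_pow, h]
  simp

theorem level_choose (p E z0 z1 j : ℕ) (hp : p.Prime) :
    ((z0 + p * z1).choose j : ZMod (p ^ E)) =
      ∑ a ∈ range E, ∑ i ∈ range (j + 1), if a ≤ z1 ∧ p * i ≤ j then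
        (gam E z1 a : ZMod (p ^ E)) * ((z0 + p * a).choose (j - p * i) : ZMod (p ^ E)) *
          ((z1 - a).choose i : ZMod (p ^ E)) else 0 := by
  rw [← Polynomial.coeff_one_add_X_pow, pow_add, pow_mul, pow_Level _ _ E z1 (nil_Level p E hp),
    mul_sum, Polynomial.finsetSum_coeff]
  refine sum_congr rfl fun a _ => ?_
  by_cases ha : a ≤ z1
  · rw [if_pos ha, ← pow_mul, mul_assoc, mul_left_comm, ← mul_assoc (_ ^ z0), ← pow_add,
      Polynomial.coeff_intCast_mul, coeff_Level _ _ _ _ hp.pos, mul_sum]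
    refine sum_congr rfl fun i _ => ?_
    simp only [ha, true_and]
    split_ifs
    · rw [mul_assoc]
    · rw [mul_zero]
  · simp [ha]

end Pool.Agent.MP_7d676c_b

end

section

/-! Approximation of negative powers of two by sums of fractions with small denominators. -/

namespace Pool.Agent.MP_7d676c_b

open Finset

theorem weight_Approx (i m : ℕ) :
    ∏ l ∈ (range (i + m + 1)).erase i, ((i : ℚ) - l) = (-1) ^ m * (i.factorial * m.factorial) := by
  induction m with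
  | zero =>
    rw [add_zero, range_add_one, erase_insert notMem_range_self, prod_range_natCast_sub,
      ← Nat.descFactorial_eq_prod_range, Nat.descFactorial_self]
    simp
  | succ m ih =>
    rw [← add_assoc, range_add_one, erase_insert_of_ne (by omega), prod_insert (by simp), ih,
      Nat.factorial_succ]
    push_cast
    ring

theorem winv_Approx {n i : ℕ} (h : i ≤ n) :
    (∏ l ∈ (range (n + 1)).erase i, ((i : ℚ) - l))⁻¹ =
      (-1) ^ (n + i) * (n.choose i : ℚ) / n.factorial := by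
  obtain ⟨m, rfl⟩ := Nat.exists_eq_add_of_le h
  have e : ((i + m).choose i : ℚ) * i.factorial * m.factorial = (i + m).factorial := by
    have := Nat.choose_mul_factorial_mul_factorial h
    rw [Nat.add_sub_cancel_left] at this
    exact_mod_cast this
  have c : ((i + m).choose i : ℚ) ≠ 0 := by exact_mod_cast (Nat.choose_pos h).ne'
  have s : (-1 : ℚ) ^ (i + m + i) = (-1) ^ m := by
    rw [show i + m + i = m + 2 * i by ring, pow_add, pow_mul]
    simp
  have s2 : ((-1 : ℚ) ^ m)⁻¹ = (-1) ^ m := by rw [← inv_pow, inv_neg, inv_one]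
  rw [weight_Approx, ← e, s, mul_inv, s2]
  have : (i.factorial : ℚ) ≠ 0 := by positivity
  have : (m.factorial : ℚ) ≠ 0 := by positivity
  field_simp

theorem wabs_Approx {n i : ℕ} (h : i ≤ n) :
    1 ≤ |∏ l ∈ (range (n + 1)).erase i, ((i : ℚ) - l)| := by
  obtain ⟨m, rfl⟩ := Nat.exists_eq_add_of_le h
  rw [weight_Approx, abs_mul, abs_neg_one_pow, one_mul, abs_of_nonneg (by positivity)]
  exact_mod_cast Nat.mul_pos (Nat.factorial_pos i) (Nat.factorial_pos m)

theorem frac_Approx (t : ℕ) (x : ℚ) (hx : (t : ℚ) < x) :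
    (∏ u ∈ range (t + 1), (x - u))⁻¹ =
      ∑ u ∈ range (t + 1), (-1) ^ (t + u) * (t.choose u : ℚ) / t.factorial * (x - u)⁻¹ := by
  have hv : Set.InjOn (fun u : ℕ => (u : ℚ)) (range (t + 1) : Finset ℕ) :=
    fun a _ b _ hab => Nat.cast_injective hab
  have hne : ∀ i ∈ range (t + 1), x ≠ (fun u : ℕ => (u : ℚ)) i := by
    intro i hi
    have : (i : ℚ) ≤ t := by exact_mod_cast Nat.lt_succ_iff.1 (mem_range.1 hi)
    exact (this.trans_lt hx).ne'
  have h := Lagrange.eval_interpolate_not_at_node (1 : ℕ → ℚ) hne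
  rw [Lagrange.interpolate_one hv nonempty_range_add_one, Polynomial.eval_one,
    Lagrange.eval_nodal] at h
  rw [← eq_inv_of_mul_eq_one_right h.symm]
  refine sum_congr rfl fun u hu => ?_
  rw [Lagrange.nodalWeight, prod_inv_distrib, winv_Approx (Nat.lt_succ_iff.1 (mem_range.1 hu))]
  simp

theorem lagrange_Approx (K J t : ℕ) (h : t < 2 * K) :
    1 = (∑ j ∈ range (J + 1),
        ((∏ u ∈ range (t + 1), (2 * ((K : ℚ) + j) - 2 * u)) *
          ∏ l ∈ range J, (2 * ((K : ℚ) + j) + 2 * (l + 1))) /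
        ((∏ l ∈ (range (J + 1)).erase j, (2 * ((K : ℚ) + j) - 2 * (K + l))) *
          ∏ u ∈ range (t + 1), (2 * ((K : ℚ) + j) - u))) +
      ∑ u ∈ range (t + 1),
        ((∏ w ∈ range (t + 1), ((u : ℚ) - 2 * w)) * ∏ l ∈ range J, ((u : ℚ) + 2 * (l + 1))) /
        ((∏ l ∈ range (J + 1), ((u : ℚ) - 2 * (K + l))) *
          ∏ w ∈ (range (t + 1)).erase u, ((u : ℚ) - w)) := by
  let v : ℕ ⊕ ℕ → ℚ := Sum.elim (fun j => 2 * ((K : ℚ) + j)) fun u => u
  have hv : Set.InjOn v ((range (J + 1)).disjSum (range (t + 1)) : Finset (ℕ ⊕ ℕ)) := by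
    have hlt : ∀ a b : ℕ, b < t + 1 → (b : ℚ) < 2 * ((K : ℚ) + a) := by
      intro a b hb
      exact_mod_cast (by omega : b < 2 * (K + a))
    rintro (a | a) ha (b | b) hb hab
    · have : (a : ℚ) = b := by
        simp only [v, Sum.elim_inl] at hab
        linarith
      exact congrArg _ (Nat.cast_injective this)
    · exact absurd hab (hlt a b (by simpa using hb)).ne'
    · exact absurd hab (hlt b a (by simpa using ha)).ne
    · exact congrArg _ (Nat.cast_injective hab)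
  let P : Polynomial ℚ := Lagrange.nodal (range (t + 1)) (fun u : ℕ => 2 * (u : ℚ)) *
    Lagrange.nodal (range J) fun l : ℕ => -(2 * ((l : ℚ) + 1))
  have hm : P.Monic := Lagrange.nodal_monic.mul Lagrange.nodal_monic
  have hd : (((range (J + 1)).disjSum (range (t + 1))).card : WithBot ℕ) = P.degree + 1 := by
    rw [Polynomial.degree_mul, Lagrange.degree_nodal, Lagrange.degree_nodal, card_disjSum,
      card_range, card_range, card_range]
    norm_cast
    omega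
  have key := Lagrange.leadingCoeff_eq_sum hv hd
  have he : ∀ x : ℚ, P.eval x =
      (∏ u ∈ range (t + 1), (x - 2 * u)) * ∏ l ∈ range J, (x + 2 * (l + 1)) := by
    intro x
    simp only [P, Polynomial.eval_mul, Lagrange.eval_nodal, sub_neg_eq_add]
  have e1 : ∀ j, ((range (J + 1)).disjSum (range (t + 1))).erase (Sum.inl j) =
      ((range (J + 1)).erase j).disjSum (range (t + 1)) := by
    intro j
    ext (a | a) <;> simp
  have e2 : ∀ u, ((range (J + 1)).disjSum (range (t + 1))).erase (Sum.inr u) =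
      (range (J + 1)).disjSum ((range (t + 1)).erase u) := by
    intro u
    ext (a | a) <;> simp
  rw [hm.leadingCoeff, sum_disjSum] at key
  simp only [e1, e2, prod_disjSum, he, v, Sum.elim_inl, Sum.elim_inr] at key
  exact key

theorem main_Approx (K J t j : ℕ) (h : t < 2 * K) (hj : j ≤ J) :
    ((∏ u ∈ range (t + 1), (2 * ((K : ℚ) + j) - 2 * u)) *
          ∏ l ∈ range J, (2 * ((K : ℚ) + j) + 2 * (l + 1))) /
        ((∏ l ∈ (range (J + 1)).erase j, (2 * ((K : ℚ) + j) - 2 * (K + l))) *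
          ∏ u ∈ range (t + 1), (2 * ((K : ℚ) + j) - u)) =
      2 ^ (t + 1) * ∑ u ∈ range (t + 1),
        ((-1) ^ (J + j + t + u) * (J.choose j : ℚ) * ((K + j + J).choose J : ℚ) *
          ((K + j).choose (t + 1) : ℚ) * ((t : ℚ) + 1) * (t.choose u : ℚ)) /
          (2 * ((K : ℚ) + j) - u) := by
  have a1 : ∏ u ∈ range (t + 1), (2 * ((K : ℚ) + j) - 2 * u) =
      2 ^ (t + 1) * ((t + 1).factorial * ((K + j).choose (t + 1) : ℚ)) := by
    have : ∀ u : ℕ, 2 * ((K : ℚ) + j) - 2 * u = 2 * (((K + j : ℕ) : ℚ) - u) := by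
      intro u
      push_cast
      ring
    simp only [this]
    rw [prod_mul_distrib, prod_const, card_range, prod_range_natCast_sub,
      ← Nat.descFactorial_eq_prod_range, Nat.descFactorial_eq_factorial_mul_choose, Nat.cast_mul]
  have a2 : ∏ l ∈ range J, (2 * ((K : ℚ) + j) + 2 * (l + 1)) =
      2 ^ J * (J.factorial * ((K + j + J).choose J : ℚ)) := by
    have : ∀ l : ℕ, 2 * ((K : ℚ) + j) + 2 * (l + 1) = 2 * ((K + j + 1 + l : ℕ) : ℚ) := by
      intro l
      push_cast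
      ring
    simp only [this]
    rw [prod_mul_distrib, prod_const, card_range, ← Nat.cast_prod,
      ← Nat.ascFactorial_eq_prod_range, Nat.ascFactorial_eq_factorial_mul_choose, Nat.cast_mul]
  have a3 : ∏ l ∈ (range (J + 1)).erase j, (2 * ((K : ℚ) + j) - 2 * (K + l)) =
      2 ^ J * ∏ l ∈ (range (J + 1)).erase j, ((j : ℚ) - l) := by
    have : ∀ l : ℕ, 2 * ((K : ℚ) + j) - 2 * (K + l) = 2 * ((j : ℚ) - l) := by
      intro l
      ring
    simp only [this]
    rw [prod_mul_distrib, prod_const, card_erase_of_mem (mem_range.2 (by omega)), card_range,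
      Nat.add_sub_cancel]
  have hx : (t : ℚ) < 2 * ((K : ℚ) + j) := by exact_mod_cast (by omega : t < 2 * (K + j))
  rw [a1, a2, a3, div_eq_mul_inv, mul_inv, mul_inv, winv_Approx hj, frac_Approx t _ hx,
    mul_sum, mul_sum, mul_sum]
  refine sum_congr rfl fun u _ => ?_
  have : (J.factorial : ℚ) ≠ 0 := by positivity
  have : (t.factorial : ℚ) ≠ 0 := by positivity
  rw [Nat.factorial_succ, div_eq_mul_inv _ (2 * ((K : ℚ) + j) - u)]
  generalize (2 * ((K : ℚ) + j) - u)⁻¹ = z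
  push_cast
  field_simp
  ring

theorem err_Approx (K J t u : ℕ) (h : 3 * t + 4 * J + 1 ≤ 2 * K) (hu : u ≤ t) :
    |((∏ w ∈ range (t + 1), ((u : ℚ) - 2 * w)) * ∏ l ∈ range J, ((u : ℚ) + 2 * (l + 1))) /
        ((∏ l ∈ range (J + 1), ((u : ℚ) - 2 * (K + l))) *
          ∏ w ∈ (range (t + 1)).erase u, ((u : ℚ) - w))| ≤ (2 * (t : ℚ) + 2) ^ (t + 1) / 2 ^ J := by
  have hu' : (u : ℚ) ≤ t := by exact_mod_cast hu
  have h' : 3 * (t : ℚ) + 4 * J + 1 ≤ 2 * K := by exact_mod_cast h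
  have u0 : (0 : ℚ) ≤ u := Nat.cast_nonneg _
  have J0 : (0 : ℚ) ≤ J := Nat.cast_nonneg _
  have b1 : |∏ w ∈ range (t + 1), ((u : ℚ) - 2 * w)| ≤ (2 * (t : ℚ) + 2) ^ (t + 1) := by
    rw [abs_prod]
    refine (prod_le_prod (fun _ _ => abs_nonneg _) fun w hw => ?_).trans_eq
      ((prod_const _).trans (by rw [card_range]))
    have : (w : ℚ) ≤ t := by exact_mod_cast Nat.lt_succ_iff.1 (mem_range.1 hw)
    have : (0 : ℚ) ≤ w := Nat.cast_nonneg _
    exact abs_le.2 ⟨by linarith, by linarith⟩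
  have b2 : |∏ l ∈ range J, ((u : ℚ) + 2 * (l + 1))| ≤ ((t : ℚ) + 2 * J) ^ J := by
    rw [abs_prod]
    refine (prod_le_prod (fun _ _ => abs_nonneg _) fun l hl => ?_).trans_eq
      ((prod_const _).trans (by rw [card_range]))
    have : (l : ℚ) + 1 ≤ J := by exact_mod_cast mem_range.1 hl
    have : (0 : ℚ) ≤ l := Nat.cast_nonneg _
    exact abs_le.2 ⟨by linarith, by linarith⟩
  have b3 : (2 * (K : ℚ) - t) ^ (J + 1) ≤ |∏ l ∈ range (J + 1), ((u : ℚ) - 2 * (K + l))| := by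
    rw [abs_prod]
    refine ((prod_const _).trans (by rw [card_range])).symm.trans_le
      (prod_le_prod (fun _ _ => by linarith) fun l _ => ?_)
    have : (0 : ℚ) ≤ l := Nat.cast_nonneg _
    exact le_abs.2 (Or.inr (by linarith))
  have b4 := wabs_Approx hu
  have b5 : 2 ^ J * ((t : ℚ) + 2 * J) ^ J ≤ (2 * (K : ℚ) - t) ^ (J + 1) := by
    rw [← mul_pow]
    exact (pow_le_pow_left₀ (by linarith) (by linarith) J).trans
      (pow_le_pow_right₀ (by linarith) (Nat.le_succ J))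
  have b6 : (0 : ℚ) < (2 * (K : ℚ) - t) ^ (J + 1) := pow_pos (by linarith) _
  have b7 : (2 * (K : ℚ) - t) ^ (J + 1) ≤ |∏ l ∈ range (J + 1), ((u : ℚ) - 2 * (K + l))| *
      |∏ w ∈ (range (t + 1)).erase u, ((u : ℚ) - w)| :=
    b3.trans (le_mul_of_one_le_right (abs_nonneg _) b4)
  rw [abs_div, abs_mul, abs_mul, div_le_div_iff₀ (b6.trans_le b7) (by positivity)]
  calc _ ≤ (2 * (t : ℚ) + 2) ^ (t + 1) * ((t : ℚ) + 2 * J) ^ J * 2 ^ J := by gcongr
    _ = (2 * (t : ℚ) + 2) ^ (t + 1) * (2 ^ J * ((t : ℚ) + 2 * J) ^ J) := by ring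
    _ ≤ _ := mul_le_mul_of_nonneg_left (b5.trans b7) (by positivity)

theorem approx_two_pow (K J t : ℕ) (h : 3 * t + 4 * J + 1 ≤ 2 * K) :
    |(∑ j ∈ range (J + 1), ∑ u ∈ range (t + 1),
        ((-1) ^ (J + j + t + u) * (J.choose j : ℚ) * ((K + j + J).choose J : ℚ) *
          ((K + j).choose (t + 1) : ℚ) * ((t : ℚ) + 1) * (t.choose u : ℚ)) /
          (2 * ((K : ℚ) + j) - u)) - 1 / 2 ^ (t + 1)| ≤ (2 * (t : ℚ) + 2) ^ (t + 2) / 2 ^ J := by
  have ht : t < 2 * K := by omega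
  have key := lagrange_Approx K J t ht
  rw [sum_congr rfl fun j hj => main_Approx K J t j ht (Nat.lt_succ_iff.1 (mem_range.1 hj)),
    ← mul_sum] at key
  have err := (abs_sum_le_sum_abs _ _).trans (sum_le_card_nsmul (range (t + 1)) _ _
    fun u hu => err_Approx K J t u h (Nat.lt_succ_iff.1 (mem_range.1 hu)))
  rw [card_range, nsmul_eq_mul] at err
  generalize (∑ j ∈ range (J + 1), ∑ u ∈ range (t + 1), _ : ℚ) = y at key ⊢
  generalize (∑ u ∈ range (t + 1), _ : ℚ) = r at key err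
  have e : y - 1 / 2 ^ (t + 1) = -r / 2 ^ (t + 1) := by
    field_simp
    linarith
  rw [e, abs_div, abs_neg, abs_of_pos (by positivity : (0 : ℚ) < 2 ^ (t + 1))]
  refine (div_le_self (abs_nonneg _) (one_le_pow₀ one_le_two)).trans (err.trans ?_)
  rw [pow_succ' _ (t + 1), mul_div_assoc]
  refine mul_le_mul_of_nonneg_right ?_ (by positivity)
  push_cast
  linarith [Nat.cast_nonneg (α := ℚ) t]

end Pool.Agent.MP_7d676c_b

end

section

/-! An indicator of primes modulo `m ^ L`, and Chinese remaindering over all candidates. -/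

namespace Pool.Agent.MP_7d676c_b

open Finset Pool.Agent.MP_7d676c_lc

/-- the sum of one factor, as an integer -/
def FS (L : ℕ) (m : ℤ) (s : Spec) : ℤ := ∑ y ∈ range (2 ^ L), fac m s (y : ℕ)

/-- a factor that vanishes when there are `2 ^ (j + 2)` square roots of one -/
def indF (L : ℕ) (m : ℤ) (j : ℕ) : ℤ :=
  if (2 ^ (j + 2) - 2) % m = 0 then 1
  else FS L m (true, 2 ^ (j + 2), 0) * powMod m (2 ^ (j + 2) - 2) (m - 2)

/-- the indicator of primes modulo `m` -/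
def ind0 (L : ℕ) (m : ℤ) : ℤ :=
  if m = 2 then 1 else if m % 2 = 0 then 0
  else FS L m (false, 0, 0) ^ L * ∏ j ∈ range L, indF L m j

/-- the indicator of primes modulo `m ^ L` -/
def ind (L : ℕ) (m : ℤ) : ℤ := 1 - (1 - ind0 L m ^ L) ^ L

theorem cast_FS_Ind (L m : ℕ) (s : Spec) : ((FS L m s : ℤ) : ZMod m) = facSum L m s := rfl

theorem ind0_prime_Ind (L p : ℕ) (hp : p.Prime) (hL : p < 2 ^ L) :
    ((ind0 L p : ℤ) : ZMod p) = 1 := by
  have : Fact p.Prime := ⟨hp⟩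
  unfold ind0
  split_ifs with h2 hev
  · exact Int.cast_one
  · exfalso
    have h3 : 2 ∣ p := by omega
    have := (Nat.prime_dvd_prime_iff_eq Nat.prime_two hp).1 h3
    omega
  have h2' : 2 < p := by
    have := hp.two_le
    omega
  have : Fact (2 < p) := ⟨h2'⟩
  have hI : (univ.filter fun x : ZMod p => x * x = 1).card = 2 := by
    rw [← card_pair (ZMod.neg_one_ne_one (n := p)).symm]
    congr 1
    ext x
    simp [mul_self_eq_one_iff]
  have h0 : facSum L p (false, 0, 0) = 1 := by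
    simpa using facSum_choose L p 0 0 hp hL.le (by omega) (by omega)
  rw [Int.cast_mul, Int.cast_pow, cast_FS_Ind, h0, one_pow, one_mul, Int.cast_prod]
  refine prod_eq_one fun j _ => ?_
  unfold indF
  split_ifs with h3
  · exact Int.cast_one
  have h4 : ((2 ^ (j + 2) - 2 : ℤ) : ZMod p) ≠ 0 := fun h =>
    h3 (Int.emod_eq_zero_of_dvd ((ZMod.intCast_zmod_eq_zero_iff_dvd _ p).1 h))
  have h5 : ((powMod p (2 ^ (j + 2) - 2) (p - 2) : ℤ) : ZMod p) =
      ((2 ^ (j + 2) - 2 : ℤ) : ZMod p) ^ (p - 2) := by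
    rw [powMod, (ZMod.intCast_eq_intCast_iff _ _ _).2 (rd_modEq (by exact_mod_cast hp.pos) _),
      Int.cast_pow]
    congr 1
    omega
  rw [Int.cast_mul, cast_FS_Ind, facSum_true_Ind hp.one_lt hL.le, hI, h5]
  have h6 : (((2 ^ (j + 2) : ℤ) : ZMod p) - ((2 : ℕ) : ZMod p)) =
      ((2 ^ (j + 2) - 2 : ℤ) : ZMod p) := by
    push_cast
    rfl
  rw [h6, ← pow_succ', show p - 2 + 1 = p - 1 by omega]
  exact ZMod.pow_card_sub_one_eq_one h4

theorem ind0_comp_Ind (L m : ℕ) (h1 : 1 < m) (hL : m < 2 ^ L) (hm : ¬ m.Prime) :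
    (m : ℤ) ∣ ind0 L m := by
  unfold ind0
  split_ifs with h2 hev
  · exfalso
    have h3 : m = 2 := by omega
    exact hm (h3 ▸ Nat.prime_two)
  · exact dvd_zero _
  have hodd : m % 2 = 1 := by omega
  have : NeZero m := ⟨by omega⟩
  have hp : m.minFac.Prime := Nat.minFac_prime (by omega)
  have hpm : m.minFac ∣ m := Nat.minFac_dvd m
  generalize m.minFac = p at hp hpm
  obtain ⟨k, c, hc, e⟩ := Nat.exists_eq_pow_mul_and_not_dvd (n := m) (by omega) p hp.ne_one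
  have hk : k ≠ 0 := by
    rintro rfl
    rw [pow_zero, one_mul] at e
    exact hc (e ▸ hpm)
  have odd : ∀ d, d ∣ m → d ≠ 1 → 2 < d := by
    intro d hd hd1
    have h0 : d ≠ 0 := by
      rintro rfl
      have := Nat.eq_zero_of_zero_dvd hd
      omega
    have h2 : d ≠ 2 := by
      rintro rfl
      omega
    omega
  by_cases hc1 : c = 1
  · subst hc1
    rw [mul_one] at e
    have hk1 : k ≠ 1 := by
      rintro rfl
      rw [pow_one] at e
      exact hm (e ▸ hp)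
    have hk6 : k < L := by
      refine (Nat.pow_lt_pow_iff_right one_lt_two).1 (lt_of_le_of_lt ?_ hL)
      rw [e]
      exact Nat.pow_le_pow_left hp.two_le k
    have e' : m = p * p ^ (k - 1) := by
      rw [← pow_succ', Nat.sub_add_cancel (by omega), e]
    have hd := dvd_sum_Ind hp.pos (pow_pos hp.pos (k - 1)) (dvd_pow_self p (by omega))
    rw [← e'] at hd
    refine Dvd.dvd.mul_right ?_ _
    rw [FS, sum_fac_Ind hL.le]
    refine dvd_trans ?_ (pow_dvd_pow_of_dvd hd _)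
    rw [e]
    push_cast
    exact pow_dvd_pow _ hk6.le
  · obtain ⟨j, hj⟩ := card_pow_Ind m
    have hbig : 2 < (univ.filter fun x : ZMod m => x * x = 1).card := by
      have hb : 2 < p ^ k := odd _ (e ▸ dvd_mul_right _ _)
        (Nat.one_lt_pow hk hp.one_lt).ne'
      have hc2 : 2 < c := odd _ (e ▸ dvd_mul_left _ _) hc1
      subst e
      exact card_big_Ind hb hc2 (((Nat.Prime.coprime_iff_not_dvd hp).2 hc).pow_left k)
    have hle : 2 ^ j ≤ m := by
      rw [← hj]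
      exact (card_le_univ _).trans (ZMod.card m).le
    have hj6 : j < L := (Nat.pow_lt_pow_iff_right one_lt_two).1 (hle.trans_lt hL)
    have hj2 : 1 < j := by
      rw [hj] at hbig
      exact (Nat.pow_lt_pow_iff_right one_lt_two).1 (by simpa using hbig)
    refine Dvd.dvd.mul_left ?_ _
    refine dvd_trans ?_ (dvd_prod_of_mem _ (mem_range.2 (show j - 2 < L by omega)))
    have hbig' : (2 : ℤ) < 2 ^ j := by
      rw [hj] at hbig
      exact_mod_cast hbig
    have hle' : (2 : ℤ) ^ j ≤ m := by exact_mod_cast hle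
    rw [indF, Nat.sub_add_cancel hj2, if_neg (by
      rw [Int.emod_eq_of_lt (by omega) (by omega)]
      omega)]
    refine Dvd.dvd.mul_right ?_ _
    rw [← ZMod.intCast_zmod_eq_zero_iff_dvd, cast_FS_Ind, facSum_true_Ind h1 hL.le, hj]
    push_cast
    exact sub_self _

theorem ind_of_prime (L p : ℕ) (hp : p.Prime) (hL : p < 2 ^ L) :
    ind L p ≡ 1 [ZMOD (p : ℤ) ^ L] := by
  have h1 : (p : ℤ) ∣ 1 - ind0 L p ^ L := by
    rw [← ZMod.intCast_zmod_eq_zero_iff_dvd]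
    push_cast
    rw [ind0_prime_Ind L p hp hL, one_pow, sub_self]
  refine (Int.modEq_iff_dvd.2 ?_)
  rw [ind, sub_sub_cancel]
  exact pow_dvd_pow_of_dvd h1 L

theorem ind_of_not_prime (L m : ℕ) (h1 : 1 < m) (hL : m < 2 ^ L) (hm : ¬ m.Prime) :
    (m : ℤ) ^ L ∣ ind L m := by
  refine (pow_dvd_pow_of_dvd (ind0_comp_Ind L m h1 hL hm) L).trans ?_
  have h := sub_dvd_pow_sub_pow (1 : ℤ) (1 - ind0 L m ^ L) L
  rwa [sub_sub_cancel, one_pow] at h

end Pool.Agent.MP_7d676c_b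

end

section

/-! Chinese remaindering as a sum over all candidates for a prime. -/

namespace Pool.Agent.MP_7d676c_b

open Finset Pool.Agent.MP_7d676c_lc

/-- the part of `d` that is left after dividing by `m` at most `L` times -/
def cof (L : ℕ) (m d : ℤ) : ℤ := (fun c => if c % m = 0 then c / m else c)^[L] d

theorem cof_spec_Crt (m d : ℤ) (i : ℕ) :
    ∃ e ≤ i, d = m ^ e * cof i m d ∧ (e = i ∨ ¬ m ∣ cof i m d) := by
  induction i with
  | zero => exact ⟨0, le_rfl, by simp [cof], Or.inl rfl⟩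
  | succ i ih =>
    obtain ⟨e, he, hd, hor⟩ := ih
    have hs : cof (i + 1) m d = if cof i m d % m = 0 then cof i m d / m else cof i m d := by
      unfold cof
      rw [Function.iterate_succ_apply']
    by_cases h : cof i m d % m = 0
    · have hdv : m ∣ cof i m d := Int.dvd_of_emod_eq_zero h
      have hei : e = i := hor.resolve_right (fun h' => h' hdv)
      refine ⟨e + 1, by omega, ?_, Or.inl (by omega)⟩
      rw [hs, if_pos h, pow_succ, mul_assoc, Int.mul_ediv_cancel' hdv]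
      exact hd
    · refine ⟨e, by omega, ?_, Or.inr ?_⟩
      · rw [hs, if_neg h]; exact hd
      · rw [hs, if_neg h]; exact fun h' => h (Int.emod_eq_zero_of_dvd h')

theorem cof_pos_Crt (L d m : ℕ) (hd : 0 < d) (hL : d < 2 ^ L) (hm : 2 ≤ m) :
    ∃ e ≤ L, ∃ c : ℕ, cof L m d = c ∧ d = m ^ e * c ∧ ¬ m ∣ c := by
  obtain ⟨e, he, h1, hor⟩ := cof_spec_Crt (m : ℤ) (d : ℤ) L
  have hmp : (0 : ℤ) < (m : ℤ) ^ e := by positivity
  have hc : 0 < cof L m d := by
    have h2 : (0 : ℤ) < (m : ℤ) ^ e * cof L m d := by rw [← h1]; exact_mod_cast hd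
    exact (mul_pos_iff_of_pos_left hmp).1 h2
  obtain ⟨c, hc'⟩ := Int.eq_ofNat_of_zero_le hc.le
  have h3 : d = m ^ e * c := by
    rw [hc'] at h1
    exact_mod_cast h1
  refine ⟨e, he, c, hc', h3, ?_⟩
  rcases hor with h | h
  · exfalso
    have hc0 : 0 < c := by rw [hc'] at hc; exact_mod_cast hc
    have h4 : 2 ^ L ≤ m ^ e := by rw [h]; exact Nat.pow_le_pow_left hm L
    have h5 : m ^ e ≤ m ^ e * c := Nat.le_mul_of_pos_right _ hc0
    omega
  · intro h'
    apply h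
    rw [hc']
    exact_mod_cast h'

theorem powMod_Crt (L d m : ℕ) (hd : 0 < d) (hm : 2 ≤ m) (c : ℤ) :
    powMod d c ((m : ℤ) ^ L * (m - 1)) ≡ c ^ (m ^ L * (m - 1)) [ZMOD d] := by
  have h1 : ((m : ℤ) ^ L * (m - 1)) = ((m ^ L * (m - 1) : ℕ) : ℤ) := by
    have : 1 ≤ m := by omega
    push_cast [this]
    ring
  have hd' : (0 : ℤ) < d := by exact_mod_cast hd
  rw [h1, powMod, rd, if_pos hd', Int.toNat_natCast]
  exact Int.mod_modEq _ _

theorem crt_sum (L d : ℕ) (hd : 0 < d) (hL : d < 2 ^ L) (x : ℤ) (ι b : ℕ → ℤ)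
    (h1 : ∀ p : ℕ, p.Prime → p < 2 ^ L → ι p ≡ 1 [ZMOD (p : ℤ) ^ L])
    (h0 : ∀ m : ℕ, 1 < m → m < 2 ^ L → ¬ m.Prime → (m : ℤ) ^ L ∣ ι m)
    (hb : ∀ p : ℕ, p.Prime → p < 2 ^ L → b p ≡ x [ZMOD (p : ℤ) ^ L]) :
    ∑ m ∈ range (2 ^ L), (if 2 ≤ m then
      ι m * powMod d (cof L m d) ((m : ℤ) ^ L * (m - 1)) * b m else 0) ≡ x [ZMOD d] := by
  rw [Int.modEq_iff_dvd, Int.natCast_dvd, Nat.dvd_iff_prime_pow_dvd_dvd]
  intro p f hp hpf
  rw [← Int.natCast_dvd, ← Int.modEq_iff_dvd]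
  rcases Nat.eq_zero_or_pos f with hf0 | hf0
  · subst hf0
    simp [Int.modEq_one]
  have hle : p ^ f ≤ d := Nat.le_of_dvd hd hpf
  have hpL : p < 2 ^ L := lt_of_le_of_lt ((Nat.le_self_pow hf0.ne' p).trans hle) hL
  have hfL : f ≤ L := by
    have h2 : 2 ^ f ≤ p ^ f := Nat.pow_le_pow_left hp.two_le f
    have h3 : 2 ^ f < 2 ^ L := by omega
    exact ((Nat.pow_lt_pow_iff_right (by norm_num)).1 h3).le
  have hq : ((p ^ f : ℕ) : ℤ) ∣ (d : ℤ) := by exact_mod_cast hpf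
  have hqL : ((p ^ f : ℕ) : ℤ) ∣ (p : ℤ) ^ L := by
    push_cast
    exact pow_dvd_pow _ hfL
  rw [← Finset.add_sum_erase _ _ (Finset.mem_range.2 hpL)]
  have hA : (if 2 ≤ p then
      ι p * powMod d (cof L p d) ((p : ℤ) ^ L * (p - 1)) * b p else 0) ≡ x
        [ZMOD ((p ^ f : ℕ) : ℤ)] := by
    rw [if_pos hp.two_le]
    obtain ⟨e, -, c, hc, -, hnd⟩ := cof_pos_Crt L d p hd hL hp.two_le
    have e1 := (h1 p hp hpL).of_dvd hqL
    have e3 := (hb p hp hpL).of_dvd hqL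
    have e2 := (powMod_Crt L d p hd hp.two_le (cof L p d)).of_dvd hq
    have hco : Nat.Coprime c (p ^ (L + 1)) :=
      Nat.Coprime.pow_right _ ((Nat.Prime.coprime_iff_not_dvd hp).2 hnd).symm
    have e4 := Nat.ModEq.pow_totient hco
    rw [Nat.totient_prime_pow_succ hp] at e4
    have e5 : c ^ (p ^ L * (p - 1)) ≡ 1 [MOD p ^ f] :=
      e4.of_dvd (pow_dvd_pow _ (by omega))
    have e6 : (c : ℤ) ^ (p ^ L * (p - 1)) ≡ 1 [ZMOD ((p ^ f : ℕ) : ℤ)] := by
      have := (Int.natCast_modEq_iff).2 e5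
      simpa using this
    rw [hc] at e2 ⊢
    have := (e1.mul (e2.trans e6)).mul e3
    simpa using this
  have hB : ∑ m ∈ (range (2 ^ L)).erase p, (if 2 ≤ m then
      ι m * powMod d (cof L m d) ((m : ℤ) ^ L * (m - 1)) * b m else 0) ≡ 0
        [ZMOD ((p ^ f : ℕ) : ℤ)] := by
    rw [Int.modEq_zero_iff_dvd]
    refine Finset.dvd_sum fun m hm => ?_
    obtain ⟨hmp, hmL⟩ := Finset.mem_erase.1 hm
    have hmL' := Finset.mem_range.1 hmL
    split_ifs with h2
    · obtain ⟨e, he, c, hc, hdc, -⟩ := cof_pos_Crt L d m hd hL h2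
      have e2 := (powMod_Crt L d m hd h2 (cof L m d)).of_dvd hq
      have hK : m ^ L * (m - 1) ≠ 0 := by
        have : 0 < m ^ L := by positivity
        have : 0 < m - 1 := by omega
        positivity
      rw [hc] at e2 ⊢
      have e3 := (e2.mul_left (ι m)).mul_right (b m)
      refine e3.dvd_iff.2 (Dvd.dvd.mul_right ?_ _)
      by_cases hmq : m.Prime
      · have hco : Nat.Coprime (p ^ f) (m ^ e) :=
          Nat.Coprime.pow _ _ ((Nat.coprime_primes hp hmq).2 (Ne.symm hmp))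
        have h3 : p ^ f ∣ c := hco.dvd_of_dvd_mul_left (hdc ▸ hpf)
        have h4 : ((p ^ f : ℕ) : ℤ) ∣ (c : ℤ) := by exact_mod_cast h3
        exact Dvd.dvd.mul_left (h4.trans (dvd_pow_self _ hK)) _
      · refine hq.trans ?_
        have h3 : (d : ℤ) = (m : ℤ) ^ e * c := by exact_mod_cast hdc
        rw [h3]
        exact mul_dvd_mul ((pow_dvd_pow _ he).trans (h0 m (by omega) hmL' hmq))
          (dvd_pow_self _ hK)
    · exact dvd_zero _
  simpa using hA.add hB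

end Pool.Agent.MP_7d676c_b

end

section

/-! Reading a bit from roundings at all scales. -/

namespace Pool.Agent.MP_7d676c_b

/-- `R t` is a rounding of `(2 N + 1) / 2 ^ t` whose error is known up to `3 / 64`. -/
def Rnd (N : ℤ) (T : ℕ) (R ph : ℕ → ℤ) : Prop :=
  ∀ t ≤ T, |((2 * N + 1 : ℤ) : ℚ) / 2 ^ t - R t - (ph t : ℚ) / 64| ≤ 3 / 64 ∧
    -32 ≤ ph t ∧ ph t < 32

theorem err_Round {N : ℤ} {T : ℕ} {R ph : ℕ → ℤ} (h : Rnd N T R ph) {t : ℕ} (ht : t ≤ T) :
    -(35 / 64 : ℚ) ≤ ((2 * N + 1 : ℤ) : ℚ) / 2 ^ t - R t ∧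
      ((2 * N + 1 : ℤ) : ℚ) / 2 ^ t - R t ≤ 35 / 64 := by
  obtain ⟨h1, h2, h3⟩ := h t ht
  have h2' : (-32 : ℚ) ≤ (ph t : ℚ) := by exact_mod_cast h2
  have h3' : (ph t : ℚ) < 32 := by exact_mod_cast h3
  rw [abs_le] at h1
  constructor <;> linarith [h1.1, h1.2]

theorem half_Round (a : ℚ) (t : ℕ) : a / 2 ^ t = 2 * (a / 2 ^ (t + 1)) := by
  rw [pow_succ]
  field_simp

theorem floor_Round (N q : ℤ) (i : ℕ) (h1 : (q : ℚ) ≤ ((2 * N + 1 : ℤ) : ℚ) / 2 ^ (i + 1))
    (h2 : ((2 * N + 1 : ℤ) : ℚ) / 2 ^ (i + 1) < q + 1) : N / 2 ^ i = q := by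
  have hp : (0 : ℚ) < 2 ^ (i + 1) := by positivity
  rw [le_div_iff₀ hp] at h1
  rw [div_lt_iff₀ hp] at h2
  have h1' : q * 2 ^ (i + 1) ≤ 2 * N + 1 := by exact_mod_cast h1
  have h2' : 2 * N + 1 < (q + 1) * 2 ^ (i + 1) := by exact_mod_cast h2
  have hq : (0 : ℤ) < 2 ^ i := by positivity
  rw [pow_succ] at h1' h2'
  have a1 : q * 2 ^ i ≤ N := by
    have : q * (2 ^ i * 2) = 2 * (q * 2 ^ i) := by ring
    omega
  have a2 : N < (q + 1) * 2 ^ i := by
    have : (q + 1) * (2 ^ i * 2) = 2 * ((q + 1) * 2 ^ i) := by ring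
    omega
  have b1 : q ≤ N / 2 ^ i := Int.le_ediv_of_mul_le hq a1
  have b2 : N / 2 ^ i < q + 1 := Int.ediv_lt_of_lt_mul hq a2
  omega

theorem rnd_zero {N : ℤ} {T : ℕ} {R ph : ℕ → ℤ} (h : Rnd N T R ph) {I : ℕ} (hI : 1 ≤ I) :
    R 0 ≠ 2 ^ I * R I := by
  obtain ⟨h1, h2⟩ := err_Round h (Nat.zero_le T)
  simp only [pow_zero, div_one] at h1 h2
  have a1 : ((-1 : ℤ) : ℚ) < ((2 * N + 1 - R 0 : ℤ) : ℚ) := by
    push_cast at h1 ⊢
    linarith
  have a2 : ((2 * N + 1 - R 0 : ℤ) : ℚ) < ((1 : ℤ) : ℚ) := by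
    push_cast at h2 ⊢
    linarith
  have b1 : -1 < 2 * N + 1 - R 0 := by exact_mod_cast a1
  have b2 : 2 * N + 1 - R 0 < 1 := by exact_mod_cast a2
  obtain ⟨J, rfl⟩ : ∃ J, I = J + 1 := ⟨I - 1, by omega⟩
  intro he
  have : 2 ^ (J + 1) * R (J + 1) = 2 * (2 ^ J * R (J + 1)) := by ring
  omega

theorem rnd_bit {N : ℤ} {T : ℕ} {R ph : ℕ → ℤ} (h : Rnd N T R ph) {i t : ℕ} (hi : i + 2 ≤ T)
    (ht : t ≤ i) (h0 : R t ≠ 2 ^ (i + 1 - t) * R (i + 1))
    (h1 : R (t + 1) = 2 ^ (i - t) * R (i + 1)) :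
    N / 2 ^ i % 2 =
      ((2 * ph (i + 2) - ph (i + 1) + 32) / 64 - if ph (t + 1) < 0 then 1 else 0) % 2 := by
  obtain ⟨d, rfl⟩ : ∃ d, i = t + d := ⟨i - t, by omega⟩
  have e1 : t + d + 1 - t = d + 1 := by omega
  have e2 : t + d - t = d := by omega
  rw [e1] at h0
  rw [e2] at h1
  set a : ℚ := ((2 * N + 1 : ℤ) : ℚ) with ha
  have hne : R t - 2 * R (t + 1) ≠ 0 := by
    intro hz
    apply h0
    rw [pow_succ]
    have : 2 ^ d * 2 * R (t + d + 1) = 2 * (2 ^ d * R (t + d + 1)) := by ring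
    omega
  obtain ⟨p1, p2⟩ := err_Round h (t := t) (by omega)
  obtain ⟨q1, q2⟩ := err_Round h (t := t + d + 1) (by omega)
  obtain ⟨r1, -, -⟩ := h (t + 1) (by omega)
  obtain ⟨s1, -, -⟩ := h (t + d + 1) (by omega)
  obtain ⟨u1, -, -⟩ := h (t + d + 2) (by omega)
  rw [← ha] at p1 p2 q1 q2 r1 s1 u1
  rw [abs_le] at r1 s1 u1
  have hx := half_Round a t
  have hy := half_Round a (t + d + 1)
  have hpd : (0 : ℚ) < 2 ^ d := by positivity
  have hz : a / 2 ^ (t + 1) - R (t + 1) = 2 ^ d * (a / 2 ^ (t + d + 1) - R (t + d + 1)) := by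
    rw [h1]
    push_cast
    have : (2 : ℚ) ^ (t + d + 1) = 2 ^ (t + 1) * 2 ^ d := by ring
    rw [this]
    field_simp
  have hD : (2 * ph (t + d + 2) - ph (t + d + 1) + 32) / 64 =
      R (t + d + 1) - 2 * R (t + d + 2) := by
    have c1 : ((64 * (R (t + d + 1) - 2 * R (t + d + 2)) : ℤ) : ℚ) ≤
        ((2 * ph (t + d + 2) - ph (t + d + 1) + 9 : ℤ) : ℚ) := by
      push_cast
      have : t + d + 1 + 1 = t + d + 2 := rfl
      rw [this] at hy
      linarith [s1.1, s1.2, u1.1, u1.2]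
    have c2 : ((2 * ph (t + d + 2) - ph (t + d + 1) - 9 : ℤ) : ℚ) ≤
        ((64 * (R (t + d + 1) - 2 * R (t + d + 2)) : ℤ) : ℚ) := by
      push_cast
      have : t + d + 1 + 1 = t + d + 2 := rfl
      rw [this] at hy
      linarith [s1.1, s1.2, u1.1, u1.2]
    have c1' : 64 * (R (t + d + 1) - 2 * R (t + d + 2)) ≤
        2 * ph (t + d + 2) - ph (t + d + 1) + 9 := by exact_mod_cast c1
    have c2' : 2 * ph (t + d + 2) - ph (t + d + 1) - 9 ≤
        64 * (R (t + d + 1) - 2 * R (t + d + 2)) := by exact_mod_cast c2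
    omega
  rw [hD]
  rcases lt_or_gt_of_ne hne with hlt | hgt
  · have c : ((R t - 2 * R (t + 1) : ℤ) : ℚ) ≤ ((-1 : ℤ) : ℚ) := by
      exact_mod_cast (show R t - 2 * R (t + 1) ≤ -1 by omega)
    push_cast at c
    have hneg : a / 2 ^ (t + 1) - R (t + 1) ≤ -(29 / 128) := by linarith
    have hph : ph (t + 1) < 0 := by
      have : (ph (t + 1) : ℚ) < 0 := by linarith [r1.1, r1.2]
      exact_mod_cast this
    have hneg' : a / 2 ^ (t + d + 1) - R (t + d + 1) < 0 := by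
      by_contra hc
      have : 0 ≤ 2 ^ d * (a / 2 ^ (t + d + 1) - R (t + d + 1)) :=
        mul_nonneg hpd.le (not_lt.mp hc)
      linarith
    have hf : N / 2 ^ (t + d) = R (t + d + 1) - 1 := by
      apply floor_Round
      · rw [← ha]
        push_cast
        linarith
      · rw [← ha]
        push_cast
        linarith
    rw [if_pos hph, hf]
    omega
  · have c : ((1 : ℤ) : ℚ) ≤ ((R t - 2 * R (t + 1) : ℤ) : ℚ) := by
      exact_mod_cast (show 1 ≤ R t - 2 * R (t + 1) by omega)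
    push_cast at c
    have hpos : 29 / 128 ≤ a / 2 ^ (t + 1) - R (t + 1) := by linarith
    have hph : ¬ ph (t + 1) < 0 := by
      have : (0 : ℚ) < (ph (t + 1) : ℚ) := by linarith [r1.1, r1.2]
      have : 0 < ph (t + 1) := by exact_mod_cast this
      omega
    have hpos' : 0 ≤ a / 2 ^ (t + d + 1) - R (t + d + 1) := by
      by_contra hc
      have : 2 ^ d * (a / 2 ^ (t + d + 1) - R (t + d + 1)) < 0 :=
        mul_neg_of_pos_of_neg hpd (not_le.mp hc)
      linarith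
    have hf : N / 2 ^ (t + d) = R (t + d + 1) := by
      apply floor_Round
      · rw [← ha]
        linarith
      · rw [← ha]
        linarith
    rw [if_neg hph, hf]
    omega

theorem rnd_size {N : ℤ} {T : ℕ} {R ph : ℕ → ℤ} (h : Rnd N T R ph) {t : ℕ} (ht : t ≤ T) :
    |R t| ≤ 2 * |N| + 2 := by
  obtain ⟨h1, h2⟩ := err_Round h ht
  have hp : (1 : ℚ) ≤ 2 ^ t := one_le_pow₀ (by norm_num)
  have hb : |((2 * N + 1 : ℤ) : ℚ) / 2 ^ t| ≤ 2 * |(N : ℚ)| + 1 := by
    rw [abs_div, abs_of_pos (show (0 : ℚ) < 2 ^ t by positivity)]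
    refine (div_le_self (abs_nonneg _) hp).trans ?_
    push_cast
    refine (abs_add_le _ _).trans ?_
    rw [abs_mul]
    norm_num
  rw [abs_le] at hb
  have : ((|R t| : ℤ) : ℚ) ≤ ((2 * |N| + 2 : ℤ) : ℚ) := by
    push_cast
    rw [abs_le]
    push_cast at h1 h2 hb
    constructor <;> linarith [hb.1, hb.2]
  exact_mod_cast this

end Pool.Agent.MP_7d676c_b

end

section

/-! Exponential sums of polynomial-time integer functions: closure properties. -/

namespace Pool.Agent.MP_7d676c_b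

open Finset Pool.Agent.MP_2e8011_lc Pool.Agent.MP_a6d740_lc Pool.Agent.MP_b0ee3d_lc
  Pool.Agent.MP_7d676c_lc

variable {α β : Type} [Enc α] [Enc β]

/-- Exponential sums of polynomial-time integer functions. -/
def GP (f : α → ℤ) : Prop :=
  ∃ (l : α → ℕ) (v : α → ℤ → ℤ), PT l ∧ PT (fun p : α × ℤ => v p.1 p.2) ∧
    ∀ a, f a = ∑ u ∈ range (2 ^ l a), v a (u : ℕ)

theorem GP.congr {f g : α → ℤ} (hf : GP f) (e : ∀ a, f a = g a) : GP g := by
  rwa [← funext e]

theorem GP.pt {f : α → ℤ} (hf : PT f) : GP f :=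
  ⟨fun _ => 0, fun a _ => f a, by fun_prop, by fun_prop, fun a => by simp⟩

theorem GP.pre {f : α → ℤ} (hf : GP f) {g : β → α} (hg : PT g) : GP (fun b => f (g b)) := by
  obtain ⟨l, v, hl, hv, h⟩ := hf
  exact ⟨fun b => l (g b), fun b u => v (g b) u, hl.comp hg,
    hv.comp (f := fun p : β × ℤ => (g p.1, p.2)) (by fun_prop), fun b => h (g b)⟩

theorem GP.ite {p : α → Prop} [DecidablePred p] (hp : PT (fun a => decide (p a))) {f g : α → ℤ}
    (hf : GP f) (hg : GP g) : GP (fun a => if p a then f a else g a) := by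
  obtain ⟨l, v, hl, hv, h⟩ := hf
  obtain ⟨l', v', hl', hv', h'⟩ := hg
  refine ⟨fun a => if p a then l a else l' a, fun a u => if p a then v a u else v' a u,
    PT.ite hp hl hl', PT.ite (hp.comp (f := fun q : α × ℤ => q.1) (by fun_prop)) hv hv',
    fun a => ?_⟩
  by_cases hpa : p a
  · simp only [if_pos hpa, h a]
  · simp only [if_neg hpa, h' a]

theorem GP.mul {f g : α → ℤ} (hf : GP f) (hg : GP g) : GP (fun a => f a * g a) := by
  obtain ⟨l, v, hl, hv, h⟩ := hf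
  obtain ⟨l', v', hl', hv', h'⟩ := hg
  refine ⟨fun a => l a + l' a, fun a u => v a (u % 2 ^ l a) * v' a (u / 2 ^ l a), by fun_prop,
    pt_intMul (hv.comp (f := fun p : α × ℤ => (p.1, p.2 % 2 ^ l p.1)) (by fun_prop))
      (hv'.comp (f := fun p : α × ℤ => (p.1, p.2 / 2 ^ l p.1)) (by fun_prop)), fun a => ?_⟩
  beta_reduce
  rw [h a, h' a, sum_mul_sum, pow_add, ← sum_range_mul (2 ^ l a) (2 ^ l' a)
    (fun y w => v a (y : ℕ) * v' a (w : ℕ))]
  refine sum_congr rfl fun W _ => ?_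
  push_cast
  rfl

theorem pad_GP {l B : ℕ} (h : l ≤ B) (v : ℤ → ℤ) :
    ∑ u ∈ range (2 ^ l), v (u : ℕ) =
      ∑ u ∈ range (2 ^ B), if ((u : ℕ) : ℤ) < 2 ^ l then v (u : ℕ) else 0 := by
  rw [← sum_filter]
  refine sum_congr ?_ fun _ _ => rfl
  ext u
  have h1 : 2 ^ l ≤ 2 ^ B := Nat.pow_le_pow_right two_pos h
  have h2 : ((u : ℕ) : ℤ) < 2 ^ l ↔ u < 2 ^ l := by exact_mod_cast Iff.rfl
  simp only [mem_filter, mem_range, h2]
  omega

theorem bound_GP {l' : α × β → ℕ} (hl' : PT l') {C : α → ℕ} (hC : PT C) :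
    ∃ B : α → ℕ, PT B ∧ ∀ a b, sz b ≤ C a → l' (a, b) ≤ B a := by
  obtain ⟨p, hp⟩ := hl'.pb
  have hs : PT (fun a : α => sz a) := PT.id.sz
  refine ⟨fun a => p.eval (2 * sz a + 1 + C a), by fun_prop, fun a b hb =>
    (hp _).trans (eval_mono p ?_)⟩
  rw [sz_prod]
  omega

theorem sz_lt_GP {w l : ℕ} (h : w < 2 ^ l) : sz ((w : ℕ) : ℤ) ≤ 3 * l + 4 :=
  sz_int_le (by rw [abs_of_nonneg (by positivity)]; exact_mod_cast h.le)

theorem GP.sum {f : α × ℤ → ℤ} (hf : GP f) {l : α → ℕ} (hl : PT l) :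
    GP (fun a => ∑ w ∈ range (2 ^ l a), f (a, (w : ℕ))) := by
  obtain ⟨l', v, hl', hv, h⟩ := hf
  obtain ⟨B, hB, hb⟩ := bound_GP hl' (C := fun a => 3 * l a + 4) (by fun_prop)
  refine ⟨fun a => l a + B a, fun a W => if W / 2 ^ l a < 2 ^ l' (a, W % 2 ^ l a) then
      v (a, W % 2 ^ l a) (W / 2 ^ l a) else 0, by fun_prop, PT.ite (by fun_prop)
    (hv.comp (f := fun p : α × ℤ => ((p.1, p.2 % 2 ^ l p.1), p.2 / 2 ^ l p.1)) (by fun_prop))
      (by fun_prop), fun a => ?_⟩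
  beta_reduce
  rw [sum_congr rfl fun w hw => (h (a, (w : ℕ))).trans
    (pad_GP (hb a _ (sz_lt_GP (mem_range.1 hw))) _), pow_add,
    ← sum_range_mul (2 ^ l a) (2 ^ B a) (fun y w => if ((w : ℕ) : ℤ) < 2 ^ l' (a, (y : ℕ)) then
      v (a, (y : ℕ)) (w : ℕ) else 0)]
  refine sum_congr rfl fun W _ => ?_
  push_cast
  rfl

theorem GP.prod {f : α × ℕ → ℤ} (hf : GP f) {n : α → ℕ} (hn : PT n) :
    GP (fun a => ∏ i ∈ range (n a), f (a, i)) := by
  obtain ⟨l', v, hl', hv, h⟩ := hf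
  obtain ⟨B, hB, hb⟩ := bound_GP hl' hn
  have hv' : PT (fun p : (α × ℤ) × ℕ =>
      if dig (B p.1.1) p.2 p.1.2 < 2 ^ l' (p.1.1, p.2) then
        v (p.1.1, p.2) (dig (B p.1.1) p.2 p.1.2) else 0) :=
    PT.ite (by fun_prop) (hv.comp
      (f := fun p : (α × ℤ) × ℕ => ((p.1.1, p.2), dig (B p.1.1) p.2 p.1.2)) (by fun_prop))
      (by fun_prop)
  refine ⟨fun a => B a * n a, fun a W => ((List.range (n a)).map fun i =>
      if dig (B a) i W < 2 ^ l' (a, i) then v (a, i) (dig (B a) i W) else 0).prod, by fun_prop,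
    pt_listProd (PT.map (f := fun (p : α × ℤ) i =>
      if dig (B p.1) i p.2 < 2 ^ l' (p.1, i) then v (p.1, i) (dig (B p.1) i p.2) else 0) hv'
      (by fun_prop)), fun a => ?_⟩
  beta_reduce
  simp only [list_range_Sums]
  rw [sum_dig (B a) (n a) fun i y => if y < 2 ^ l' (a, i) then v (a, i) y else 0]
  refine prod_congr rfl fun i hi => (h (a, i)).trans (pad_GP (hb a i ?_) _)
  rw [sz_nat]
  exact (mem_range.1 hi).le

theorem GP.add {f g : α → ℤ} (hf : GP f) (hg : GP g) : GP (fun a => f a + g a) :=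
  ((GP.ite (p := fun p : α × ℤ => p.2 = 0) (by fun_prop) (hf.pre (g := fun p => p.1) (by fun_prop))
    (hg.pre (g := fun p => p.1) (by fun_prop))).sum (l := fun _ => 1) (by fun_prop)).congr
    fun a => by simp [sum_range_succ]

theorem GP.sub {f g : α → ℤ} (hf : GP f) (hg : GP g) : GP (fun a => f a - g a) :=
  (hf.add ((GP.pt (PT.const (-1))).mul hg)).congr fun a => by ring

theorem GP.pow {f : α → ℤ} (hf : GP f) {n : α → ℕ} (hn : PT n) : GP (fun a => f a ^ n a) :=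
  ((hf.pre (g := fun p : α × ℕ => p.1) (by fun_prop)).prod hn).congr fun a => by simp

/-- weighted sums over paths -/
def recSum {σ : Type} (c : σ → ℤ → ℤ) (nx : σ → ℤ → σ) (g : σ → ℤ) (l : ℕ) : ℕ → σ → ℤ
  | 0, s => g s
  | k + 1, s => ∑ w ∈ range (2 ^ l), c s (w : ℕ) * recSum c nx g l k (nx s (w : ℕ))

/-- the state after reading `i` digits -/
def stAt {σ : Type} (nx : σ → ℤ → σ) (l i : ℕ) (W : ℤ) (s : σ) : σ :=
  ((List.range i).map fun j => dig l j W).foldl nx s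

theorem recSum_eq {σ : Type} (c : σ → ℤ → ℤ) (nx : σ → ℤ → σ) (g : σ → ℤ) (l k : ℕ) (s : σ) :
    recSum c nx g l k s = ∑ W ∈ range (2 ^ (l * k)),
      (∏ i ∈ range k, c (stAt nx l i (W : ℕ) s) (dig l i (W : ℕ))) * g (stAt nx l k (W : ℕ) s) := by
  induction k generalizing s with
  | zero => simp [recSum, stAt]
  | succ k ih =>
    have e : ∀ (i W : ℕ), stAt nx l (i + 1) (W : ℕ) s =
        stAt nx l i ((W / 2 ^ l : ℕ) : ℤ) (nx s ((W % 2 ^ l : ℕ) : ℤ)) := by
      intro i W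
      rw [stAt, stAt, List.range_succ_eq_map, List.map_cons, List.foldl_cons, dig_zero_Sums,
        List.map_map]
      congr 1
      refine List.map_congr_left fun j _ => ?_
      exact dig_succ_Sums l j W
    rw [recSum, Nat.mul_succ, add_comm (l * k), pow_add]
    simp only [ih, mul_sum]
    rw [← sum_range_mul (2 ^ l) (2 ^ (l * k)) fun y w => c s (y : ℕ) *
      ((∏ i ∈ range k, c (stAt nx l i (w : ℕ) (nx s (y : ℕ))) (dig l i (w : ℕ))) *
        g (stAt nx l k (w : ℕ) (nx s (y : ℕ))))]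
    refine sum_congr rfl fun W _ => ?_
    rw [prod_range_succ', dig_zero_Sums]
    simp only [e, dig_succ_Sums]
    rw [show stAt nx l 0 (W : ℕ) s = s from rfl]
    ring

theorem GP.recSum {σ : Type} [Enc σ] {c : α → σ → ℤ → ℤ}
    (hc : GP (fun p : α × σ × ℤ => c p.1 p.2.1 p.2.2)) {nx : α → σ → ℤ → σ}
    (hnx : PT (fun p : α × σ × ℤ => nx p.1 p.2.1 p.2.2)) {g : α → σ → ℤ}
    (hg : GP (fun p : α × σ => g p.1 p.2)) {l n : α → ℕ} (hl : PT l) (hn : PT n) {s : α → σ}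
    (hs : PT s) {B : α → ℕ} (hB : PT B) (hb : ∀ a t w, sz (nx a t w) ≤ B a) :
    GP (fun a => recSum (c a) (nx a) (g a) (l a) (n a) (s a)) := by
  have hst : PT (fun p : (α × ℤ) × ℕ => stAt (nx p.1.1) (l p.1.1) p.2 p.1.2 (s p.1.1)) := by
    unfold stAt
    refine PT.foldl (f := fun p : (α × ℤ) × ℕ => nx p.1.1)
      (hnx.comp (f := fun q : ((α × ℤ) × ℕ) × σ × ℤ => (q.1.1.1, q.2)) (by fun_prop))
      (by fun_prop) (by fun_prop) (B := fun p => sz (s p.1.1) + B p.1.1)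
      (PT.pb (by fun_prop)) fun p k => ?_
    generalize List.take k _ = m
    induction m using List.reverseRecOn with
    | nil => simp
    | append_singleton m x _ =>
      rw [List.foldl_append, List.foldl_cons, List.foldl_nil]
      exact (hb _ _ _).trans (Nat.le_add_left _ _)
  have h0 : PT (fun p : (α × ℤ) × ℕ =>
      (p.1.1, stAt (nx p.1.1) (l p.1.1) p.2 p.1.2 (s p.1.1), dig (l p.1.1) p.2 p.1.2)) :=
    PT.prodMk (by fun_prop) (PT.prodMk hst (by fun_prop))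
  have h1 : GP (fun p : α × ℤ => ∏ i ∈ range (n p.1),
      c p.1 (stAt (nx p.1) (l p.1) i p.2 (s p.1)) (dig (l p.1) i p.2)) :=
    (hc.pre h0).prod (n := fun p => n p.1) (by fun_prop)
  have h3 : PT (fun p : α × ℤ => (p.1, stAt (nx p.1) (l p.1) (n p.1) p.2 (s p.1))) :=
    PT.prodMk (by fun_prop) (hst.comp (f := fun p : α × ℤ => (p, n p.1)) (by fun_prop))
  have h2 : GP (fun p : α × ℤ => g p.1 (stAt (nx p.1) (l p.1) (n p.1) p.2 (s p.1))) := hg.pre h3
  refine ((h1.mul h2).sum (l := fun a => l a * n a) (by fun_prop)).congr fun a => ?_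
  rw [recSum_eq]

theorem GP.frac {f d : α × ℤ → ℤ} (hf : GP f) (hd : PT d) {l : α → ℕ} (hl : PT l) :
    ∃ (G : α → ℤ) (s : α → ℕ), GP G ∧ PT s ∧ ∀ a, (∀ w < 2 ^ l a, 0 < d (a, (w : ℕ))) →
      |(G a : ℚ) / 2 ^ s a - ∑ w ∈ range (2 ^ l a), (f (a, (w : ℕ)) : ℚ) / d (a, (w : ℕ))| ≤
        1 / 64 := by
  obtain ⟨l', v, hl', hv, h⟩ := hf
  obtain ⟨B, hB, hb⟩ := bound_GP hl' (C := fun a => 3 * l a + 4) (by fun_prop)
  have h1 : GP (fun p : α × ℤ => ∑ u ∈ range (2 ^ l' p),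
      2 ^ (l p.1 + B p.1 + 6) * v p (u : ℕ) / d p) :=
    ⟨l', fun p u => 2 ^ (l p.1 + B p.1 + 6) * v p u / d p, hl',
      pt_ediv (pt_intMul (by fun_prop) hv) (by fun_prop), fun _ => rfl⟩
  refine ⟨_, fun a => l a + B a + 6, h1.sum hl, by fun_prop, fun a ha => ?_⟩
  beta_reduce
  have hS : (0 : ℚ) < 2 ^ (l a + B a + 6) := by positivity
  push_cast
  rw [sum_div, ← sum_sub_distrib]
  refine (abs_sum_le_sum_abs _ _).trans ((sum_le_card_nsmul _ _
    ((2 : ℚ) ^ B a / 2 ^ (l a + B a + 6)) fun w hw => ?_).trans (le_of_eq ?_))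
  · have hw' := mem_range.1 hw
    have hd0 := ha w hw'
    have hd1 : (0 : ℚ) < d (a, (w : ℕ)) := by exact_mod_cast hd0
    rw [h (a, (w : ℕ)), Int.cast_sum, sum_div, sum_div, ← sum_sub_distrib]
    refine (abs_sum_le_sum_abs _ _).trans ((sum_le_card_nsmul _ _
      (1 / 2 ^ (l a + B a + 6)) fun u _ => ?_).trans ?_)
    · generalize v (a, (w : ℕ)) (u : ℕ) = x
      generalize d (a, (w : ℕ)) = m at hd0 hd1
      have e1 := Int.mul_ediv_add_emod (2 ^ (l a + B a + 6) * x) m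
      have e2 := Int.emod_nonneg (2 ^ (l a + B a + 6) * x) hd0.ne'
      have e3 := Int.emod_lt_of_pos (2 ^ (l a + B a + 6) * x) hd0
      generalize 2 ^ (l a + B a + 6) * x / m = y at e1 ⊢
      generalize 2 ^ (l a + B a + 6) * x % m = r at e1 e2 e3
      have e4 : (m : ℚ) * y + r = 2 ^ (l a + B a + 6) * x := by exact_mod_cast e1
      have e5 : (0 : ℚ) ≤ r := by exact_mod_cast e2
      have e6 : (r : ℚ) < m := by exact_mod_cast e3
      have e7 : (y : ℚ) / 2 ^ (l a + B a + 6) - x / m = -(r / m) / 2 ^ (l a + B a + 6) := by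
        field_simp
        linear_combination e4
      rw [e7, abs_div, abs_neg, abs_of_pos hS, abs_of_nonneg (by positivity)]
      exact div_le_div_of_nonneg_right ((div_le_one hd1).2 e6.le) hS.le
    · rw [card_range, nsmul_eq_mul, mul_one_div]
      refine div_le_div_of_nonneg_right ?_ hS.le
      push_cast
      exact pow_le_pow_right₀ (by norm_num) (hb a _ (sz_lt_GP hw'))
  · rw [card_range, nsmul_eq_mul, pow_add, pow_add]
    push_cast
    field_simp
    norm_num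

theorem GP.oc (hd : Dec α) {f : α → ℤ} (hf : GP f) : ∃ A ∈ PP, OC A f := by
  obtain ⟨l, v, hl, hv, h⟩ := hf
  let w : ℕ × α → ℤ → ℤ := fun p u =>
    if p.1 = 0 then (if 0 < v p.2 u then v p.2 u else 0) else (if 0 < v p.2 u then 0 else -v p.2 u)
  have hv' : PT (fun q : (ℕ × α) × ℤ => v q.1.2 q.2) :=
    hv.comp (f := fun q : (ℕ × α) × ℤ => (q.1.2, q.2)) (by fun_prop)
  have h1 : SP (fun p : ℕ × α => ∑ u ∈ range (2 ^ l p.2), w p (u : ℕ)) := by
    refine ⟨fun p => l p.2, w, by fun_prop, ?_, fun p u => ?_, fun _ => rfl⟩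
    · simp only [w]
      exact PT.ite (by fun_prop) (PT.ite (pt_intLt (PT.const 0) hv') hv' (PT.const 0))
        (PT.ite (pt_intLt (PT.const 0) hv') (PT.const 0) (pt_intNeg hv'))
    · simp only [w]
      split_ifs <;> omega
  obtain ⟨A, hA, ho⟩ := h1.oc (dec_prod dec_nat hd)
  refine ⟨A, hA, (((ho.pre (g := fun a => (0, a)) (by fun_prop)).pair
    (ho.pre (g := fun a => (1, a)) (by fun_prop))).post (v := fun z => z.2.1 - z.2.2)
    (by fun_prop)).congr fun a => ?_⟩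
  rw [h a, ← sum_sub_distrib]
  refine sum_congr rfl fun u _ => ?_
  simp only [w, if_true, one_ne_zero, if_false]
  split_ifs <;> omega

@[fun_prop] theorem pt_intPow {f : α → ℤ} {n : α → ℕ} (hf : PT f) (hn : PT n) :
    PT (fun a => f a ^ n a) :=
  (pt_listProd (pt_replicate hn hf)).congr fun a => by simp

@[fun_prop] theorem pt_listSum {l : α → List ℤ} (hl : PT l) : PT (fun a => (l a).sum) := by
  have key : ∀ m : List ℤ, |m.sum| ≤ 2 ^ sz m := by
    intro m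
    induction m with
    | nil => simp
    | cons z m ih =>
      rw [List.sum_cons, sz_cons]
      have h1 : |z| ≤ 2 ^ (2 * sz z + sz m) :=
        (abs_lt_sz z).le.trans (pow_le_pow_right₀ (by norm_num) (by omega))
      have h2 : |m.sum| ≤ 2 ^ (2 * sz z + sz m) :=
        ih.trans (pow_le_pow_right₀ (by norm_num) (by omega))
      have h3 := abs_add_le z m.sum
      rw [show 2 * sz z + 1 + sz m = 2 * sz z + sz m + 1 by omega, pow_succ]
      omega
  exact pt_foldr (f := fun _ (x y : ℤ) => x + y) (by fun_prop) hl (PT.const 0)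
    (B := fun a => 3 * sz (l a) + 4) (((PB.const 3).mul hl.pb_sz).add (PB.const 4)) fun a k =>
      sz_int_le ((key _).trans (pow_le_pow_right₀ (by norm_num) (sz_drop_le _ _)))

/-- binary to unary, capped -/
def un (c : ℕ) (x : ℤ) : ℕ := min x.toNat c

@[fun_prop] theorem pt_un {c : α → ℕ} {x : α → ℤ} (hc : PT c) (hx : PT x) :
    PT (fun a => un (c a) (x a)) :=
  pt_cap (pt_pos hx) hc

end Pool.Agent.MP_7d676c_b

end

section

/-! Binomial coefficients modulo an arbitrary number are exponential sums. -/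

namespace Pool.Agent.MP_7d676c_b

open Finset Pool.Agent.MP_2e8011_lc Pool.Agent.MP_a6d740_lc Pool.Agent.MP_b0ee3d_lc
  Pool.Agent.MP_7d676c_lc

/-- binomial coefficient with a small lower index -/
def bc (z : ℤ) (r : ℕ) : ℤ :=
  ((List.range r).map fun i : ℕ => z - i).prod / ((List.range r).map fun i : ℕ => (i : ℤ) + 1).prod

/-- the coefficients of the recursion -/
def gamZ (E : ℕ) (z : ℤ) (a : ℕ) : ℤ :=
  ((List.range E).map fun r : ℕ => (if (r + a) % 2 = 0 then 1 else -1) * bc z r * bc r a).sum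

/-- summand for the binomial coefficients below the prime -/
def baseT (L : ℕ) (p c v y : ℤ) : ℤ :=
  if 1 ≤ y ∧ y < p then powMod (p ^ L) (1 + powMod (p ^ L) y (p ^ L)) c *
    powMod (p ^ L) (powMod (p ^ L) y (p ^ L)) (p - 1 - v) else 0

/-- binomial coefficients below the prime -/
def base (L : ℕ) (p c v : ℤ) : ℤ :=
  if c < v then 0 else if c ≤ 1 then 1 else
    (∑ y ∈ range (2 ^ L), baseT L p c v (y : ℕ)) * -((List.range L).map fun i => p ^ i).sum

/-- the part of the exponent that is treated in one step -/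
def chunk (p z : ℤ) : ℤ :=
  if z ≤ (if p ≤ 3 then 1 else p - 2) then z else if p ≤ 3 then 1 else p - 2

/-- weights of the inner recursion -/
def inC (L : ℕ) (p : ℤ) (s : ℤ × ℤ) (w : ℤ) : ℤ :=
  if w ≤ s.2 then base L p (chunk p s.1) w else 0

/-- transitions of the inner recursion -/
def inN (L : ℕ) (p : ℤ) (s : ℤ × ℤ) (w : ℤ) : ℤ × ℤ :=
  ((s.1 - chunk p s.1) % 2 ^ (2 * L), (s.2 - w) % 2 ^ (2 * L))

/-- final weights -/
def fin0 (s : ℤ × ℤ) : ℤ := if s.2 = 0 then 1 else 0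

/-- binomial coefficients with upper index below `p * L` -/
def innB (L : ℕ) (p z j : ℤ) : ℤ := recSum (inC L p) (inN L p) fin0 L (3 * L) (z, j)

/-- weights of the outer recursion -/
def outC (L : ℕ) (p : ℤ) (s : ℤ × ℤ) (w : ℤ) : ℤ :=
  if w % 2 ^ L < L ∧ w % 2 ^ L ≤ s.1 / p ∧ p * (w / 2 ^ L) ≤ s.2 then
    gamZ L (s.1 / p) (un L (w % 2 ^ L)) *
      innB L p (s.1 % p + p * (w % 2 ^ L)) (s.2 - p * (w / 2 ^ L))
  else 0

/-- transitions of the outer recursion -/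
def outN (L : ℕ) (p : ℤ) (s : ℤ × ℤ) (w : ℤ) : ℤ × ℤ :=
  ((s.1 / p - w % 2 ^ L) % 2 ^ L, w / 2 ^ L % 2 ^ L)

/-- binomial coefficients modulo `p ^ L` -/
def outB (L : ℕ) (p n j : ℤ) : ℤ := recSum (outC L p) (outN L p) fin0 (L + L) L (n, j)

/-- binomial coefficients modulo `d` -/
def bin (L : ℕ) (n j d : ℤ) : ℤ :=
  ∑ m ∈ range (2 ^ L), if (2 : ℤ) ≤ (m : ℕ) then
    ind L (m : ℕ) * powMod d (cof L (m : ℕ) d) (((m : ℕ) : ℤ) ^ L * ((m : ℕ) - 1)) *
      outB L (m : ℕ) n j else 0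

theorem bc_eq (z r : ℕ) : bc z r = z.choose r := by
  have h1 : ∀ r : ℕ, ((List.range r).map fun i : ℕ => (z : ℤ) - i).prod = z.descFactorial r := by
    intro r
    induction r with
    | zero => simp
    | succ r ih =>
      rw [List.prod_range_succ, ih, Nat.descFactorial_succ]
      by_cases h : r ≤ z
      · push_cast [h]
        ring
      · rw [Nat.descFactorial_of_lt (by omega)]
        simp
  have h2 : ∀ r : ℕ, ((List.range r).map fun i : ℕ => (i : ℤ) + 1).prod = r.factorial := by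
    intro r
    induction r with
    | zero => simp
    | succ r ih =>
      rw [List.prod_range_succ, ih, Nat.factorial_succ]
      push_cast
      ring
  rw [bc, h1, h2, Nat.descFactorial_eq_factorial_mul_choose]
  push_cast
  exact Int.mul_ediv_cancel_left _ (by exact_mod_cast r.factorial_ne_zero)

theorem gamZ_eq (E z a : ℕ) : gamZ E z a = gam E z a := by
  rw [gamZ, gam]
  induction E with
  | zero => simp
  | succ E ih =>
    rw [List.sum_range_succ, sum_range_succ, ih, bc_eq, bc_eq]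
    congr 3
    split_ifs with h
    · rw [Even.neg_one_pow (Nat.even_iff.2 h)]
    · rw [Odd.neg_one_pow (Nat.odd_iff.2 (by omega))]

theorem base_eq (L p c v : ℕ) (hp : p.Prime) (hL : p < 2 ^ L) (hc : c ≤ 1 ∨ c + 2 ≤ p) :
    ((base L p c v : ℤ) : ZMod (p ^ L)) = c.choose v := by
  rw [base]
  split_ifs with h1 h2
  · rw [Nat.choose_eq_zero_of_lt (by omega)]
    simp
  · have h3 : c.choose v = 1 := by
      have h4 : v ≤ c := by omega
      have h5 : c ≤ 1 := by omega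
      interval_cases c <;> interval_cases v <;> rfl
    rw [h3]
    simp
  · have hpos : 0 < p ^ L := pow_pos hp.pos L
    have e1 : ((∑ y ∈ range (2 ^ L), baseT L p c v (y : ℕ) : ℤ) : ZMod (p ^ L)) =
        ((p : ZMod (p ^ L)) - 1) * (c.choose v : ZMod (p ^ L)) := by
      rw [← teich_choose p L c v hp (by omega) (by omega), Int.cast_sum]
      symm
      refine sum_subset_zero_on_sdiff (fun y hy => ?_) (fun y hy => ?_) fun y hy => ?_
      · have := mem_Ico.1 hy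
        exact mem_range.2 (by omega)
      · have h4 := (mem_sdiff.1 hy).2
        rw [mem_Ico] at h4
        rw [baseT, if_neg (by omega), Int.cast_zero]
      · have h4 := mem_Ico.1 hy
        have e : (p : ℤ) - 1 - v = ((p - 1 - v : ℕ) : ℤ) := by omega
        have e' : (p : ℤ) ^ L = ((p ^ L : ℕ) : ℤ) := by push_cast; rfl
        rw [baseT, if_pos (by omega), e, e', Int.cast_mul, cast_powMod hpos,
          cast_powMod hpos, Int.cast_add, cast_powMod hpos]
        simp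
    have e2 : ∀ k : ℕ, ((((List.range k).map fun i => (p : ℤ) ^ i).sum : ℤ) : ZMod (p ^ L)) *
        ((p : ZMod (p ^ L)) - 1) = (p : ZMod (p ^ L)) ^ k - 1 := by
      intro k
      induction k with
      | zero => simp
      | succ k ih =>
        rw [List.sum_range_succ, Int.cast_add, add_mul, ih]
        push_cast
        ring
    have e3 := e2 L
    rw [← Nat.cast_pow, ZMod.natCast_self] at e3
    rw [Int.cast_mul, e1, Int.cast_neg]
    linear_combination (-(c.choose v : ZMod (p ^ L))) * e3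

theorem sum_range_zero {M : Type*} [AddCommMonoid M] (f : ℕ → M) {A B : ℕ}
    (hA : ∀ w, A ≤ w → f w = 0) (hB : ∀ w, B ≤ w → f w = 0) :
    ∑ w ∈ range A, f w = ∑ w ∈ range B, f w := by
  rcases le_total A B with h | h
  · exact sum_subset (range_subset_range.2 h) fun w _ hw => hA w (by simpa using hw)
  · exact (sum_subset (range_subset_range.2 h) fun w _ hw => hB w (by simpa using hw)).symm

theorem fin0_eq (R : Type*) [Ring R] (j : ℕ) :
    ((fin0 (((0 : ℕ) : ℤ), (j : ℤ)) : ℤ) : R) = (Nat.choose 0 j : ℕ) := by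
  rw [fin0]
  rcases j with _ | j
  · simp
  · rw [if_neg (by simp only; omega)]
    simp

theorem inn_rec (L p : ℕ) (hp : p.Prime) (hL : p < 2 ^ L) (k z j : ℕ) (hz : z < 2 ^ (2 * L))
    (hj : j < 2 ^ (2 * L)) (hk : z ≤ k * max 1 (p - 2)) :
    ((recSum (inC L p) (inN L p) fin0 L k ((z : ℤ), (j : ℤ)) : ℤ) : ZMod (p ^ L)) = z.choose j := by
  induction k generalizing z j with
  | zero =>
    obtain rfl : z = 0 := by omega
    exact fin0_eq _ j
  | succ k ih =>
    have h2 := hp.two_le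
    obtain ⟨c, hc, hc1, hc2, hc3⟩ : ∃ c : ℕ, chunk p z = c ∧ c ≤ z ∧ (c ≤ 1 ∨ c + 2 ≤ p) ∧
        z - c ≤ k * max 1 (p - 2) := by
      refine ⟨min z (max 1 (p - 2)), ?_, by omega, by omega, ?_⟩
      · rw [chunk]
        split_ifs <;> omega
      · rw [Nat.succ_mul] at hk
        omega
    have hB : ((2 ^ (2 * L) : ℕ) : ℤ) = 2 ^ (2 * L) := by push_cast; rfl
    have e : ∀ w : ℕ, ((inC L p ((z : ℤ), (j : ℤ)) w *
        recSum (inC L p) (inN L p) fin0 L k (inN L p ((z : ℤ), (j : ℤ)) w) : ℤ) : ZMod (p ^ L)) =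
        if w ≤ j then ((c.choose w * (z - c).choose (j - w) : ℕ) : ZMod (p ^ L)) else 0 := by
      intro w
      rw [inC]
      by_cases hw : w ≤ j
      · have e1 : inN L p ((z : ℤ), (j : ℤ)) w = (((z - c : ℕ) : ℤ), ((j - w : ℕ) : ℤ)) := by
          rw [inN, hc, Int.emod_eq_of_lt (by simp only; omega) (by simp only; omega),
            Int.emod_eq_of_lt (by simp only; omega) (by simp only; omega)]
          simp only [Prod.mk.injEq]
          omega
        rw [if_pos (by simp only; omega), if_pos hw, e1, Int.cast_mul,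
          ih _ _ (by omega) (by omega) hc3, hc, base_eq L p c w hp hL hc2, Nat.cast_mul]
      · rw [if_neg (by simp only; omega), if_neg hw, zero_mul, Int.cast_zero]
    rw [recSum, Int.cast_sum]
    simp only [e]
    rw [sum_range_zero _ (B := j + 1) (fun w hw => ?_) fun w hw => if_neg (by omega)]
    · conv_rhs => rw [show z = c + (z - c) by omega, Nat.add_choose_eq,
        Nat.sum_antidiagonal_eq_sum_range_succ_mk, Nat.cast_sum]
      exact sum_congr rfl fun w hw => if_pos (by have := mem_range.1 hw; omega)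
    · rw [Nat.choose_eq_zero_of_lt (by omega)]
      simp

theorem inn_eq (L p : ℕ) (hp : p.Prime) (hL : p < 2 ^ L) (z j : ℕ) (hz : z < p * L)
    (hj : j < 2 ^ (2 * L)) : ((innB L p z j : ℤ) : ZMod (p ^ L)) = z.choose j := by
  have h1 : L < 2 ^ L := Nat.lt_two_pow_self
  refine inn_rec L p hp hL _ z j (hz.trans_le ?_) hj (hz.le.trans ?_)
  · rw [two_mul, pow_add]
    exact Nat.mul_le_mul hL.le h1.le
  · calc p * L ≤ 3 * max 1 (p - 2) * L := Nat.mul_le_mul_right _ (by omega)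
      _ = _ := by ring

theorem out_rec (L p : ℕ) (hp : p.Prime) (hL : p < 2 ^ L) (k z j : ℕ) (hz : z < 2 ^ L)
    (hj : j < 2 ^ L) (hk : z < 2 ^ k) :
    ((recSum (outC L p) (outN L p) fin0 (L + L) k ((z : ℤ), (j : ℤ)) : ℤ) : ZMod (p ^ L)) =
      z.choose j := by
  induction k generalizing z j with
  | zero =>
    obtain rfl : z = 0 := by omega
    exact fin0_eq _ j
  | succ k ih =>
    have h2 := hp.two_le
    have h1 : L < 2 ^ L := Nat.lt_two_pow_self
    have hB : ((2 ^ L : ℕ) : ℤ) = 2 ^ L := by push_cast; rfl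
    have hLL : 2 ^ L ≤ 2 ^ (2 * L) := Nat.pow_le_pow_right two_pos (by omega)
    obtain ⟨z1, hz1⟩ : ∃ z1, z1 = z / p := ⟨_, rfl⟩
    obtain ⟨z0, hz0⟩ : ∃ z0, z0 = z % p := ⟨_, rfl⟩
    have a1 : z = z0 + p * z1 := by rw [hz0, hz1, Nat.mod_add_div]
    have a2 : z0 < p := hz0 ▸ Nat.mod_lt _ hp.pos
    have a3 : 2 * z1 ≤ p * z1 := Nat.mul_le_mul_right _ h2
    have a4 : (z : ℤ) / p = z1 := by rw [hz1]; push_cast; rfl
    have a5 : (z : ℤ) % p = z0 := by rw [hz0]; push_cast; rfl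
    rw [pow_succ] at hk
    have e : ∀ W : ℕ, W < 2 ^ L * 2 ^ L → ((outC L p ((z : ℤ), (j : ℤ)) W *
        recSum (outC L p) (outN L p) fin0 (L + L) k (outN L p ((z : ℤ), (j : ℤ)) W) : ℤ) :
          ZMod (p ^ L)) = (fun a i : ℕ => if a < L ∧ a ≤ z1 ∧ p * i ≤ j then
            (gam L z1 a : ZMod (p ^ L)) * ((z0 + p * a).choose (j - p * i) : ZMod (p ^ L)) *
              ((z1 - a).choose i : ZMod (p ^ L)) else 0) (W % 2 ^ L) (W / 2 ^ L) := by
      intro W hW
      have b1 : (W : ℤ) % 2 ^ L = ((W % 2 ^ L : ℕ) : ℤ) := by push_cast; rfl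
      have b2 : (W : ℤ) / 2 ^ L = ((W / 2 ^ L : ℕ) : ℤ) := by push_cast; rfl
      have b3 : W / 2 ^ L < 2 ^ L := Nat.div_lt_of_lt_mul hW
      rw [outC, outN]
      simp only [a4, a5, b1, b2]
      generalize W % 2 ^ L = a
      generalize W / 2 ^ L = i at b3
      have b4 : (p : ℤ) * i = ((p * i : ℕ) : ℤ) := by push_cast; rfl
      have b5 : (p : ℤ) * a = ((p * a : ℕ) : ℤ) := by push_cast; rfl
      rw [b4, b5]
      by_cases hw : a < L ∧ a ≤ z1 ∧ p * i ≤ j
      · have b6 : un L (a : ℤ) = a := by rw [un, Int.toNat_natCast]; omega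
        have b7 : z0 + p * a < p * L := by
          have := Nat.mul_le_mul_left p (show a + 1 ≤ L by omega)
          rw [mul_add] at this
          omega
        rw [if_pos (by omega), if_pos hw, b6, gamZ_eq,
          Int.emod_eq_of_lt (a := (z1 : ℤ) - a) (by omega) (by omega),
          Int.emod_eq_of_lt (a := (i : ℤ)) (by omega) (by omega),
          ← Nat.cast_sub hw.2.1, ← Nat.cast_sub hw.2.2, ← Nat.cast_add, Int.cast_mul, Int.cast_mul,
          ih _ _ (by omega) b3 (by omega), inn_eq L p hp hL _ _ b7 (by omega)]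
      · rw [if_neg (by omega), if_neg hw, zero_mul, Int.cast_zero]
    rw [recSum, Int.cast_sum, pow_add, sum_congr rfl fun W hW => e W (mem_range.1 hW),
      sum_range_mul (2 ^ L) (2 ^ L) fun a i : ℕ => if a < L ∧ a ≤ z1 ∧ p * i ≤ j then
        (gam L z1 a : ZMod (p ^ L)) * ((z0 + p * a).choose (j - p * i) : ZMod (p ^ L)) *
          ((z1 - a).choose i : ZMod (p ^ L)) else 0]
    conv_rhs => rw [a1, level_choose p L z0 z1 j hp]
    rw [sum_range_zero _ (B := L) (fun a ha => sum_eq_zero fun i _ => if_neg (by omega))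
      fun a ha => sum_eq_zero fun i _ => if_neg (by omega)]
    refine sum_congr rfl fun a ha => ?_
    have ha' := mem_range.1 ha
    have c1 : ∀ i, i ≤ p * i := fun i => Nat.le_mul_of_pos_left i hp.pos
    rw [sum_range_zero _ (B := j + 1) (fun i hi => if_neg (by have := c1 i; omega))
      fun i hi => if_neg (by have := c1 i; omega)]
    exact sum_congr rfl fun i _ => if_congr (by omega) rfl rfl

theorem bin_modEq (L n j d : ℕ) (hn : n < 2 ^ L) (hj : j < 2 ^ L) (hd : 0 < d) (hL : d < 2 ^ L) :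
    bin L n j d ≡ n.choose j [ZMOD d] := by
  have := crt_sum L d hd hL (n.choose j) (fun m => ind L m) (fun m => outB L m n j)
    (ind_of_prime L) (ind_of_not_prime L) fun p hp hpL => by
      rw [← Nat.cast_pow, ← ZMod.intCast_eq_intCast_iff, outB, out_rec L p hp hpL L n j hn hj hn,
        Int.cast_natCast]
  rw [bin]
  refine Int.ModEq.trans (Eq.subst (motive := fun x => _ ≡ x [ZMOD d]) ?_ (Int.ModEq.refl _)) this
  exact sum_congr rfl fun m _ => if_congr (by omega) rfl rfl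

section

variable {α : Type} [Enc α]

@[fun_prop] theorem pt_bc {z : α → ℤ} {r : α → ℕ} (hz : PT z) (hr : PT r) :
    PT (fun x => bc (z x) (r x)) := by
  unfold bc
  fun_prop

@[fun_prop] theorem pt_gamZ {E a : α → ℕ} {z : α → ℤ} (hE : PT E) (hz : PT z) (ha : PT a) :
    PT (fun x => gamZ (E x) (z x) (a x)) := by
  unfold gamZ
  fun_prop

@[fun_prop] theorem pt_baseT {L : α → ℕ} {p c v y : α → ℤ} (hL : PT L) (hp : PT p) (hc : PT c)
    (hv : PT v) (hy : PT y) : PT (fun x => baseT (L x) (p x) (c x) (v x) (y x)) := by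
  unfold baseT
  fun_prop

@[fun_prop] theorem pt_chunk {p z : α → ℤ} (hp : PT p) (hz : PT z) :
    PT (fun x => chunk (p x) (z x)) := by
  unfold chunk
  fun_prop

@[fun_prop] theorem pt_cof {L : α → ℕ} {m d : α → ℤ} (hL : PT L) (hm : PT m) (hd : PT d) :
    PT (fun x => cof (L x) (m x) (d x)) := by
  unfold cof
  refine PT.iterP (g := fun x c => if c % m x = 0 then c / m x else c) (by fun_prop) hL hd
    (B := fun x => 3 * sz (d x) + 4) (PT.pb (by fun_prop)) fun x i _ =>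
      sz_int_le (le_trans ?_ (abs_lt_sz _).le)
  induction i with
  | zero => exact le_rfl
  | succ i ih =>
    rw [Function.iterate_succ_apply']
    have := ih (by omega)
    split_ifs
    · exact (Int.abs_ediv_le_abs _ _).trans this
    · exact this

theorem gp_base {L : α → ℕ} {p c v : α → ℤ} (hL : PT L) (hp : PT p) (hc : PT c) (hv : PT v) :
    GP (fun x => base (L x) (p x) (c x) (v x)) := by
  unfold base
  refine GP.ite (by fun_prop) (GP.pt (by fun_prop)) (GP.ite (by fun_prop) (GP.pt (by fun_prop))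
    (GP.mul ?_ (GP.pt (by fun_prop))))
  exact GP.sum (f := fun y : α × ℤ => baseT (L y.1) (p y.1) (c y.1) (v y.1) y.2)
    (GP.pt (by fun_prop)) hL

theorem sz_pair_Bin (k : ℕ) (x y : ℤ) : sz (x % 2 ^ k, y % 2 ^ k) ≤ 9 * k + 13 := by
  have h : ∀ u : ℤ, sz (u % 2 ^ k) ≤ 3 * k + 4 := fun u => sz_int_le (by
    rw [abs_of_nonneg (Int.emod_nonneg _ (by positivity))]
    exact (Int.emod_lt_of_pos _ (by positivity)).le)
  have h1 := h x
  have h2 := h y
  rw [sz_prod]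
  omega

theorem gp_fin0 : GP (fun x : α × ℤ × ℤ => fin0 x.2) := by
  unfold fin0
  exact GP.pt (by fun_prop)

theorem gp_innB {L : α → ℕ} {p z j : α → ℤ} (hL : PT L) (hp : PT p) (hz : PT z) (hj : PT j) :
    GP (fun x => innB (L x) (p x) (z x) (j x)) := by
  unfold innB
  refine GP.recSum (c := fun x => inC (L x) (p x)) ?_ (nx := fun x => inN (L x) (p x)) ?_
    (g := fun _ => fin0) gp_fin0 hL (by fun_prop) (by fun_prop)
    (B := fun x => 9 * (2 * L x) + 13) (by fun_prop) fun _ _ _ => sz_pair_Bin _ _ _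
  · unfold inC
    exact GP.ite (by fun_prop) (gp_base (by fun_prop) (by fun_prop) (by fun_prop) (by fun_prop))
      (GP.pt (by fun_prop))
  · unfold inN
    fun_prop

theorem gp_outB {L : α → ℕ} {p z j : α → ℤ} (hL : PT L) (hp : PT p) (hz : PT z) (hj : PT j) :
    GP (fun x => outB (L x) (p x) (z x) (j x)) := by
  unfold outB
  refine GP.recSum (c := fun x => outC (L x) (p x)) ?_ (nx := fun x => outN (L x) (p x)) ?_
    (g := fun _ => fin0) gp_fin0 (by fun_prop) hL (by fun_prop)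
    (B := fun x => 9 * L x + 13) (by fun_prop) fun _ _ _ => sz_pair_Bin _ _ _
  · unfold outC
    exact GP.ite (by fun_prop) ((GP.pt (by fun_prop)).mul
      (gp_innB (by fun_prop) (by fun_prop) (by fun_prop) (by fun_prop))) (GP.pt (by fun_prop))
  · unfold outN
    fun_prop

theorem gp_FS {L : α → ℕ} {m : α → ℤ} {s : α → Spec} (hL : PT L) (hm : PT m) (hs : PT s) :
    GP (fun x => FS (L x) (m x) (s x)) :=
  GP.sum (f := fun y : α × ℤ => fac (m y.1) (s y.1) y.2) (GP.pt (by fun_prop)) hL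

theorem gp_ind {L : α → ℕ} {m : α → ℤ} (hL : PT L) (hm : PT m) :
    GP (fun x => ind (L x) (m x)) := by
  have h1 : GP (fun y : α × ℕ => indF (L y.1) (m y.1) y.2) := by
    unfold indF
    exact GP.ite (by fun_prop) (GP.pt (by fun_prop))
      ((gp_FS (by fun_prop) (by fun_prop) (by fun_prop)).mul (GP.pt (by fun_prop)))
  have h2 : GP (fun x => ind0 (L x) (m x)) := by
    unfold ind0
    exact GP.ite (by fun_prop) (GP.pt (by fun_prop)) (GP.ite (by fun_prop) (GP.pt (by fun_prop))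
      (((gp_FS hL hm (by fun_prop)).pow hL).mul (h1.prod hL)))
  exact (GP.pt (PT.const 1)).sub (((GP.pt (PT.const 1)).sub (h2.pow hL)).pow hL)

theorem gp_bin {L : α → ℕ} {n j d : α → ℤ} (hL : PT L) (hn : PT n) (hj : PT j) (hd : PT d) :
    GP (fun x => bin (L x) (n x) (j x) (d x)) := by
  have h1 : GP (fun y : α × ℤ => if (2 : ℤ) ≤ y.2 then
      ind (L y.1) y.2 * powMod (d y.1) (cof (L y.1) y.2 (d y.1)) (y.2 ^ L y.1 * (y.2 - 1)) *
        outB (L y.1) y.2 (n y.1) (j y.1) else 0) :=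
    GP.ite (by fun_prop) (((gp_ind (by fun_prop) (by fun_prop)).mul (GP.pt (by fun_prop))).mul
      (gp_outB (by fun_prop) (by fun_prop) (by fun_prop) (by fun_prop))) (GP.pt (by fun_prop))
  exact h1.sum hL

end

end Pool.Agent.MP_7d676c_b

end

section

/-! Roundings of `(2 N + 1) / 2 ^ t`: fractional parts and residues are exponential sums. -/

namespace Pool.Agent.MP_7d676c_b

open Finset Pool.Agent.MP_2e8011_lc Pool.Agent.MP_a6d740_lc Pool.Agent.MP_b0ee3d_lc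
  Pool.Agent.MP_7d676c_lc

/-- the denominators -/
def den (a : ℕ) (t V : ℤ) : ℤ :=
  if V % 2 ^ (2 * a) ≤ 2 ^ (2 * a - 2) ∧ V / 2 ^ (2 * a) ≤ t then
    2 * (2 ^ (2 * a) + V % 2 ^ (2 * a)) - V / 2 ^ (2 * a) else 1

/-- the numerators modulo `m` -/
def num (nm : ℤ → ℤ) (a : ℕ) (t V m : ℤ) : ℤ :=
  if V % 2 ^ (2 * a) ≤ 2 ^ (2 * a - 2) ∧ V / 2 ^ (2 * a) ≤ t then
    ((if (V % 2 ^ (2 * a) + t + V / 2 ^ (2 * a)) % 2 = 0 then 1 else -1) * (2 * (2 * nm m + 1)) *
      (t + 1)) * (bin (6 * a) (2 ^ (2 * a - 2)) (V % 2 ^ (2 * a)) m *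
      bin (6 * a) (2 ^ (2 * a) + V % 2 ^ (2 * a) + 2 ^ (2 * a - 2)) (2 ^ (2 * a - 2)) m *
      bin (6 * a) (2 ^ (2 * a) + V % 2 ^ (2 * a)) (t + 1) m * bin (6 * a) t (V / 2 ^ (2 * a)) m)
  else 0

/-- the numerators -/
def AA (N : ℤ) (a t j u : ℕ) : ℤ :=
  if j ≤ 2 ^ (2 * a - 2) ∧ u ≤ t then
    ((-1) ^ (2 ^ (2 * a - 2) + j + t + u) * (2 * (2 * N + 1)) * ((t : ℤ) + 1)) *
      (((2 ^ (2 * a - 2)).choose j : ℤ) *
      ((2 ^ (2 * a) + j + 2 ^ (2 * a - 2)).choose (2 ^ (2 * a - 2)) : ℤ) *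
      ((2 ^ (2 * a) + j).choose (t + 1) : ℤ) * (t.choose u : ℤ))
  else 0

/-- the integer part -/
def ZZ (N : ℤ) (nm : ℤ → ℤ) (a t : ℕ) : ℤ :=
  ∑ V ∈ range (2 ^ (4 * a)), (AA N a t (V % 2 ^ (2 * a)) (V / 2 ^ (2 * a)) -
    num nm a t (V : ℕ) (den a t (V : ℕ))) / den a t (V : ℕ)

/-- the integer part modulo `q` -/
def XQ (nm : ℤ → ℤ) (a : ℕ) (t q : ℤ) : ℤ :=
  ∑ V ∈ range (2 ^ (4 * a)), (num nm a t (V : ℕ) q - num nm a t (V : ℕ) (den a t (V : ℕ))) *
    powMod q (den a t (V : ℕ)) (q - 2)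

theorem pows_Core {a : ℕ} (ha : 8 ≤ a) : 4 * 2 ^ (2 * a - 2) = 2 ^ (2 * a) ∧
    256 * 2 ^ a ≤ 2 ^ (2 * a) ∧ 4 * 2 ^ (2 * a) ≤ 2 ^ (6 * a) ∧ 256 ≤ 2 ^ a := by
  have h1 : 2 ^ 8 ≤ 2 ^ a := Nat.pow_le_pow_right two_pos ha
  refine ⟨?_, ?_, ?_, h1⟩
  · rw [show 2 * a = 2 + (2 * a - 2) by omega, pow_add]
    norm_num
  · rw [two_mul, pow_add]
    exact Nat.mul_le_mul_right _ h1
  · calc 4 * 2 ^ (2 * a) = 2 ^ (2 * a + 2) := by ring
      _ ≤ _ := Nat.pow_le_pow_right two_pos (by omega)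

theorem den_eq (a t V : ℕ) : den a t V =
    if V % 2 ^ (2 * a) ≤ 2 ^ (2 * a - 2) ∧ V / 2 ^ (2 * a) ≤ t then
      2 * (((2 ^ (2 * a) : ℕ) : ℤ) + (V % 2 ^ (2 * a) : ℕ)) - (V / 2 ^ (2 * a) : ℕ) else 1 := by
  rw [den]
  refine if_congr ?_ ?_ rfl
  · norm_cast
  · push_cast
    rfl

theorem den_range {a t : ℕ} (ha : 8 ≤ a) (ht : t ≤ 2 ^ a + 1) (V : ℕ) :
    ∃ d : ℕ, den a t V = d ∧ 0 < d ∧ d ≤ 3 * 2 ^ (2 * a) := by
  obtain ⟨h1, h2, h3, h4⟩ := pows_Core ha
  rw [den_eq]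
  generalize V % 2 ^ (2 * a) = j
  generalize V / 2 ^ (2 * a) = u
  split_ifs with h
  · exact ⟨2 * (2 ^ (2 * a) + j) - u, by omega, by omega, by omega⟩
  · exact ⟨1, rfl, by omega, by omega⟩

theorem num_modEq {N : ℤ} {nm : ℤ → ℤ} (hN : Res N nm) {a t : ℕ} (ha : 8 ≤ a)
    (ht : t ≤ 2 ^ a + 1) (V m : ℕ) (hm : 0 < m) (hL : m < 2 ^ (6 * a)) :
    num nm a t V m ≡ AA N a t (V % 2 ^ (2 * a)) (V / 2 ^ (2 * a)) [ZMOD m] := by
  obtain ⟨h1, h2, h3, h4⟩ := pows_Core ha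
  have b1 : (V : ℤ) % 2 ^ (2 * a) = ((V % 2 ^ (2 * a) : ℕ) : ℤ) := by push_cast; rfl
  have b2 : (V : ℤ) / 2 ^ (2 * a) = ((V / 2 ^ (2 * a) : ℕ) : ℤ) := by push_cast; rfl
  have b3 : (2 : ℤ) ^ (2 * a) = ((2 ^ (2 * a) : ℕ) : ℤ) := by push_cast; rfl
  have b4 : (2 : ℤ) ^ (2 * a - 2) = ((2 ^ (2 * a - 2) : ℕ) : ℤ) := by push_cast; rfl
  have b5 : 2 ^ (2 * a - 2) % 2 = 0 := by
    rw [show 2 * a - 2 = 2 * a - 3 + 1 by omega, pow_succ]
    omega
  rw [num, AA, b1, b2, b3, b4]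
  generalize V % 2 ^ (2 * a) = j
  generalize V / 2 ^ (2 * a) = u
  generalize 2 ^ (2 * a - 2) = J at *
  generalize 2 ^ (2 * a) = K at *
  by_cases h : j ≤ J ∧ u ≤ t
  · rw [if_pos (by omega), if_pos h]
    have c1 := bin_modEq (6 * a) J j m (by omega) (by omega) hm hL
    have c2 := bin_modEq (6 * a) (K + j + J) J m (by omega) (by omega) hm hL
    have c3 := bin_modEq (6 * a) (K + j) (t + 1) m (by omega) (by omega) hm hL
    have c4 := bin_modEq (6 * a) t u m (by omega) (by omega) hm hL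
    have c5 : (if ((j : ℤ) + t + u) % 2 = 0 then (1 : ℤ) else -1) = (-1) ^ (J + j + t + u) := by
      split_ifs with h5
      · rw [Even.neg_one_pow (Nat.even_iff.2 (by omega))]
      · rw [Odd.neg_one_pow (Nat.odd_iff.2 (by omega))]
    have c6 := hN m (by exact_mod_cast hm)
    push_cast at c2 c3
    rw [c5]
    exact (((Int.ModEq.refl _).mul (((c6.mul_left 2).add_right 1).mul_left 2)).mul
      (Int.ModEq.refl _)).mul (((c1.mul c2).mul c3).mul c4)
  · rw [if_neg (by omega), if_neg h]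

theorem err_Core {a t : ℕ} (ha : 8 ≤ a) (ht : t ≤ 2 ^ a + 1) {N : ℤ}
    (hs : |N| ≤ 2 ^ 2 ^ (a - 8)) :
    |((2 * (2 * N + 1) : ℤ) : ℚ)| * ((2 * (t : ℚ) + 2) ^ (t + 2) / 2 ^ 2 ^ (2 * a - 2)) ≤
      1 / 64 := by
  obtain ⟨h1, h2, h3, h4⟩ := pows_Core ha
  have e1 : |2 * (2 * N + 1)| ≤ 2 ^ (2 ^ (a - 8) + 3) := by
    have h0 : (0 : ℤ) < 2 ^ 2 ^ (a - 8) := by positivity
    rw [pow_add, abs_le] at *
    omega
  have e2 : |((2 * (2 * N + 1) : ℤ) : ℚ)| ≤ 2 ^ (2 ^ (a - 8) + 3) := by exact_mod_cast e1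
  have e3 : 2 * t + 2 ≤ 2 ^ (a + 2) := by rw [pow_add]; omega
  have e4 : (2 * (t : ℚ) + 2) ^ (t + 2) ≤ 2 ^ ((a + 2) * (t + 2)) := by
    rw [pow_mul]
    exact pow_le_pow_left₀ (by positivity) (by exact_mod_cast e3) _
  have e5 : ∀ b : ℕ, 16 * (b + 8) ≤ 2 ^ (b + 8) := by
    intro b
    induction b with
    | zero => norm_num
    | succ b ih => rw [show b + 1 + 8 = b + 8 + 1 by ring, pow_succ]; omega
  have e6 := e5 (a - 8)
  rw [show a - 8 + 8 = a by omega] at e6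
  have e7 : 2 ^ (a - 8) ≤ 2 ^ a := Nat.pow_le_pow_right two_pos (by omega)
  have e8 : 2 ^ (a - 8) + 3 + (a + 2) * (t + 2) + 6 ≤ 2 ^ (2 * a - 2) := by
    rw [two_mul a, pow_add] at h1
    rw [two_mul a]
    generalize 2 ^ (a + a - 2) = J at *
    generalize 2 ^ (a - 8) = s at *
    generalize 2 ^ a = y at *
    have := Nat.mul_le_mul_left (a + 2) (show t + 2 ≤ y + 3 by omega)
    nlinarith
  have e9 : (2 : ℚ) ^ (2 ^ (a - 8) + 3 + (a + 2) * (t + 2) + 6) ≤ 2 ^ 2 ^ (2 * a - 2) :=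
    pow_le_pow_right₀ (by norm_num) e8
  rw [← mul_div_assoc, div_le_div_iff₀ (by positivity) (by norm_num), one_mul]
  refine le_trans ?_ e9
  rw [pow_add _ _ 6, pow_add _ _ ((a + 2) * (t + 2))]
  norm_num
  exact mul_le_mul (by simpa using e2) e4 (by positivity) (by positivity)

theorem sum_AA {a t : ℕ} (ha : 8 ≤ a) (ht : t ≤ 2 ^ a + 1) {N : ℤ} (hs : |N| ≤ 2 ^ 2 ^ (a - 8)) :
    |∑ V ∈ range (2 ^ (4 * a)), (AA N a t (V % 2 ^ (2 * a)) (V / 2 ^ (2 * a)) : ℚ) /
      den a t (V : ℕ) - ((2 * N + 1 : ℤ) : ℚ) / 2 ^ t| ≤ 1 / 64 := by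
  obtain ⟨h1, h2, h3, h4⟩ := pows_Core ha
  have e0 := approx_two_pow (2 ^ (2 * a)) (2 ^ (2 * a - 2)) t (by omega)
  refine le_trans ?_ ((mul_le_mul_of_nonneg_left e0 (abs_nonneg _)).trans (err_Core ha ht hs))
  rw [← abs_mul]
  refine le_of_eq (congrArg abs ?_)
  simp only [den_eq]
  rw [show 4 * a = 2 * a + 2 * a by ring, pow_add, sum_range_mul (2 ^ (2 * a)) (2 ^ (2 * a))
    fun j u => (AA N a t j u : ℚ) / ((if j ≤ 2 ^ (2 * a - 2) ∧ u ≤ t then
      2 * (((2 ^ (2 * a) : ℕ) : ℤ) + (j : ℕ)) - (u : ℕ) else 1 : ℤ) : ℚ), mul_sub, mul_sum]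
  congr 1
  · rw [sum_range_zero _ (B := 2 ^ (2 * a - 2) + 1)
      (fun j hj => sum_eq_zero fun u _ => by rw [AA, if_neg (by omega)]; simp)
      fun j hj => sum_eq_zero fun u _ => by rw [AA, if_neg (by omega)]; simp]
    refine sum_congr rfl fun j hj => ?_
    have hj' := mem_range.1 hj
    rw [mul_sum, sum_range_zero _ (B := t + 1)
      (fun u hu => by rw [AA, if_neg (by omega)]; simp)
      fun u hu => by rw [AA, if_neg (by omega)]; simp]
    refine sum_congr rfl fun u hu => ?_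
    have hu' := mem_range.1 hu
    rw [AA, if_pos (by omega), if_pos (by omega)]
    generalize 2 ^ (2 * a - 2) = J
    generalize 2 ^ (2 * a) = K
    push_cast
    ring
  · push_cast
    field_simp
    ring

theorem dvd_Core {N : ℤ} {nm : ℤ → ℤ} (hN : Res N nm) {a t : ℕ} (ha : 8 ≤ a)
    (ht : t ≤ 2 ^ a + 1) (V : ℕ) :
    den a t V ∣ AA N a t (V % 2 ^ (2 * a)) (V / 2 ^ (2 * a)) - num nm a t V (den a t V) := by
  obtain ⟨h1, h2, h3, h4⟩ := pows_Core ha
  obtain ⟨d, e, d1, d2⟩ := den_range ha ht V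
  rw [e]
  exact (num_modEq hN ha ht V d d1 (by omega)).dvd

theorem ZZ_approx {N : ℤ} {nm : ℤ → ℤ} (hN : Res N nm) {a t : ℕ} (ha : 8 ≤ a)
    (ht : t ≤ 2 ^ a + 1) (hs : |N| ≤ 2 ^ 2 ^ (a - 8)) :
    |((2 * N + 1 : ℤ) : ℚ) / 2 ^ t - ZZ N nm a t - ∑ V ∈ range (2 ^ (4 * a)),
      (num nm a t (V : ℕ) (den a t (V : ℕ)) : ℚ) / den a t (V : ℕ)| ≤ 1 / 64 := by
  refine le_trans (le_of_eq ?_) (sum_AA ha ht hs)
  rw [abs_sub_comm (∑ V ∈ range (2 ^ (4 * a)), _), sub_sub, ZZ, Int.cast_sum, ← sum_add_distrib]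
  congr 2
  refine sum_congr rfl fun V _ => ?_
  obtain ⟨d, e, d1, -⟩ := den_range ha ht V
  have h0 : ((den a t V : ℤ) : ℚ) ≠ 0 := by
    rw [e]
    exact_mod_cast d1.ne'
  rw [Int.cast_div (dvd_Core hN ha ht V) h0, Int.cast_sub]
  ring

theorem XQ_modEq {N : ℤ} {nm : ℤ → ℤ} (hN : Res N nm) {a t : ℕ} (ha : 8 ≤ a)
    (ht : t ≤ 2 ^ a + 1) {q : ℕ} (hq : q.Prime) (h1 : 3 * 2 ^ (2 * a) < q) (h2 : q < 2 ^ (6 * a)) :
    XQ nm a t q ≡ ZZ N nm a t [ZMOD q] := by
  have := Fact.mk hq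
  have hq2 := hq.two_le
  rw [← ZMod.intCast_eq_intCast_iff, XQ, ZZ, Int.cast_sum, Int.cast_sum]
  refine sum_congr rfl fun V _ => ?_
  obtain ⟨c, hc⟩ := dvd_Core hN ha ht V
  obtain ⟨d, e, d1, d2⟩ := den_range ha ht V
  have h3 := (ZMod.intCast_eq_intCast_iff _ _ _).2 (num_modEq hN ha ht V q hq.pos h2)
  have h4 : (d : ZMod q) ≠ 0 := fun h =>
    absurd (Nat.le_of_dvd d1 ((ZMod.natCast_eq_zero_iff d q).1 h)) (by omega)
  have h5 := ZMod.pow_card_sub_one_eq_one h4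
  have h6 : (q : ℤ) - 2 = ((q - 2 : ℕ) : ℤ) := by omega
  rw [hc, Int.mul_ediv_cancel_left _ (by omega), Int.cast_mul, Int.cast_sub, h3, ← Int.cast_sub,
    hc, h6, cast_powMod hq.pos, e]
  rw [show q - 1 = q - 2 + 1 by omega, pow_succ] at h5
  push_cast
  linear_combination (c : ZMod q) * h5

section

variable {α : Type} [Enc α]

@[fun_prop] theorem pt_den' {a : α → ℕ} {t V : α → ℤ} (ha : PT a) (ht : PT t) (hV : PT V) :
    PT (fun x => den (a x) (t x) (V x)) := by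
  unfold den
  fun_prop

theorem gp_num {P : α → List (ℕ × ℕ × ℕ)} {a : α → ℕ} {t V m : α → ℤ} (hP : PT P) (ha : PT a)
    (ht : PT t) (hV : PT V) (hm : PT m) :
    GP (fun x => num (evalMod (P x)) (a x) (t x) (V x) (m x)) := by
  unfold num
  have h0 := pt_evalMod hP hm
  refine GP.ite (by fun_prop) ((GP.pt ?_).mul ((((gp_bin ?_ ?_ ?_ hm).mul (gp_bin ?_ ?_ ?_ hm)).mul
    (gp_bin ?_ ?_ ?_ hm)).mul (gp_bin ?_ ?_ ?_ hm))) (GP.pt (by fun_prop))
  all_goals fun_prop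

theorem gp_XQ {P : α → List (ℕ × ℕ × ℕ)} {a : α → ℕ} {t q : α → ℤ} (hP : PT P) (ha : PT a)
    (ht : PT t) (hq : PT q) : GP (fun x => XQ (evalMod (P x)) (a x) (t x) (q x)) := by
  have h1 : GP (fun y : α × ℤ => (num (evalMod (P y.1)) (a y.1) (t y.1) y.2 (q y.1) -
      num (evalMod (P y.1)) (a y.1) (t y.1) y.2 (den (a y.1) (t y.1) y.2)) *
      powMod (q y.1) (den (a y.1) (t y.1) y.2) (q y.1 - 2)) :=
    ((gp_num (by fun_prop) (by fun_prop) (by fun_prop) (by fun_prop) (by fun_prop)).sub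
      (gp_num (by fun_prop) (by fun_prop) (by fun_prop) (by fun_prop) (by fun_prop))).mul
      (GP.pt (by fun_prop))
  exact h1.sum (l := fun x => 4 * a x) (by fun_prop)

end

/-- the program, the parameter and the scale -/
abbrev Yq := (List (ℕ × ℕ × ℕ) × ℕ) × ℤ

attribute [local irreducible] XQ Pr evalMod num den

theorem core : ∃ A ∈ PP, ∃ ff : Yq → ℤ, OC A ff ∧
    OC A (fun z : Yq × ℤ => XQ (evalMod z.1.1.1) z.1.1.2 z.1.2 z.2) ∧
    OC A (fun z : ℕ × ℤ => Pr z.1 z.2) ∧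
    ∀ (P : List (ℕ × ℕ × ℕ)) (a t : ℕ), 8 ≤ a → t ≤ 2 ^ a + 1 → |value P| ≤ 2 ^ 2 ^ (a - 8) →
      |((2 * value P + 1 : ℤ) : ℚ) / 2 ^ t - ZZ (value P) (evalMod P) a t -
        (ff ((P, a), t) : ℚ) / 64| ≤ 3 / 64 := by
  have h1 : GP (fun y : Yq × ℤ =>
      num (evalMod y.1.1.1) y.1.1.2 y.1.2 y.2 (den y.1.1.2 y.1.2 y.2)) :=
    gp_num (by fun_prop) (by fun_prop) (by fun_prop) (by fun_prop) (by fun_prop)
  obtain ⟨G, s, hG, hs, h⟩ := h1.frac (d := fun y : Yq × ℤ => den y.1.1.2 y.1.2 y.2)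
    (by fun_prop) (l := fun y => 4 * y.1.2) (by fun_prop)
  have h2 : GP (fun z : ℕ × Yq × ℤ => XQ (evalMod z.2.1.1.1) z.2.1.1.2 z.2.1.2 z.2.2) :=
    gp_XQ (by fun_prop) (by fun_prop) (by fun_prop) (by fun_prop)
  have h3 : GP (fun z : ℕ × Yq × ℤ => Pr z.2.1.1.2 z.2.2) := by
    unfold Pr
    exact GP.sum (f := fun y : (ℕ × Yq × ℤ) × ℤ => vP y.1.2.2 y.2) (GP.pt (by fun_prop))
      (l := fun z => 6 * z.2.1.1.2) (by fun_prop)
  have h4 : GP (fun z : ℕ × Yq × ℤ => if z.1 = 0 then G z.2.1 else if z.1 = 1 then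
      XQ (evalMod z.2.1.1.1) z.2.1.1.2 z.2.1.2 z.2.2 else Pr z.2.1.1.2 z.2.2) :=
    GP.ite (by fun_prop) (hG.pre (by fun_prop)) (GP.ite (by fun_prop) h2 h3)
  obtain ⟨A, hA, ho⟩ := h4.oc (dec_prod dec_nat (dec_prod (dec_prod (dec_prod
    (dec_list (dec_prod dec_nat (dec_prod dec_nat dec_nat))) dec_nat) dec_int) dec_int))
  have o1 : OC A G := ho.pre (g := fun y : Yq => ((0 : ℕ), y, (0 : ℤ))) (by fun_prop)
  refine ⟨A, hA, fun y => 64 * G y / 2 ^ s y,
    o1.post (v := fun z : Yq × ℤ => 64 * z.2 / 2 ^ s z.1) (by fun_prop),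
    ho.pre (g := fun z : Yq × ℤ => ((1 : ℕ), z)) (by fun_prop),
    ho.pre (g := fun z : ℕ × ℤ => ((2 : ℕ), ((([] : List (ℕ × ℕ × ℕ)), z.1), (0 : ℤ)), z.2))
      (by fun_prop), fun P a t ha ht hs => ?_⟩
  have e1 := ZZ_approx (res_evalMod P) ha ht hs
  have e2 := h ((P, a), t) fun w _ => by
    obtain ⟨d, e, d1, -⟩ := den_range ha ht w
    simp only [e]
    exact_mod_cast d1
  obtain ⟨e3, e4⟩ := ediv_bounds_Chk (64 * G ((P, a), t)) (m := 2 ^ s ((P, a), t)) (by positivity)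
  simp only at e2
  push_cast at e3 e4
  rw [mul_div_assoc] at e3 e4
  rw [abs_le] at e1 e2 ⊢
  constructor <;> linarith [e1.1, e1.2, e2.1, e2.2]

end Pool.Agent.MP_7d676c_b

end

section

/-! BitSLP is in BPP relative to an oracle in PP. -/

namespace Pool.Agent.MP_7d676c_b

open Finset Pool.Agent.MP_2e8011_lc Pool.Agent.MP_a6d740_lc Pool.Agent.MP_b0ee3d_lc
  Pool.Agent.MP_7d676c_lc

/-- rounding -/
def rB (F : ℤ) : ℤ := (F + 32) / 64

/-- the error of rounding -/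
def phB (F : ℤ) : ℤ := F - 64 * rB F

/-- the check at one candidate `q` -/
def chkB (ff : ℤ → ℤ) (xq : ℤ → ℤ → ℤ) (a : ℕ) (I t q : ℤ) : Bool :=
  decide (Pr a q = 0 ∧ 3 * 2 ^ (2 * a) < q →
    (xq t q + rB (ff t) - powMod q 2 (I - t) * (xq I q + rB (ff I))) % q = 0)

/-- the randomized test -/
def testB (ff : ℤ → ℤ) (xq : ℤ → ℤ → ℤ) (a : ℕ) (I ρ t : ℤ) : Bool :=
  decide (I ≤ t) || (List.range (24 * a)).all fun i => chkB ff xq a I t (dig (6 * a) i ρ)

/-- one step of binary search -/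
def bsB (ff : ℤ → ℤ) (xq : ℤ → ℤ → ℤ) (a : ℕ) (I ρ : ℤ) (s : ℤ × ℤ) : ℤ × ℤ :=
  (if testB ff xq a I ρ (s.1 + s.2 / 2) = true then s.1 else s.1 + s.2 / 2, s.2 / 2)

/-- the end point of the binary search -/
def endB (ff : ℤ → ℤ) (xq : ℤ → ℤ → ℤ) (a : ℕ) (I ρ : ℤ) : ℤ :=
  ((bsB ff xq a I ρ)^[a] (0, 2 ^ a)).1 + 1

/-- the output -/
def outBit (ff : ℤ → ℤ) (xq : ℤ → ℤ → ℤ) (a : ℕ) (I ρ : ℤ) : Bool :=
  decide (((2 * phB (ff (I + 1)) - phB (ff I) + 32) / 64 -
    if phB (ff (endB ff xq a I ρ)) < 0 then 1 else 0) % 2 = 1)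

theorem search_Main (ff : ℤ → ℤ) (xq : ℤ → ℤ → ℤ) (a : ℕ) (I ρ : ℤ) (E : ℕ → Prop) (h0 : ¬ E 0)
    (h1 : E (2 ^ a)) (h : ∀ t ≤ 2 ^ a, testB ff xq a I ρ (t : ℕ) = true ↔ E t) (i k : ℕ)
    (hk : i + k = a) : ∃ lo : ℕ, (bsB ff xq a I ρ)^[i] (0, 2 ^ a) = ((lo : ℤ), 2 ^ k) ∧
      lo + 2 ^ k ≤ 2 ^ a ∧ ¬ E lo ∧ E (lo + 2 ^ k) := by
  induction i generalizing k with
  | zero =>
    obtain rfl : k = a := by omega
    exact ⟨0, rfl, by omega, h0, by simpa using h1⟩
  | succ i ih =>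
    obtain ⟨lo, e, b1, b2, b3⟩ := ih (k + 1) (by omega)
    have e1 : (2 : ℤ) ^ (k + 1) / 2 = 2 ^ k := by rw [pow_succ]; omega
    have e2 : (lo : ℤ) + 2 ^ k = ((lo + 2 ^ k : ℕ) : ℤ) := by push_cast; rfl
    rw [pow_succ] at b1 b3
    rw [Function.iterate_succ_apply', e, bsB]
    simp only [e1, e2]
    by_cases c : E (lo + 2 ^ k)
    · rw [if_pos ((h _ (by omega)).2 c)]
      exact ⟨lo, rfl, by omega, b2, c⟩
    · rw [if_neg fun d => c ((h _ (by omega)).1 d)]
      exact ⟨lo + 2 ^ k, rfl, by omega, c, by rwa [add_assoc, ← mul_two]⟩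

theorem outBit_correct {ff : ℤ → ℤ} {xq : ℤ → ℤ → ℤ} {a i : ℕ} {N : ℤ} {R : ℕ → ℤ}
    (hR : Rnd N (2 ^ a + 1) R fun t => phB (ff t)) (hi : i + 1 ≤ 2 ^ a) (ρ : ℤ)
    (h : ∀ t ≤ 2 ^ a, testB ff xq a (i + 1 : ℕ) ρ (t : ℕ) = true ↔
      (i + 1 ≤ t ∨ R t = 2 ^ (i + 1 - t) * R (i + 1))) :
    outBit ff xq a (i + 1 : ℕ) ρ = decide (N / 2 ^ i % 2 = 1) := by
  obtain ⟨lo, e, b1, b2, b3⟩ := search_Main ff xq a (i + 1 : ℕ) ρ _
    (fun c => c.elim (by omega) (rnd_zero hR (by omega))) (Or.inl hi) h a 0 rfl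
  rw [pow_zero] at b1 b3
  rw [not_or] at b2
  have b4 : R (lo + 1) = 2 ^ (i - lo) * R (i + 1) := by
    rcases b3 with c | c
    · obtain rfl : lo = i := by omega
      simp
    · rwa [show i + 1 - (lo + 1) = i - lo by omega] at c
  have := rnd_bit hR (i := i) (t := lo) (by omega) (by omega) b2.2 b4
  rw [outBit, endB, e, this]
  push_cast
  rfl

theorem chkB_of_not_prime (ff : ℤ → ℤ) (xq : ℤ → ℤ → ℤ) (a : ℕ) (I t : ℤ) (q : ℕ)
    (hq : q < 2 ^ (6 * a)) (h : ¬ (q.Prime ∧ 3 * 2 ^ (2 * a) < q)) :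
    chkB ff xq a I t q = true := by
  rw [chkB, decide_eq_true_iff]
  rintro ⟨h1, h2⟩
  exfalso
  have h3 : 3 * 2 ^ (2 * a) < q := by exact_mod_cast h2
  have h4 : 1 ≤ 2 ^ (2 * a) := Nat.one_le_two_pow
  refine h ⟨?_, h3⟩
  by_contra hp
  obtain ⟨d, hd, hd1, hd2⟩ := Nat.exists_dvd_of_not_prime2 (by omega) hp
  have h5 := (sum_eq_zero_iff_of_nonneg fun (d : ℕ) _ => vP_nonneg_Chk q d).1 h1 d
    (mem_range.2 (hd2.trans hq))
  unfold vP at h5
  rw [if_pos] at h5
  · exact one_ne_zero h5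
  · refine ⟨by omega, by omega, Int.emod_eq_zero_of_dvd ?_⟩
    exact_mod_cast hd

theorem chkB_iff {ff : ℤ → ℤ} {xq : ℤ → ℤ → ℤ} {a I t q : ℕ} {x y : ℤ} (ht : t ≤ I)
    (hq : q.Prime) (h1 : 3 * 2 ^ (2 * a) < q) (hx : xq t q + rB (ff t) ≡ x [ZMOD q])
    (hy : xq I q + rB (ff I) ≡ y [ZMOD q]) :
    chkB ff xq a I t q = true ↔ (q : ℤ) ∣ x - 2 ^ (I - t) * y := by
  have h2 : powMod q 2 ((I : ℤ) - t) ≡ 2 ^ (I - t) [ZMOD q] := by
    rw [powMod, show ((I : ℤ) - t).toNat = I - t by omega]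
    exact rd_modEq (by exact_mod_cast hq.pos) _
  have h3 : xq t q + rB (ff t) - powMod q 2 ((I : ℤ) - t) * (xq I q + rB (ff I)) ≡
      x - 2 ^ (I - t) * y [ZMOD q] := hx.sub (h2.mul hy)
  rw [chkB, decide_eq_true_iff, h3.eq, Int.dvd_iff_emod_eq_zero]
  exact ⟨fun h => h ⟨Pr_eq_zero_Chk a q hq, by exact_mod_cast h1⟩, fun h _ => h⟩

theorem outBit_prob {ff : ℤ → ℤ} {xq : ℤ → ℤ → ℤ} {a i : ℕ} {N : ℤ} {R : ℕ → ℤ} (ha : 8 ≤ a)
    (hs : |N| ≤ 2 ^ 2 ^ (a - 8)) (hR : Rnd N (2 ^ a + 1) R fun t => phB (ff t))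
    (hi : i + 1 ≤ 2 ^ a) (hx : ∀ t : ℕ, t ≤ 2 ^ a + 1 → ∀ q : ℕ, q.Prime → 3 * 2 ^ (2 * a) < q →
      q < 2 ^ (6 * a) → xq t q + rB (ff t) ≡ R t [ZMOD q]) :
    2 * 2 ^ (6 * a * (24 * a)) ≤ 3 * ((range (2 ^ (6 * a * (24 * a)))).filter fun ρ : ℕ =>
      outBit ff xq a (i + 1 : ℕ) ρ = decide (N / 2 ^ i % 2 = 1)).card := by
  classical
  obtain ⟨p1, p2, p3, p4⟩ := pows_Core ha
  have hz : ∀ n : ℕ, |if n ≤ i + 1 then R n - 2 ^ (i + 1 - n) * R (i + 1) else 0| ≤
      2 ^ (3 * 2 ^ (2 * a)) := by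
    intro n
    split_ifs with c
    · have c1 := rnd_size hR (t := n) (by omega)
      have c2 := rnd_size hR (t := i + 1) (by omega)
      have c3 : 2 ^ (a - 8) ≤ 2 ^ a := Nat.pow_le_pow_right two_pos (by omega)
      have c4 : |N| ≤ 2 ^ 2 ^ a := hs.trans (pow_le_pow_right₀ (by norm_num) c3)
      have c5 : (2 : ℤ) ^ (i + 1 - n) ≤ 2 ^ 2 ^ a := pow_le_pow_right₀ (by norm_num) (by omega)
      have c6 : (2 : ℤ) ^ (2 ^ a + 2 ^ a + 3) ≤ 2 ^ (3 * 2 ^ (2 * a)) :=
        pow_le_pow_right₀ (by norm_num) (by omega)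
      have c7 : (1 : ℤ) ≤ 2 ^ 2 ^ a := one_le_pow₀ (by norm_num)
      have c8 := abs_sub (R n) (2 ^ (i + 1 - n) * R (i + 1))
      rw [abs_mul, abs_of_pos (a := (2 : ℤ) ^ (i + 1 - n)) (by positivity)] at c8
      have c9 : (2 : ℤ) ^ (i + 1 - n) * |R (i + 1)| ≤ 2 ^ 2 ^ a * (4 * 2 ^ 2 ^ a) :=
        mul_le_mul c5 (by omega) (abs_nonneg _) (by positivity)
      rw [pow_add, pow_add] at c6
      nlinarith
    · simp
  refine (many_good a ha _ hz).trans (Nat.mul_le_mul_left 3 (card_le_card fun ρ hρ => ?_))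
  rw [mem_filter] at hρ ⊢
  obtain ⟨h0, j, hj, q, q1, q2, q3, q4⟩ := hρ
  refine ⟨h0, outBit_correct hR hi ρ fun t ht => ?_⟩
  rw [testB, Bool.or_eq_true, decide_eq_true_iff, Nat.cast_le, List.all_eq_true]
  by_cases c : i + 1 ≤ t
  · exact iff_of_true (Or.inl c) (Or.inl c)
  refine or_congr_right ⟨fun h => ?_, fun h l _ => ?_⟩
  · have t1 := h j (List.mem_range.2 hj)
    obtain ⟨q', e1, e2⟩ := dig_Search (6 * a) j ρ
    obtain rfl : q' = q := by exact_mod_cast e1.symm.trans q1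
    rw [q1, chkB_iff (by omega) q2 q3 (hx t (by omega) _ q2 q3 e2)
      (hx (i + 1) (by omega) _ q2 q3 e2)] at t1
    have t2 := q4 t (by omega)
    rw [if_pos (by omega)] at t2
    by_contra d
    exact t2 (sub_ne_zero.2 d) t1
  · obtain ⟨p, e1, e2⟩ := dig_Search (6 * a) l ρ
    rw [e1]
    by_cases hp : p.Prime ∧ 3 * 2 ^ (2 * a) < p
    · rw [chkB_iff (by omega) hp.1 hp.2 (hx t (by omega) _ hp.1 hp.2 e2)
        (hx (i + 1) (by omega) _ hp.1 hp.2 e2), h, sub_self]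
      exact dvd_zero _
    · exact chkB_of_not_prime _ _ _ _ _ p e2 hp

section

variable {α : Type} [Enc α]

@[fun_prop] theorem pt_rB {F : α → ℤ} (hF : PT F) : PT (fun x => rB (F x)) := by
  unfold rB
  fun_prop

@[fun_prop] theorem pt_phB {F : α → ℤ} (hF : PT F) : PT (fun x => phB (F x)) := by
  unfold phB
  fun_prop

variable {A : List Bool → Bool} {β : Type} [Enc β] {ff : β → ℤ → ℤ} {xq : β → ℤ → ℤ → ℤ}
  (hff : OC A (fun z : β × ℤ => ff z.1 z.2))
  (hxq : OC A (fun z : (β × ℤ) × ℤ => xq z.1.1 z.1.2 z.2))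
  (hpr : OC A (fun z : ℕ × ℤ => Pr z.1 z.2)) {b : α → β} {a : α → ℕ} {I : α → ℤ} (hb : PT b)
  (ha : PT a) (hI : PT I)

attribute [local irreducible] Pr

include hff hxq hpr hb ha hI

theorem oc_chkB {t q : α → ℤ} (ht : PT t) (hq : PT q) :
    OC A (fun x => chkB (ff (b x)) (xq (b x)) (a x) (I x) (t x) (q x)) := by
  have h0 : OC A (fun x => ff (b x) (t x)) := hff.pre (g := fun x => (b x, t x)) (by fun_prop)
  have h1 : OC A (fun x => ff (b x) (I x)) := hff.pre (g := fun x => (b x, I x)) (by fun_prop)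
  have h2 : OC A (fun x => xq (b x) (t x) (q x)) :=
    hxq.pre (g := fun x => ((b x, t x), q x)) (by fun_prop)
  have h3 : OC A (fun x => xq (b x) (I x) (q x)) :=
    hxq.pre (g := fun x => ((b x, I x), q x)) (by fun_prop)
  have h4 : OC A (fun x => Pr (a x) (q x)) := hpr.pre (g := fun x => (a x, q x)) (by fun_prop)
  exact (h0.pair (h1.pair (h2.pair (h3.pair h4)))).post
    (v := fun z : α × ℤ × ℤ × ℤ × ℤ × ℤ => decide (z.2.2.2.2.2 = 0 ∧ 3 * 2 ^ (2 * a z.1) < q z.1 →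
      (z.2.2.2.1 + rB z.2.1 - powMod (q z.1) 2 (I z.1 - t z.1) * (z.2.2.2.2.1 + rB z.2.2.1)) %
        q z.1 = 0)) (by fun_prop)

theorem oc_testB {ρ t : α → ℤ} (hρ : PT ρ) (ht : PT t) :
    OC A (fun x => testB (ff (b x)) (xq (b x)) (a x) (I x) (ρ x) (t x)) :=
  (OC.all (f := fun x i => chkB (ff (b x)) (xq (b x)) (a x) (I x) (t x) (dig (6 * a x) i (ρ x)))
    (oc_chkB hff hxq hpr (b := fun z : α × ℕ => b z.1) (a := fun z : α × ℕ => a z.1)
      (I := fun z : α × ℕ => I z.1) (by fun_prop) (by fun_prop) (by fun_prop) (by fun_prop)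
      (by fun_prop)) (l := fun x => List.range (24 * a x)) (by fun_prop)).post
    (v := fun z : α × Bool => decide (I z.1 ≤ t z.1) || z.2) (by fun_prop)

theorem oc_endB {ρ : α → ℤ} (hρ : PT ρ) :
    OC A (fun x => endB (ff (b x)) (xq (b x)) (a x) (I x) (ρ x)) := by
  have hg : OC A (fun z : α × ℤ × ℤ =>
      bsB (ff (b z.1)) (xq (b z.1)) (a z.1) (I z.1) (ρ z.1) z.2) :=
    (oc_testB hff hxq hpr (b := fun z : α × ℤ × ℤ => b z.1) (a := fun z => a z.1)
      (I := fun z => I z.1) (by fun_prop) (by fun_prop) (by fun_prop) (ρ := fun z => ρ z.1)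
      (t := fun z => z.2.1 + z.2.2 / 2) (by fun_prop)
      (by fun_prop)).post (v := fun z : (α × ℤ × ℤ) × Bool =>
        (if z.2 = true then z.1.2.1 else z.1.2.1 + z.1.2.2 / 2, z.1.2.2 / 2)) (by fun_prop)
  have key : ∀ (f : ℤ → ℤ) (g : ℤ → ℤ → ℤ) (c : ℕ) (u r C : ℤ) (i : ℕ) (s : ℤ × ℤ), 0 ≤ s.1 →
      0 ≤ s.2 → s.1 + s.2 ≤ C → 0 ≤ ((bsB f g c u r)^[i] s).1 ∧ 0 ≤ ((bsB f g c u r)^[i] s).2 ∧
        ((bsB f g c u r)^[i] s).1 + ((bsB f g c u r)^[i] s).2 ≤ C := by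
    intro f g c u r C i
    induction i with
    | zero => intro s h1 h2 h3; exact ⟨h1, h2, h3⟩
    | succ i ih =>
      intro s h1 h2 h3
      rw [Function.iterate_succ_apply]
      apply ih <;> simp only [bsB] <;> (try split_ifs) <;> omega
  have := OC.iter (g := fun x => bsB (ff (b x)) (xq (b x)) (a x) (I x) (ρ x)) hg ha
    (s := fun x => (0, 2 ^ a x)) (by fun_prop)
    (B := fun x => 3 * (3 * a x + 4) + 1) (PT.pb (by fun_prop)) (fun x i _ => by
      obtain ⟨h1, h2, h3⟩ := key (ff (b x)) (xq (b x)) (a x) (I x) (ρ x) (2 ^ a x) i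
        (0, 2 ^ a x) le_rfl (by positivity) (by simp)
      generalize (bsB (ff (b x)) (xq (b x)) (a x) (I x) (ρ x))^[i] _ = s at h1 h2 h3 ⊢
      have e1 := sz_int_le (z := s.1) (k := a x) (by rw [abs_of_nonneg h1]; omega)
      have e2 := sz_int_le (z := s.2) (k := a x) (by rw [abs_of_nonneg h2]; omega)
      rw [← Prod.mk.eta (p := s), sz_prod]
      omega)
  exact this.post (v := fun z : α × ℤ × ℤ => z.2.1 + 1) (by fun_prop)

theorem oc_outBit {ρ : α → ℤ} (hρ : PT ρ) :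
    OC A (fun x => outBit (ff (b x)) (xq (b x)) (a x) (I x) (ρ x)) := by
  have h0 : OC A (fun x => ff (b x) (I x + 1)) :=
    hff.pre (g := fun x => (b x, I x + 1)) (by fun_prop)
  have h1 : OC A (fun x => ff (b x) (I x)) := hff.pre (g := fun x => (b x, I x)) (by fun_prop)
  have h2 : OC A (fun x => ff (b x) (endB (ff (b x)) (xq (b x)) (a x) (I x) (ρ x))) :=
    (oc_endB hff hxq hpr hb ha hI hρ).bind (v := fun z : α × ℤ => ff (b z.1) z.2)
      (hff.pre (g := fun z : α × ℤ => (b z.1, z.2)) (by fun_prop))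
  exact (h0.pair (h1.pair h2)).post (v := fun z : α × ℤ × ℤ × ℤ =>
    decide (((2 * phB z.2.1 - phB z.2.2.1 + 32) / 64 - if phB z.2.2.2 < 0 then 1 else 0) % 2 = 1))
    (by fun_prop)

end

theorem odd_floor_Main (N : ℤ) (i : ℕ) : Odd ⌊(N : ℚ) / 2 ^ i⌋ ↔ N / 2 ^ i % 2 = 1 := by
  have h := Rat.floor_intCast_div_natCast N (2 ^ i)
  push_cast at h
  rw [h, Int.odd_iff]

theorem exists_parse_bit : ∃ (par : List Bool → List (ℕ × ℕ × ℕ)) (idx : List Bool → ℕ)
    (ok : List Bool → Bool), PT par ∧ PT (fun x => (idx x : ℤ)) ∧ PT ok ∧ ∀ x,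
      (ok x = true → (par x).length ≤ x.length ∧ idx x < 2 ^ x.length) ∧
      BitSLP x = (ok x && decide (value (par x) / 2 ^ idx x % 2 = 1)) := by
  obtain ⟨d, hd, e⟩ := dec_prod (dec_list (dec_prod dec_bin (dec_prod dec_bin dec_bin))) dec_bin
  have hpar : PT (fun x : List Bool => (d x).1.map fun t =>
      (t.1.cap (x.length + 5), t.2.1.cap (x.length + 5), t.2.2.cap (x.length + 5))) := by
    fun_prop
  generalize hp : (fun x : List Bool => (d x).1.map fun t =>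
      (t.1.cap (x.length + 5), t.2.1.cap (x.length + 5), t.2.2.cap (x.length + 5))) = par at hpar
  have hcode : ∀ (P : List (ℕ × ℕ × ℕ)) (i : ℕ),
      N487b59b3.bitEncode (P, i) = enc (P.map toBin_Slp, Bin.mk i) := fun P i =>
    bitEncode_prod (ι := fun Q : List (ℕ × ℕ × ℕ) => Q.map toBin_Slp) (κ := Bin.mk) code_Slp
      bitEncode_bin (P, i)
  have hlen : ∀ (P : List (ℕ × ℕ × ℕ)) (y : Bin),
      P.length ≤ (enc (P.map toBin_Slp, y)).length ∧
      y.val < 2 ^ (enc (P.map toBin_Slp, y)).length := fun P y => by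
    have h1 := length_le_sz (P.map toBin_Slp)
    have h2 := sz_prod (P.map toBin_Slp) y
    have h3 := sz_bin y
    rw [List.length_map] at h1
    change P.length ≤ sz (P.map toBin_Slp, y) ∧ y.val < 2 ^ sz (P.map toBin_Slp, y)
    exact ⟨by omega, Nat.size_le.1 (by omega)⟩
  refine ⟨par, fun x => (d x).2.val,
    fun x => decide (enc ((par x).map toBin_Slp, (d x).2) = x) && validB_Slp (par x), hpar,
    pt_diff hd.snd (PT.const ⟨0⟩) fun x => by simp,
    PT.and (PT.eq (PT.enc ((PT.map (f := fun _ => toBin_Slp) (by unfold toBin_Slp; fun_prop)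
      hpar).prodMk hd.snd)) PT.id) (pt_validB_Slp.comp hpar), fun x => ⟨fun h => ?_, ?_⟩⟩
  · simp only [Bool.and_eq_true, decide_eq_true_eq] at h
    have := hlen (par x) (d x).2
    rwa [h.1] at this
  · rw [Bool.eq_iff_iff]
    simp only [BitSLP, Bool.and_eq_true, decide_eq_true_eq, validB_iff_Slp, hcode, odd_floor_Main]
    refine ⟨?_, fun h => ⟨par x, (d x).2.val, h.1.1, h.1.2, h.2⟩⟩
    rintro ⟨P, i, rfl, hV, h0⟩
    have h1 : par (enc (P.map toBin_Slp, Bin.mk i)) = P := by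
      rw [← hp]
      beta_reduce
      rw [e, List.map_map]
      conv_rhs => rw [← List.map_id P]
      refine List.map_congr_left fun g hg => ?_
      obtain ⟨j, hj, rfl⟩ := List.getElem_of_mem hg
      have h2 := (hlen P ⟨i⟩).1
      have h3 := hV.2 ⟨j, hj⟩
      simp only [Fin.getElem_fin, Prod.ext_iff] at h3
      simp only [Function.comp_apply, toBin_Slp, Bin.cap, id, Prod.ext_iff]
      omega
    rw [h1, e]
    exact ⟨⟨rfl, hV⟩, h0⟩

attribute [local irreducible] outBit evalMod value XQ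

theorem bitSLP_mem : ∃ A ∈ PP, BitSLP ∈ BPPrel A := by
  obtain ⟨A, hA, ff, o1, o2, o3, hc⟩ := core
  obtain ⟨par, idx, ok, hpar, hidx, hok, h⟩ := exists_parse_bit
  refine ⟨A, hA, ?_⟩
  have h1 : OC A (fun y : List Bool × List Bool =>
      outBit (fun t => ff ((par y.1, y.1.length + 8), t)) (XQ (evalMod (par y.1)) (y.1.length + 8))
        (y.1.length + 8) (idx y.1 + 1) (valL y.2)) :=
    oc_outBit (ff := fun c t => ff (c, t)) (xq := fun c => XQ (evalMod c.1) c.2) o1 o2 o3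
      (b := fun y : List Bool × List Bool => (par y.1, y.1.length + 8)) (by fun_prop) (by fun_prop)
      (pt_intAdd (hidx.comp (by fun_prop)) (by fun_prop)) (by fun_prop)
  have h2 := h1.post (v := fun z : (List Bool × List Bool) × Bool => ok z.1.1 && z.2)
    (by fun_prop)
  refine h2.mem_BPPrel (6 * (Polynomial.X + 8) * (24 * (Polynomial.X + 8))) (fun x => ?_)
  have e : (6 * (Polynomial.X + 8) * (24 * (Polynomial.X + 8)) : Polynomial ℕ).eval x.length =
      6 * (x.length + 8) * (24 * (x.length + 8)) := by simp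
  generalize (6 * (Polynomial.X + 8) * (24 * (Polynomial.X + 8)) : Polynomial ℕ).eval x.length
    = k at e ⊢
  simp only [(h x).2]
  rw [card_filter_valL k (fun ρ => (ok x && outBit (fun t => ff ((par x, x.length + 8), t))
    (XQ (evalMod (par x)) (x.length + 8)) (x.length + 8) (idx x + 1) (ρ : ℕ)) =
    (ok x && decide (value (par x) / 2 ^ idx x % 2 = 1)))]
  subst e
  cases hx : ok x
  · simp only [Bool.false_and, filter_true, card_range]
    omega
  · simp only [Bool.true_and]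
    obtain ⟨b1, b2⟩ := (h x).1 hx
    have hs : |value (par x)| ≤ 2 ^ 2 ^ (x.length + 8 - 8) := (abs_value_le _).trans
      (pow_le_pow_right₀ (by norm_num) (Nat.pow_le_pow_right (by norm_num) (by omega)))
    have hi : 2 ^ x.length ≤ 2 ^ (x.length + 8) := Nat.pow_le_pow_right two_pos (by omega)
    refine outBit_prob (i := idx x) (R := fun t => ZZ (value (par x)) (evalMod (par x))
      (x.length + 8) t + rB (ff ((par x, x.length + 8), t))) (by omega) hs (fun t ht => ?_)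
      (by omega) fun t ht q q1 q2 q3 =>
        (XQ_modEq (res_evalMod _) (by omega) ht q1 q2 q3).add_right _
    have := hc (par x) (x.length + 8) t (by omega) ht hs
    refine ⟨le_trans (le_of_eq (congrArg abs ?_)) this, ?_, ?_⟩
    · simp only [phB]
      push_cast
      ring
    · simp only [phB, rB]
      omega
    · simp only [phB, rB]
      omega

end Pool.Agent.MP_7d676c_b

end

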