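import Mathlib

/-! Approximation of negative powers of two by sums of fractions with small denominators. -/

namespace Pool.Agent.MP_7d676c_b

open Finset

theorem weight_Approx (i m : ℕ) :
    ∏ l ∈ (range (i + m + 1)).erase i, ((i : ℚ) - l) = (-1) ^ m * (i.factorial * m.factorial) := by
  induction m with
  | zero =>
    rw [add_zero, range_add_one, erase_insert notMem_range_self, prod_range_natCast_sub,
      ← Nat.descFactorial_eq_prod_range, Nat.descFactorial_self]
    simp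
  | succ m ih =>
    rw [← add_assoc, range_add_one, erase_insert_of_ne (by omega), prod_insert (by simp), ih,
      Nat.factorial_succ]
    push_cast
    ring

theorem winv_Approx {n i : ℕ} (h : i ≤ n) :
    (∏ l ∈ (range (n + 1)).erase i, ((i : ℚ) - l))⁻¹ =
      (-1) ^ (n + i) * (n.choose i : ℚ) / n.factorial := by
  obtain ⟨m, rfl⟩ := Nat.exists_eq_add_of_le h
  have e : ((i + m).choose i : ℚ) * i.factorial * m.factorial = (i + m).factorial := by
    have := Nat.choose_mul_factorial_mul_factorial h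
    rw [Nat.add_sub_cancel_left] at this
    exact_mod_cast this
  have c : ((i + m).choose i : ℚ) ≠ 0 := by exact_mod_cast (Nat.choose_pos h).ne'
  have s : (-1 : ℚ) ^ (i + m + i) = (-1) ^ m := by
    rw [show i + m + i = m + 2 * i by ring, pow_add, pow_mul]
    simp
  have s2 : ((-1 : ℚ) ^ m)⁻¹ = (-1) ^ m := by rw [← inv_pow, inv_neg, inv_one]
  rw [weight_Approx, ← e, s, mul_inv, s2]
  have : (i.factorial : ℚ) ≠ 0 := by positivity
  have : (m.factorial : ℚ) ≠ 0 := by positivity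
  field_simp

theorem wabs_Approx {n i : ℕ} (h : i ≤ n) :
    1 ≤ |∏ l ∈ (range (n + 1)).erase i, ((i : ℚ) - l)| := by
  obtain ⟨m, rfl⟩ := Nat.exists_eq_add_of_le h
  rw [weight_Approx, abs_mul, abs_neg_one_pow, one_mul, abs_of_nonneg (by positivity)]
  exact_mod_cast Nat.mul_pos (Nat.factorial_pos i) (Nat.factorial_pos m)

theorem frac_Approx (t : ℕ) (x : ℚ) (hx : (t : ℚ) < x) :
    (∏ u ∈ range (t + 1), (x - u))⁻¹ =
      ∑ u ∈ range (t + 1), (-1) ^ (t + u) * (t.choose u : ℚ) / t.factorial * (x - u)⁻¹ := by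
  have hv : Set.InjOn (fun u : ℕ => (u : ℚ)) (range (t + 1) : Finset ℕ) :=
    fun a _ b _ hab => Nat.cast_injective hab
  have hne : ∀ i ∈ range (t + 1), x ≠ (fun u : ℕ => (u : ℚ)) i := by
    intro i hi
    have : (i : ℚ) ≤ t := by exact_mod_cast Nat.lt_succ_iff.1 (mem_range.1 hi)
    exact (this.trans_lt hx).ne'
  have h := Lagrange.eval_interpolate_not_at_node (1 : ℕ → ℚ) hne
  rw [Lagrange.interpolate_one hv nonempty_range_add_one, Polynomial.eval_one,
    Lagrange.eval_nodal] at h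
  rw [← eq_inv_of_mul_eq_one_right h.symm]
  refine sum_congr rfl fun u hu => ?_
  rw [Lagrange.nodalWeight, prod_inv_distrib, winv_Approx (Nat.lt_succ_iff.1 (mem_range.1 hu))]
  simp

theorem lagrange_Approx (K J t : ℕ) (h : t < 2 * K) :
    1 = (∑ j ∈ range (J + 1),
        ((∏ u ∈ range (t + 1), (2 * ((K : ℚ) + j) - 2 * u)) *
          ∏ l ∈ range J, (2 * ((K : ℚ) + j) + 2 * (l + 1))) /
        ((∏ l ∈ (range (J + 1)).erase j, (2 * ((K : ℚ) + j) - 2 * (K + l))) *
          ∏ u ∈ range (t + 1), (2 * ((K : ℚ) + j) - u))) +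
      ∑ u ∈ range (t + 1),
        ((∏ w ∈ range (t + 1), ((u : ℚ) - 2 * w)) * ∏ l ∈ range J, ((u : ℚ) + 2 * (l + 1))) /
        ((∏ l ∈ range (J + 1), ((u : ℚ) - 2 * (K + l))) *
          ∏ w ∈ (range (t + 1)).erase u, ((u : ℚ) - w)) := by
  let v : ℕ ⊕ ℕ → ℚ := Sum.elim (fun j => 2 * ((K : ℚ) + j)) fun u => u
  have hv : Set.InjOn v ((range (J + 1)).disjSum (range (t + 1)) : Finset (ℕ ⊕ ℕ)) := by
    have hlt : ∀ a b : ℕ, b < t + 1 → (b : ℚ) < 2 * ((K : ℚ) + a) := by
      intro a b hb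
      exact_mod_cast (by omega : b < 2 * (K + a))
    rintro (a | a) ha (b | b) hb hab
    · have : (a : ℚ) = b := by
        simp only [v, Sum.elim_inl] at hab
        linarith
      exact congrArg _ (Nat.cast_injective this)
    · exact absurd hab (hlt a b (by simpa using hb)).ne'
    · exact absurd hab (hlt b a (by simpa using ha)).ne
    · exact congrArg _ (Nat.cast_injective hab)
  let P : Polynomial ℚ := Lagrange.nodal (range (t + 1)) (fun u : ℕ => 2 * (u : ℚ)) *
    Lagrange.nodal (range J) fun l : ℕ => -(2 * ((l : ℚ) + 1))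
  have hm : P.Monic := Lagrange.nodal_monic.mul Lagrange.nodal_monic
  have hd : (((range (J + 1)).disjSum (range (t + 1))).card : WithBot ℕ) = P.degree + 1 := by
    rw [Polynomial.degree_mul, Lagrange.degree_nodal, Lagrange.degree_nodal, card_disjSum,
      card_range, card_range, card_range]
    norm_cast
    omega
  have key := Lagrange.leadingCoeff_eq_sum hv hd
  have he : ∀ x : ℚ, P.eval x =
      (∏ u ∈ range (t + 1), (x - 2 * u)) * ∏ l ∈ range J, (x + 2 * (l + 1)) := by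
    intro x
    simp only [P, Polynomial.eval_mul, Lagrange.eval_nodal, sub_neg_eq_add]
  have e1 : ∀ j, ((range (J + 1)).disjSum (range (t + 1))).erase (Sum.inl j) =
      ((range (J + 1)).erase j).disjSum (range (t + 1)) := by
    intro j
    ext (a | a) <;> simp
  have e2 : ∀ u, ((range (J + 1)).disjSum (range (t + 1))).erase (Sum.inr u) =
      (range (J + 1)).disjSum ((range (t + 1)).erase u) := by
    intro u
    ext (a | a) <;> simp
  rw [hm.leadingCoeff, sum_disjSum] at key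
  simp only [e1, e2, prod_disjSum, he, v, Sum.elim_inl, Sum.elim_inr] at key
  exact key

theorem main_Approx (K J t j : ℕ) (h : t < 2 * K) (hj : j ≤ J) :
    ((∏ u ∈ range (t + 1), (2 * ((K : ℚ) + j) - 2 * u)) *
          ∏ l ∈ range J, (2 * ((K : ℚ) + j) + 2 * (l + 1))) /
        ((∏ l ∈ (range (J + 1)).erase j, (2 * ((K : ℚ) + j) - 2 * (K + l))) *
          ∏ u ∈ range (t + 1), (2 * ((K : ℚ) + j) - u)) =
      2 ^ (t + 1) * ∑ u ∈ range (t + 1),
        ((-1) ^ (J + j + t + u) * (J.choose j : ℚ) * ((K + j + J).choose J : ℚ) *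
          ((K + j).choose (t + 1) : ℚ) * ((t : ℚ) + 1) * (t.choose u : ℚ)) /
          (2 * ((K : ℚ) + j) - u) := by
  have a1 : ∏ u ∈ range (t + 1), (2 * ((K : ℚ) + j) - 2 * u) =
      2 ^ (t + 1) * ((t + 1).factorial * ((K + j).choose (t + 1) : ℚ)) := by
    have : ∀ u : ℕ, 2 * ((K : ℚ) + j) - 2 * u = 2 * (((K + j : ℕ) : ℚ) - u) := by
      intro u
      push_cast
      ring
    simp only [this]
    rw [prod_mul_distrib, prod_const, card_range, prod_range_natCast_sub,
      ← Nat.descFactorial_eq_prod_range, Nat.descFactorial_eq_factorial_mul_choose, Nat.cast_mul]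
  have a2 : ∏ l ∈ range J, (2 * ((K : ℚ) + j) + 2 * (l + 1)) =
      2 ^ J * (J.factorial * ((K + j + J).choose J : ℚ)) := by
    have : ∀ l : ℕ, 2 * ((K : ℚ) + j) + 2 * (l + 1) = 2 * ((K + j + 1 + l : ℕ) : ℚ) := by
      intro l
      push_cast
      ring
    simp only [this]
    rw [prod_mul_distrib, prod_const, card_range, ← Nat.cast_prod,
      ← Nat.ascFactorial_eq_prod_range, Nat.ascFactorial_eq_factorial_mul_choose, Nat.cast_mul]
  have a3 : ∏ l ∈ (range (J + 1)).erase j, (2 * ((K : ℚ) + j) - 2 * (K + l)) =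
      2 ^ J * ∏ l ∈ (range (J + 1)).erase j, ((j : ℚ) - l) := by
    have : ∀ l : ℕ, 2 * ((K : ℚ) + j) - 2 * (K + l) = 2 * ((j : ℚ) - l) := by
      intro l
      ring
    simp only [this]
    rw [prod_mul_distrib, prod_const, card_erase_of_mem (mem_range.2 (by omega)), card_range,
      Nat.add_sub_cancel]
  have hx : (t : ℚ) < 2 * ((K : ℚ) + j) := by exact_mod_cast (by omega : t < 2 * (K + j))
  rw [a1, a2, a3, div_eq_mul_inv, mul_inv, mul_inv, winv_Approx hj, frac_Approx t _ hx,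
    mul_sum, mul_sum, mul_sum]
  refine sum_congr rfl fun u _ => ?_
  have : (J.factorial : ℚ) ≠ 0 := by positivity
  have : (t.factorial : ℚ) ≠ 0 := by positivity
  rw [Nat.factorial_succ, div_eq_mul_inv _ (2 * ((K : ℚ) + j) - u)]
  generalize (2 * ((K : ℚ) + j) - u)⁻¹ = z
  push_cast
  field_simp
  ring

theorem err_Approx (K J t u : ℕ) (h : 3 * t + 4 * J + 1 ≤ 2 * K) (hu : u ≤ t) :
    |((∏ w ∈ range (t + 1), ((u : ℚ) - 2 * w)) * ∏ l ∈ range J, ((u : ℚ) + 2 * (l + 1))) /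
        ((∏ l ∈ range (J + 1), ((u : ℚ) - 2 * (K + l))) *
          ∏ w ∈ (range (t + 1)).erase u, ((u : ℚ) - w))| ≤ (2 * (t : ℚ) + 2) ^ (t + 1) / 2 ^ J := by
  have hu' : (u : ℚ) ≤ t := by exact_mod_cast hu
  have h' : 3 * (t : ℚ) + 4 * J + 1 ≤ 2 * K := by exact_mod_cast h
  have u0 : (0 : ℚ) ≤ u := Nat.cast_nonneg _
  have J0 : (0 : ℚ) ≤ J := Nat.cast_nonneg _
  have b1 : |∏ w ∈ range (t + 1), ((u : ℚ) - 2 * w)| ≤ (2 * (t : ℚ) + 2) ^ (t + 1) := by
    rw [abs_prod]
    refine (prod_le_prod (fun _ _ => abs_nonneg _) fun w hw => ?_).trans_eq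
      ((prod_const _).trans (by rw [card_range]))
    have : (w : ℚ) ≤ t := by exact_mod_cast Nat.lt_succ_iff.1 (mem_range.1 hw)
    have : (0 : ℚ) ≤ w := Nat.cast_nonneg _
    exact abs_le.2 ⟨by linarith, by linarith⟩
  have b2 : |∏ l ∈ range J, ((u : ℚ) + 2 * (l + 1))| ≤ ((t : ℚ) + 2 * J) ^ J := by
    rw [abs_prod]
    refine (prod_le_prod (fun _ _ => abs_nonneg _) fun l hl => ?_).trans_eq
      ((prod_const _).trans (by rw [card_range]))
    have : (l : ℚ) + 1 ≤ J := by exact_mod_cast mem_range.1 hl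
    have : (0 : ℚ) ≤ l := Nat.cast_nonneg _
    exact abs_le.2 ⟨by linarith, by linarith⟩
  have b3 : (2 * (K : ℚ) - t) ^ (J + 1) ≤ |∏ l ∈ range (J + 1), ((u : ℚ) - 2 * (K + l))| := by
    rw [abs_prod]
    refine ((prod_const _).trans (by rw [card_range])).symm.trans_le
      (prod_le_prod (fun _ _ => by linarith) fun l _ => ?_)
    have : (0 : ℚ) ≤ l := Nat.cast_nonneg _
    exact le_abs.2 (Or.inr (by linarith))
  have b4 := wabs_Approx hu
  have b5 : 2 ^ J * ((t : ℚ) + 2 * J) ^ J ≤ (2 * (K : ℚ) - t) ^ (J + 1) := by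
    rw [← mul_pow]
    exact (pow_le_pow_left₀ (by linarith) (by linarith) J).trans
      (pow_le_pow_right₀ (by linarith) (Nat.le_succ J))
  have b6 : (0 : ℚ) < (2 * (K : ℚ) - t) ^ (J + 1) := pow_pos (by linarith) _
  have b7 : (2 * (K : ℚ) - t) ^ (J + 1) ≤ |∏ l ∈ range (J + 1), ((u : ℚ) - 2 * (K + l))| *
      |∏ w ∈ (range (t + 1)).erase u, ((u : ℚ) - w)| :=
    b3.trans (le_mul_of_one_le_right (abs_nonneg _) b4)
  rw [abs_div, abs_mul, abs_mul, div_le_div_iff₀ (b6.trans_le b7) (by positivity)]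
  calc _ ≤ (2 * (t : ℚ) + 2) ^ (t + 1) * ((t : ℚ) + 2 * J) ^ J * 2 ^ J := by gcongr
    _ = (2 * (t : ℚ) + 2) ^ (t + 1) * (2 ^ J * ((t : ℚ) + 2 * J) ^ J) := by ring
    _ ≤ _ := mul_le_mul_of_nonneg_left (b5.trans b7) (by positivity)

theorem approx_two_pow (K J t : ℕ) (h : 3 * t + 4 * J + 1 ≤ 2 * K) :
    |(∑ j ∈ range (J + 1), ∑ u ∈ range (t + 1),
        ((-1) ^ (J + j + t + u) * (J.choose j : ℚ) * ((K + j + J).choose J : ℚ) *
          ((K + j).choose (t + 1) : ℚ) * ((t : ℚ) + 1) * (t.choose u : ℚ)) /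
          (2 * ((K : ℚ) + j) - u)) - 1 / 2 ^ (t + 1)| ≤ (2 * (t : ℚ) + 2) ^ (t + 2) / 2 ^ J := by
  have ht : t < 2 * K := by omega
  have key := lagrange_Approx K J t ht
  rw [sum_congr rfl fun j hj => main_Approx K J t j ht (Nat.lt_succ_iff.1 (mem_range.1 hj)),
    ← mul_sum] at key
  have err := (abs_sum_le_sum_abs _ _).trans (sum_le_card_nsmul (range (t + 1)) _ _
    fun u hu => err_Approx K J t u h (Nat.lt_succ_iff.1 (mem_range.1 hu)))
  rw [card_range, nsmul_eq_mul] at err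
  generalize (∑ j ∈ range (J + 1), ∑ u ∈ range (t + 1), _ : ℚ) = y at key ⊢
  generalize (∑ u ∈ range (t + 1), _ : ℚ) = r at key err
  have e : y - 1 / 2 ^ (t + 1) = -r / 2 ^ (t + 1) := by
    field_simp
    linarith
  rw [e, abs_div, abs_neg, abs_of_pos (by positivity : (0 : ℚ) < 2 ^ (t + 1))]
  refine (div_le_self (abs_nonneg _) (one_le_pow₀ one_le_two)).trans (err.trans ?_)
  rw [pow_succ' _ (t + 1), mul_div_assoc]
  refine mul_le_mul_of_nonneg_right ?_ (by positivity)
  push_cast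
  linarith [Nat.cast_nonneg (α := ℚ) t]

end Pool.Agent.MP_7d676c_b
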