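import Mathlib
import Pool.Agent.Mg.F2e8011.G7e36c2

/-! Chinese remaindering as a sum over all candidates for a prime. -/

namespace Pool.Agent.MP_7d676c_b

open Finset Pool.Agent.MP_7d676c_lc

/-- the part of `d` that is left after dividing by `m` at most `L` times -/
def cof (L : ℕ) (m d : ℤ) : ℤ := (fun c => if c % m = 0 then c / m else c)^[L] d

theorem cof_spec_Crt (m d : ℤ) (i : ℕ) :
    ∃ e ≤ i, d = m ^ e * cof i m d ∧ (e = i ∨ ¬ m ∣ cof i m d) := by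
  induction i with
  | zero => exact ⟨0, le_rfl, by simp [cof], Or.inl rfl⟩
  | succ i ih =>
    obtain ⟨e, he, hd, hor⟩ := ih
    have hs : cof (i + 1) m d = if cof i m d % m = 0 then cof i m d / m else cof i m d := by
      unfold cof
      rw [Function.iterate_succ_apply']
    by_cases h : cof i m d % m = 0
    · have hdv : m ∣ cof i m d := Int.dvd_of_emod_eq_zero h
      have hei : e = i := hor.resolve_right (fun h' => h' hdv)
      refine ⟨e + 1, by omega, ?_, Or.inl (by omega)⟩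
      rw [hs, if_pos h, pow_succ, mul_assoc, Int.mul_ediv_cancel' hdv]
      exact hd
    · refine ⟨e, by omega, ?_, Or.inr ?_⟩
      · rw [hs, if_neg h]; exact hd
      · rw [hs, if_neg h]; exact fun h' => h (Int.emod_eq_zero_of_dvd h')

theorem cof_pos_Crt (L d m : ℕ) (hd : 0 < d) (hL : d < 2 ^ L) (hm : 2 ≤ m) :
    ∃ e ≤ L, ∃ c : ℕ, cof L m d = c ∧ d = m ^ e * c ∧ ¬ m ∣ c := by
  obtain ⟨e, he, h1, hor⟩ := cof_spec_Crt (m : ℤ) (d : ℤ) L
  have hmp : (0 : ℤ) < (m : ℤ) ^ e := by positivity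
  have hc : 0 < cof L m d := by
    have h2 : (0 : ℤ) < (m : ℤ) ^ e * cof L m d := by rw [← h1]; exact_mod_cast hd
    exact (mul_pos_iff_of_pos_left hmp).1 h2
  obtain ⟨c, hc'⟩ := Int.eq_ofNat_of_zero_le hc.le
  have h3 : d = m ^ e * c := by
    rw [hc'] at h1
    exact_mod_cast h1
  refine ⟨e, he, c, hc', h3, ?_⟩
  rcases hor with h | h
  · exfalso
    have hc0 : 0 < c := by rw [hc'] at hc; exact_mod_cast hc
    have h4 : 2 ^ L ≤ m ^ e := by rw [h]; exact Nat.pow_le_pow_left hm L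
    have h5 : m ^ e ≤ m ^ e * c := Nat.le_mul_of_pos_right _ hc0
    omega
  · intro h'
    apply h
    rw [hc']
    exact_mod_cast h'

theorem powMod_Crt (L d m : ℕ) (hd : 0 < d) (hm : 2 ≤ m) (c : ℤ) :
    powMod d c ((m : ℤ) ^ L * (m - 1)) ≡ c ^ (m ^ L * (m - 1)) [ZMOD d] := by
  have h1 : ((m : ℤ) ^ L * (m - 1)) = ((m ^ L * (m - 1) : ℕ) : ℤ) := by
    have : 1 ≤ m := by omega
    push_cast [this]
    ring
  have hd' : (0 : ℤ) < d := by exact_mod_cast hd
  rw [h1, powMod, rd, if_pos hd', Int.toNat_natCast]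
  exact Int.mod_modEq _ _

theorem crt_sum (L d : ℕ) (hd : 0 < d) (hL : d < 2 ^ L) (x : ℤ) (ι b : ℕ → ℤ)
    (h1 : ∀ p : ℕ, p.Prime → p < 2 ^ L → ι p ≡ 1 [ZMOD (p : ℤ) ^ L])
    (h0 : ∀ m : ℕ, 1 < m → m < 2 ^ L → ¬ m.Prime → (m : ℤ) ^ L ∣ ι m)
    (hb : ∀ p : ℕ, p.Prime → p < 2 ^ L → b p ≡ x [ZMOD (p : ℤ) ^ L]) :
    ∑ m ∈ range (2 ^ L), (if 2 ≤ m then
      ι m * powMod d (cof L m d) ((m : ℤ) ^ L * (m - 1)) * b m else 0) ≡ x [ZMOD d] := by
  rw [Int.modEq_iff_dvd, Int.natCast_dvd, Nat.dvd_iff_prime_pow_dvd_dvd]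
  intro p f hp hpf
  rw [← Int.natCast_dvd, ← Int.modEq_iff_dvd]
  rcases Nat.eq_zero_or_pos f with hf0 | hf0
  · subst hf0
    simp [Int.modEq_one]
  have hle : p ^ f ≤ d := Nat.le_of_dvd hd hpf
  have hpL : p < 2 ^ L := lt_of_le_of_lt ((Nat.le_self_pow hf0.ne' p).trans hle) hL
  have hfL : f ≤ L := by
    have h2 : 2 ^ f ≤ p ^ f := Nat.pow_le_pow_left hp.two_le f
    have h3 : 2 ^ f < 2 ^ L := by omega
    exact ((Nat.pow_lt_pow_iff_right (by norm_num)).1 h3).le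
  have hq : ((p ^ f : ℕ) : ℤ) ∣ (d : ℤ) := by exact_mod_cast hpf
  have hqL : ((p ^ f : ℕ) : ℤ) ∣ (p : ℤ) ^ L := by
    push_cast
    exact pow_dvd_pow _ hfL
  rw [← Finset.add_sum_erase _ _ (Finset.mem_range.2 hpL)]
  have hA : (if 2 ≤ p then
      ι p * powMod d (cof L p d) ((p : ℤ) ^ L * (p - 1)) * b p else 0) ≡ x
        [ZMOD ((p ^ f : ℕ) : ℤ)] := by
    rw [if_pos hp.two_le]
    obtain ⟨e, -, c, hc, -, hnd⟩ := cof_pos_Crt L d p hd hL hp.two_le
    have e1 := (h1 p hp hpL).of_dvd hqL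
    have e3 := (hb p hp hpL).of_dvd hqL
    have e2 := (powMod_Crt L d p hd hp.two_le (cof L p d)).of_dvd hq
    have hco : Nat.Coprime c (p ^ (L + 1)) :=
      Nat.Coprime.pow_right _ ((Nat.Prime.coprime_iff_not_dvd hp).2 hnd).symm
    have e4 := Nat.ModEq.pow_totient hco
    rw [Nat.totient_prime_pow_succ hp] at e4
    have e5 : c ^ (p ^ L * (p - 1)) ≡ 1 [MOD p ^ f] :=
      e4.of_dvd (pow_dvd_pow _ (by omega))
    have e6 : (c : ℤ) ^ (p ^ L * (p - 1)) ≡ 1 [ZMOD ((p ^ f : ℕ) : ℤ)] := by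
      have := (Int.natCast_modEq_iff).2 e5
      simpa using this
    rw [hc] at e2 ⊢
    have := (e1.mul (e2.trans e6)).mul e3
    simpa using this
  have hB : ∑ m ∈ (range (2 ^ L)).erase p, (if 2 ≤ m then
      ι m * powMod d (cof L m d) ((m : ℤ) ^ L * (m - 1)) * b m else 0) ≡ 0
        [ZMOD ((p ^ f : ℕ) : ℤ)] := by
    rw [Int.modEq_zero_iff_dvd]
    refine Finset.dvd_sum fun m hm => ?_
    obtain ⟨hmp, hmL⟩ := Finset.mem_erase.1 hm
    have hmL' := Finset.mem_range.1 hmL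
    split_ifs with h2
    · obtain ⟨e, he, c, hc, hdc, -⟩ := cof_pos_Crt L d m hd hL h2
      have e2 := (powMod_Crt L d m hd h2 (cof L m d)).of_dvd hq
      have hK : m ^ L * (m - 1) ≠ 0 := by
        have : 0 < m ^ L := by positivity
        have : 0 < m - 1 := by omega
        positivity
      rw [hc] at e2 ⊢
      have e3 := (e2.mul_left (ι m)).mul_right (b m)
      refine e3.dvd_iff.2 (Dvd.dvd.mul_right ?_ _)
      by_cases hmq : m.Prime
      · have hco : Nat.Coprime (p ^ f) (m ^ e) :=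
          Nat.Coprime.pow _ _ ((Nat.coprime_primes hp hmq).2 (Ne.symm hmp))
        have h3 : p ^ f ∣ c := hco.dvd_of_dvd_mul_left (hdc ▸ hpf)
        have h4 : ((p ^ f : ℕ) : ℤ) ∣ (c : ℤ) := by exact_mod_cast h3
        exact Dvd.dvd.mul_left (h4.trans (dvd_pow_self _ hK)) _
      · refine hq.trans ?_
        have h3 : (d : ℤ) = (m : ℤ) ^ e * c := by exact_mod_cast hdc
        rw [h3]
        exact mul_dvd_mul ((pow_dvd_pow _ he).trans (h0 m (by omega) hmL' hmq))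
          (dvd_pow_self _ hK)
    · exact dvd_zero _
  simpa using hA.add hB

end Pool.Agent.MP_7d676c_b
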