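import Mathlib
import Pool.Agent.Mg.F2e8011.G7e36c2

/-! Exponential sums of polynomial-time integer functions: closure properties. -/

namespace Pool.Agent.MP_7d676c_b

open Finset Pool.Agent.MP_2e8011_lc Pool.Agent.MP_a6d740_lc Pool.Agent.MP_b0ee3d_lc
  Pool.Agent.MP_7d676c_lc

variable {α β : Type} [Enc α] [Enc β]

/-- Exponential sums of polynomial-time integer functions. -/
def GP (f : α → ℤ) : Prop :=
  ∃ (l : α → ℕ) (v : α → ℤ → ℤ), PT l ∧ PT (fun p : α × ℤ => v p.1 p.2) ∧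
    ∀ a, f a = ∑ u ∈ range (2 ^ l a), v a (u : ℕ)

theorem GP.congr {f g : α → ℤ} (hf : GP f) (e : ∀ a, f a = g a) : GP g := by
  rwa [← funext e]

theorem GP.pt {f : α → ℤ} (hf : PT f) : GP f :=
  ⟨fun _ => 0, fun a _ => f a, by fun_prop, by fun_prop, fun a => by simp⟩

theorem GP.pre {f : α → ℤ} (hf : GP f) {g : β → α} (hg : PT g) : GP (fun b => f (g b)) := by
  obtain ⟨l, v, hl, hv, h⟩ := hf
  exact ⟨fun b => l (g b), fun b u => v (g b) u, hl.comp hg,
    hv.comp (f := fun p : β × ℤ => (g p.1, p.2)) (by fun_prop), fun b => h (g b)⟩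

theorem GP.ite {p : α → Prop} [DecidablePred p] (hp : PT (fun a => decide (p a))) {f g : α → ℤ}
    (hf : GP f) (hg : GP g) : GP (fun a => if p a then f a else g a) := by
  obtain ⟨l, v, hl, hv, h⟩ := hf
  obtain ⟨l', v', hl', hv', h'⟩ := hg
  refine ⟨fun a => if p a then l a else l' a, fun a u => if p a then v a u else v' a u,
    PT.ite hp hl hl', PT.ite (hp.comp (f := fun q : α × ℤ => q.1) (by fun_prop)) hv hv',
    fun a => ?_⟩
  by_cases hpa : p a
  · simp only [if_pos hpa, h a]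
  · simp only [if_neg hpa, h' a]

theorem GP.mul {f g : α → ℤ} (hf : GP f) (hg : GP g) : GP (fun a => f a * g a) := by
  obtain ⟨l, v, hl, hv, h⟩ := hf
  obtain ⟨l', v', hl', hv', h'⟩ := hg
  refine ⟨fun a => l a + l' a, fun a u => v a (u % 2 ^ l a) * v' a (u / 2 ^ l a), by fun_prop,
    pt_intMul (hv.comp (f := fun p : α × ℤ => (p.1, p.2 % 2 ^ l p.1)) (by fun_prop))
      (hv'.comp (f := fun p : α × ℤ => (p.1, p.2 / 2 ^ l p.1)) (by fun_prop)), fun a => ?_⟩
  beta_reduce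
  rw [h a, h' a, sum_mul_sum, pow_add, ← sum_range_mul (2 ^ l a) (2 ^ l' a)
    (fun y w => v a (y : ℕ) * v' a (w : ℕ))]
  refine sum_congr rfl fun W _ => ?_
  push_cast
  rfl

theorem pad_GP {l B : ℕ} (h : l ≤ B) (v : ℤ → ℤ) :
    ∑ u ∈ range (2 ^ l), v (u : ℕ) =
      ∑ u ∈ range (2 ^ B), if ((u : ℕ) : ℤ) < 2 ^ l then v (u : ℕ) else 0 := by
  rw [← sum_filter]
  refine sum_congr ?_ fun _ _ => rfl
  ext u
  have h1 : 2 ^ l ≤ 2 ^ B := Nat.pow_le_pow_right two_pos h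
  have h2 : ((u : ℕ) : ℤ) < 2 ^ l ↔ u < 2 ^ l := by exact_mod_cast Iff.rfl
  simp only [mem_filter, mem_range, h2]
  omega

theorem bound_GP {l' : α × β → ℕ} (hl' : PT l') {C : α → ℕ} (hC : PT C) :
    ∃ B : α → ℕ, PT B ∧ ∀ a b, sz b ≤ C a → l' (a, b) ≤ B a := by
  obtain ⟨p, hp⟩ := hl'.pb
  have hs : PT (fun a : α => sz a) := PT.id.sz
  refine ⟨fun a => p.eval (2 * sz a + 1 + C a), by fun_prop, fun a b hb =>
    (hp _).trans (eval_mono p ?_)⟩
  rw [sz_prod]
  omega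

theorem sz_lt_GP {w l : ℕ} (h : w < 2 ^ l) : sz ((w : ℕ) : ℤ) ≤ 3 * l + 4 :=
  sz_int_le (by rw [abs_of_nonneg (by positivity)]; exact_mod_cast h.le)

theorem GP.sum {f : α × ℤ → ℤ} (hf : GP f) {l : α → ℕ} (hl : PT l) :
    GP (fun a => ∑ w ∈ range (2 ^ l a), f (a, (w : ℕ))) := by
  obtain ⟨l', v, hl', hv, h⟩ := hf
  obtain ⟨B, hB, hb⟩ := bound_GP hl' (C := fun a => 3 * l a + 4) (by fun_prop)
  refine ⟨fun a => l a + B a, fun a W => if W / 2 ^ l a < 2 ^ l' (a, W % 2 ^ l a) then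
      v (a, W % 2 ^ l a) (W / 2 ^ l a) else 0, by fun_prop, PT.ite (by fun_prop)
    (hv.comp (f := fun p : α × ℤ => ((p.1, p.2 % 2 ^ l p.1), p.2 / 2 ^ l p.1)) (by fun_prop))
      (by fun_prop), fun a => ?_⟩
  beta_reduce
  rw [sum_congr rfl fun w hw => (h (a, (w : ℕ))).trans
    (pad_GP (hb a _ (sz_lt_GP (mem_range.1 hw))) _), pow_add,
    ← sum_range_mul (2 ^ l a) (2 ^ B a) (fun y w => if ((w : ℕ) : ℤ) < 2 ^ l' (a, (y : ℕ)) then
      v (a, (y : ℕ)) (w : ℕ) else 0)]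
  refine sum_congr rfl fun W _ => ?_
  push_cast
  rfl

theorem GP.prod {f : α × ℕ → ℤ} (hf : GP f) {n : α → ℕ} (hn : PT n) :
    GP (fun a => ∏ i ∈ range (n a), f (a, i)) := by
  obtain ⟨l', v, hl', hv, h⟩ := hf
  obtain ⟨B, hB, hb⟩ := bound_GP hl' hn
  have hv' : PT (fun p : (α × ℤ) × ℕ =>
      if dig (B p.1.1) p.2 p.1.2 < 2 ^ l' (p.1.1, p.2) then
        v (p.1.1, p.2) (dig (B p.1.1) p.2 p.1.2) else 0) :=
    PT.ite (by fun_prop) (hv.comp
      (f := fun p : (α × ℤ) × ℕ => ((p.1.1, p.2), dig (B p.1.1) p.2 p.1.2)) (by fun_prop))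
      (by fun_prop)
  refine ⟨fun a => B a * n a, fun a W => ((List.range (n a)).map fun i =>
      if dig (B a) i W < 2 ^ l' (a, i) then v (a, i) (dig (B a) i W) else 0).prod, by fun_prop,
    pt_listProd (PT.map (f := fun (p : α × ℤ) i =>
      if dig (B p.1) i p.2 < 2 ^ l' (p.1, i) then v (p.1, i) (dig (B p.1) i p.2) else 0) hv'
      (by fun_prop)), fun a => ?_⟩
  beta_reduce
  simp only [list_range_Sums]
  rw [sum_dig (B a) (n a) fun i y => if y < 2 ^ l' (a, i) then v (a, i) y else 0]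
  refine prod_congr rfl fun i hi => (h (a, i)).trans (pad_GP (hb a i ?_) _)
  rw [sz_nat]
  exact (mem_range.1 hi).le

theorem GP.add {f g : α → ℤ} (hf : GP f) (hg : GP g) : GP (fun a => f a + g a) :=
  ((GP.ite (p := fun p : α × ℤ => p.2 = 0) (by fun_prop) (hf.pre (g := fun p => p.1) (by fun_prop))
    (hg.pre (g := fun p => p.1) (by fun_prop))).sum (l := fun _ => 1) (by fun_prop)).congr
    fun a => by simp [sum_range_succ]

theorem GP.sub {f g : α → ℤ} (hf : GP f) (hg : GP g) : GP (fun a => f a - g a) :=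
  (hf.add ((GP.pt (PT.const (-1))).mul hg)).congr fun a => by ring

theorem GP.pow {f : α → ℤ} (hf : GP f) {n : α → ℕ} (hn : PT n) : GP (fun a => f a ^ n a) :=
  ((hf.pre (g := fun p : α × ℕ => p.1) (by fun_prop)).prod hn).congr fun a => by simp

/-- weighted sums over paths -/
def recSum {σ : Type} (c : σ → ℤ → ℤ) (nx : σ → ℤ → σ) (g : σ → ℤ) (l : ℕ) : ℕ → σ → ℤ
  | 0, s => g s
  | k + 1, s => ∑ w ∈ range (2 ^ l), c s (w : ℕ) * recSum c nx g l k (nx s (w : ℕ))

/-- the state after reading `i` digits -/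
def stAt {σ : Type} (nx : σ → ℤ → σ) (l i : ℕ) (W : ℤ) (s : σ) : σ :=
  ((List.range i).map fun j => dig l j W).foldl nx s

theorem recSum_eq {σ : Type} (c : σ → ℤ → ℤ) (nx : σ → ℤ → σ) (g : σ → ℤ) (l k : ℕ) (s : σ) :
    recSum c nx g l k s = ∑ W ∈ range (2 ^ (l * k)),
      (∏ i ∈ range k, c (stAt nx l i (W : ℕ) s) (dig l i (W : ℕ))) * g (stAt nx l k (W : ℕ) s) := by
  induction k generalizing s with
  | zero => simp [recSum, stAt]
  | succ k ih =>
    have e : ∀ (i W : ℕ), stAt nx l (i + 1) (W : ℕ) s =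
        stAt nx l i ((W / 2 ^ l : ℕ) : ℤ) (nx s ((W % 2 ^ l : ℕ) : ℤ)) := by
      intro i W
      rw [stAt, stAt, List.range_succ_eq_map, List.map_cons, List.foldl_cons, dig_zero_Sums,
        List.map_map]
      congr 1
      refine List.map_congr_left fun j _ => ?_
      exact dig_succ_Sums l j W
    rw [recSum, Nat.mul_succ, add_comm (l * k), pow_add]
    simp only [ih, mul_sum]
    rw [← sum_range_mul (2 ^ l) (2 ^ (l * k)) fun y w => c s (y : ℕ) *
      ((∏ i ∈ range k, c (stAt nx l i (w : ℕ) (nx s (y : ℕ))) (dig l i (w : ℕ))) *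
        g (stAt nx l k (w : ℕ) (nx s (y : ℕ))))]
    refine sum_congr rfl fun W _ => ?_
    rw [prod_range_succ', dig_zero_Sums]
    simp only [e, dig_succ_Sums]
    rw [show stAt nx l 0 (W : ℕ) s = s from rfl]
    ring

theorem GP.recSum {σ : Type} [Enc σ] {c : α → σ → ℤ → ℤ}
    (hc : GP (fun p : α × σ × ℤ => c p.1 p.2.1 p.2.2)) {nx : α → σ → ℤ → σ}
    (hnx : PT (fun p : α × σ × ℤ => nx p.1 p.2.1 p.2.2)) {g : α → σ → ℤ}
    (hg : GP (fun p : α × σ => g p.1 p.2)) {l n : α → ℕ} (hl : PT l) (hn : PT n) {s : α → σ}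
    (hs : PT s) {B : α → ℕ} (hB : PT B) (hb : ∀ a t w, sz (nx a t w) ≤ B a) :
    GP (fun a => recSum (c a) (nx a) (g a) (l a) (n a) (s a)) := by
  have hst : PT (fun p : (α × ℤ) × ℕ => stAt (nx p.1.1) (l p.1.1) p.2 p.1.2 (s p.1.1)) := by
    unfold stAt
    refine PT.foldl (f := fun p : (α × ℤ) × ℕ => nx p.1.1)
      (hnx.comp (f := fun q : ((α × ℤ) × ℕ) × σ × ℤ => (q.1.1.1, q.2)) (by fun_prop))
      (by fun_prop) (by fun_prop) (B := fun p => sz (s p.1.1) + B p.1.1)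
      (PT.pb (by fun_prop)) fun p k => ?_
    generalize List.take k _ = m
    induction m using List.reverseRecOn with
    | nil => simp
    | append_singleton m x _ =>
      rw [List.foldl_append, List.foldl_cons, List.foldl_nil]
      exact (hb _ _ _).trans (Nat.le_add_left _ _)
  have h0 : PT (fun p : (α × ℤ) × ℕ =>
      (p.1.1, stAt (nx p.1.1) (l p.1.1) p.2 p.1.2 (s p.1.1), dig (l p.1.1) p.2 p.1.2)) :=
    PT.prodMk (by fun_prop) (PT.prodMk hst (by fun_prop))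
  have h1 : GP (fun p : α × ℤ => ∏ i ∈ range (n p.1),
      c p.1 (stAt (nx p.1) (l p.1) i p.2 (s p.1)) (dig (l p.1) i p.2)) :=
    (hc.pre h0).prod (n := fun p => n p.1) (by fun_prop)
  have h3 : PT (fun p : α × ℤ => (p.1, stAt (nx p.1) (l p.1) (n p.1) p.2 (s p.1))) :=
    PT.prodMk (by fun_prop) (hst.comp (f := fun p : α × ℤ => (p, n p.1)) (by fun_prop))
  have h2 : GP (fun p : α × ℤ => g p.1 (stAt (nx p.1) (l p.1) (n p.1) p.2 (s p.1))) := hg.pre h3
  refine ((h1.mul h2).sum (l := fun a => l a * n a) (by fun_prop)).congr fun a => ?_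
  rw [recSum_eq]

theorem GP.frac {f d : α × ℤ → ℤ} (hf : GP f) (hd : PT d) {l : α → ℕ} (hl : PT l) :
    ∃ (G : α → ℤ) (s : α → ℕ), GP G ∧ PT s ∧ ∀ a, (∀ w < 2 ^ l a, 0 < d (a, (w : ℕ))) →
      |(G a : ℚ) / 2 ^ s a - ∑ w ∈ range (2 ^ l a), (f (a, (w : ℕ)) : ℚ) / d (a, (w : ℕ))| ≤
        1 / 64 := by
  obtain ⟨l', v, hl', hv, h⟩ := hf
  obtain ⟨B, hB, hb⟩ := bound_GP hl' (C := fun a => 3 * l a + 4) (by fun_prop)
  have h1 : GP (fun p : α × ℤ => ∑ u ∈ range (2 ^ l' p),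
      2 ^ (l p.1 + B p.1 + 6) * v p (u : ℕ) / d p) :=
    ⟨l', fun p u => 2 ^ (l p.1 + B p.1 + 6) * v p u / d p, hl',
      pt_ediv (pt_intMul (by fun_prop) hv) (by fun_prop), fun _ => rfl⟩
  refine ⟨_, fun a => l a + B a + 6, h1.sum hl, by fun_prop, fun a ha => ?_⟩
  beta_reduce
  have hS : (0 : ℚ) < 2 ^ (l a + B a + 6) := by positivity
  push_cast
  rw [sum_div, ← sum_sub_distrib]
  refine (abs_sum_le_sum_abs _ _).trans ((sum_le_card_nsmul _ _
    ((2 : ℚ) ^ B a / 2 ^ (l a + B a + 6)) fun w hw => ?_).trans (le_of_eq ?_))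
  · have hw' := mem_range.1 hw
    have hd0 := ha w hw'
    have hd1 : (0 : ℚ) < d (a, (w : ℕ)) := by exact_mod_cast hd0
    rw [h (a, (w : ℕ)), Int.cast_sum, sum_div, sum_div, ← sum_sub_distrib]
    refine (abs_sum_le_sum_abs _ _).trans ((sum_le_card_nsmul _ _
      (1 / 2 ^ (l a + B a + 6)) fun u _ => ?_).trans ?_)
    · generalize v (a, (w : ℕ)) (u : ℕ) = x
      generalize d (a, (w : ℕ)) = m at hd0 hd1
      have e1 := Int.mul_ediv_add_emod (2 ^ (l a + B a + 6) * x) m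
      have e2 := Int.emod_nonneg (2 ^ (l a + B a + 6) * x) hd0.ne'
      have e3 := Int.emod_lt_of_pos (2 ^ (l a + B a + 6) * x) hd0
      generalize 2 ^ (l a + B a + 6) * x / m = y at e1 ⊢
      generalize 2 ^ (l a + B a + 6) * x % m = r at e1 e2 e3
      have e4 : (m : ℚ) * y + r = 2 ^ (l a + B a + 6) * x := by exact_mod_cast e1
      have e5 : (0 : ℚ) ≤ r := by exact_mod_cast e2
      have e6 : (r : ℚ) < m := by exact_mod_cast e3
      have e7 : (y : ℚ) / 2 ^ (l a + B a + 6) - x / m = -(r / m) / 2 ^ (l a + B a + 6) := by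
        field_simp
        linear_combination e4
      rw [e7, abs_div, abs_neg, abs_of_pos hS, abs_of_nonneg (by positivity)]
      exact div_le_div_of_nonneg_right ((div_le_one hd1).2 e6.le) hS.le
    · rw [card_range, nsmul_eq_mul, mul_one_div]
      refine div_le_div_of_nonneg_right ?_ hS.le
      push_cast
      exact pow_le_pow_right₀ (by norm_num) (hb a _ (sz_lt_GP hw'))
  · rw [card_range, nsmul_eq_mul, pow_add, pow_add]
    push_cast
    field_simp
    norm_num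

theorem GP.oc (hd : Dec α) {f : α → ℤ} (hf : GP f) : ∃ A ∈ PP, OC A f := by
  obtain ⟨l, v, hl, hv, h⟩ := hf
  let w : ℕ × α → ℤ → ℤ := fun p u =>
    if p.1 = 0 then (if 0 < v p.2 u then v p.2 u else 0) else (if 0 < v p.2 u then 0 else -v p.2 u)
  have hv' : PT (fun q : (ℕ × α) × ℤ => v q.1.2 q.2) :=
    hv.comp (f := fun q : (ℕ × α) × ℤ => (q.1.2, q.2)) (by fun_prop)
  have h1 : SP (fun p : ℕ × α => ∑ u ∈ range (2 ^ l p.2), w p (u : ℕ)) := by
    refine ⟨fun p => l p.2, w, by fun_prop, ?_, fun p u => ?_, fun _ => rfl⟩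
    · simp only [w]
      exact PT.ite (by fun_prop) (PT.ite (pt_intLt (PT.const 0) hv') hv' (PT.const 0))
        (PT.ite (pt_intLt (PT.const 0) hv') (PT.const 0) (pt_intNeg hv'))
    · simp only [w]
      split_ifs <;> omega
  obtain ⟨A, hA, ho⟩ := h1.oc (dec_prod dec_nat hd)
  refine ⟨A, hA, (((ho.pre (g := fun a => (0, a)) (by fun_prop)).pair
    (ho.pre (g := fun a => (1, a)) (by fun_prop))).post (v := fun z => z.2.1 - z.2.2)
    (by fun_prop)).congr fun a => ?_⟩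
  rw [h a, ← sum_sub_distrib]
  refine sum_congr rfl fun u _ => ?_
  simp only [w, if_true, one_ne_zero, if_false]
  split_ifs <;> omega

@[fun_prop] theorem pt_intPow {f : α → ℤ} {n : α → ℕ} (hf : PT f) (hn : PT n) :
    PT (fun a => f a ^ n a) :=
  (pt_listProd (pt_replicate hn hf)).congr fun a => by simp

@[fun_prop] theorem pt_listSum {l : α → List ℤ} (hl : PT l) : PT (fun a => (l a).sum) := by
  have key : ∀ m : List ℤ, |m.sum| ≤ 2 ^ sz m := by
    intro m
    induction m with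
    | nil => simp
    | cons z m ih =>
      rw [List.sum_cons, sz_cons]
      have h1 : |z| ≤ 2 ^ (2 * sz z + sz m) :=
        (abs_lt_sz z).le.trans (pow_le_pow_right₀ (by norm_num) (by omega))
      have h2 : |m.sum| ≤ 2 ^ (2 * sz z + sz m) :=
        ih.trans (pow_le_pow_right₀ (by norm_num) (by omega))
      have h3 := abs_add_le z m.sum
      rw [show 2 * sz z + 1 + sz m = 2 * sz z + sz m + 1 by omega, pow_succ]
      omega
  exact pt_foldr (f := fun _ (x y : ℤ) => x + y) (by fun_prop) hl (PT.const 0)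
    (B := fun a => 3 * sz (l a) + 4) (((PB.const 3).mul hl.pb_sz).add (PB.const 4)) fun a k =>
      sz_int_le ((key _).trans (pow_le_pow_right₀ (by norm_num) (sz_drop_le _ _)))

/-- binary to unary, capped -/
def un (c : ℕ) (x : ℤ) : ℕ := min x.toNat c

@[fun_prop] theorem pt_un {c : α → ℕ} {x : α → ℤ} (hc : PT c) (hx : PT x) :
    PT (fun a => un (c a) (x a)) :=
  pt_cap (pt_pos hx) hc

end Pool.Agent.MP_7d676c_b
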