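import Mathlib
import Pool.Agent.Mg.F2e8011.G7e36c2

/-! An indicator of primes modulo `m ^ L`, and Chinese remaindering over all candidates. -/

namespace Pool.Agent.MP_7d676c_b

open Finset Pool.Agent.MP_7d676c_lc

/-- the sum of one factor, as an integer -/
def FS (L : ℕ) (m : ℤ) (s : Spec) : ℤ := ∑ y ∈ range (2 ^ L), fac m s (y : ℕ)

/-- a factor that vanishes when there are `2 ^ (j + 2)` square roots of one -/
def indF (L : ℕ) (m : ℤ) (j : ℕ) : ℤ :=
  if (2 ^ (j + 2) - 2) % m = 0 then 1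
  else FS L m (true, 2 ^ (j + 2), 0) * powMod m (2 ^ (j + 2) - 2) (m - 2)

/-- the indicator of primes modulo `m` -/
def ind0 (L : ℕ) (m : ℤ) : ℤ :=
  if m = 2 then 1 else if m % 2 = 0 then 0
  else FS L m (false, 0, 0) ^ L * ∏ j ∈ range L, indF L m j

/-- the indicator of primes modulo `m ^ L` -/
def ind (L : ℕ) (m : ℤ) : ℤ := 1 - (1 - ind0 L m ^ L) ^ L

theorem cast_FS_Ind (L m : ℕ) (s : Spec) : ((FS L m s : ℤ) : ZMod m) = facSum L m s := rfl

theorem ind0_prime_Ind (L p : ℕ) (hp : p.Prime) (hL : p < 2 ^ L) :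
    ((ind0 L p : ℤ) : ZMod p) = 1 := by
  have : Fact p.Prime := ⟨hp⟩
  unfold ind0
  split_ifs with h2 hev
  · exact Int.cast_one
  · exfalso
    have h3 : 2 ∣ p := by omega
    have := (Nat.prime_dvd_prime_iff_eq Nat.prime_two hp).1 h3
    omega
  have h2' : 2 < p := by
    have := hp.two_le
    omega
  have : Fact (2 < p) := ⟨h2'⟩
  have hI : (univ.filter fun x : ZMod p => x * x = 1).card = 2 := by
    rw [← card_pair (ZMod.neg_one_ne_one (n := p)).symm]
    congr 1
    ext x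
    simp [mul_self_eq_one_iff]
  have h0 : facSum L p (false, 0, 0) = 1 := by
    simpa using facSum_choose L p 0 0 hp hL.le (by omega) (by omega)
  rw [Int.cast_mul, Int.cast_pow, cast_FS_Ind, h0, one_pow, one_mul, Int.cast_prod]
  refine prod_eq_one fun j _ => ?_
  unfold indF
  split_ifs with h3
  · exact Int.cast_one
  have h4 : ((2 ^ (j + 2) - 2 : ℤ) : ZMod p) ≠ 0 := fun h =>
    h3 (Int.emod_eq_zero_of_dvd ((ZMod.intCast_zmod_eq_zero_iff_dvd _ p).1 h))
  have h5 : ((powMod p (2 ^ (j + 2) - 2) (p - 2) : ℤ) : ZMod p) =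
      ((2 ^ (j + 2) - 2 : ℤ) : ZMod p) ^ (p - 2) := by
    rw [powMod, (ZMod.intCast_eq_intCast_iff _ _ _).2 (rd_modEq (by exact_mod_cast hp.pos) _),
      Int.cast_pow]
    congr 1
    omega
  rw [Int.cast_mul, cast_FS_Ind, facSum_true_Ind hp.one_lt hL.le, hI, h5]
  have h6 : (((2 ^ (j + 2) : ℤ) : ZMod p) - ((2 : ℕ) : ZMod p)) =
      ((2 ^ (j + 2) - 2 : ℤ) : ZMod p) := by
    push_cast
    rfl
  rw [h6, ← pow_succ', show p - 2 + 1 = p - 1 by omega]
  exact ZMod.pow_card_sub_one_eq_one h4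

theorem ind0_comp_Ind (L m : ℕ) (h1 : 1 < m) (hL : m < 2 ^ L) (hm : ¬ m.Prime) :
    (m : ℤ) ∣ ind0 L m := by
  unfold ind0
  split_ifs with h2 hev
  · exfalso
    have h3 : m = 2 := by omega
    exact hm (h3 ▸ Nat.prime_two)
  · exact dvd_zero _
  have hodd : m % 2 = 1 := by omega
  have : NeZero m := ⟨by omega⟩
  have hp : m.minFac.Prime := Nat.minFac_prime (by omega)
  have hpm : m.minFac ∣ m := Nat.minFac_dvd m
  generalize m.minFac = p at hp hpm
  obtain ⟨k, c, hc, e⟩ := Nat.exists_eq_pow_mul_and_not_dvd (n := m) (by omega) p hp.ne_one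
  have hk : k ≠ 0 := by
    rintro rfl
    rw [pow_zero, one_mul] at e
    exact hc (e ▸ hpm)
  have odd : ∀ d, d ∣ m → d ≠ 1 → 2 < d := by
    intro d hd hd1
    have h0 : d ≠ 0 := by
      rintro rfl
      have := Nat.eq_zero_of_zero_dvd hd
      omega
    have h2 : d ≠ 2 := by
      rintro rfl
      omega
    omega
  by_cases hc1 : c = 1
  · subst hc1
    rw [mul_one] at e
    have hk1 : k ≠ 1 := by
      rintro rfl
      rw [pow_one] at e
      exact hm (e ▸ hp)
    have hk6 : k < L := by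
      refine (Nat.pow_lt_pow_iff_right one_lt_two).1 (lt_of_le_of_lt ?_ hL)
      rw [e]
      exact Nat.pow_le_pow_left hp.two_le k
    have e' : m = p * p ^ (k - 1) := by
      rw [← pow_succ', Nat.sub_add_cancel (by omega), e]
    have hd := dvd_sum_Ind hp.pos (pow_pos hp.pos (k - 1)) (dvd_pow_self p (by omega))
    rw [← e'] at hd
    refine Dvd.dvd.mul_right ?_ _
    rw [FS, sum_fac_Ind hL.le]
    refine dvd_trans ?_ (pow_dvd_pow_of_dvd hd _)
    rw [e]
    push_cast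
    exact pow_dvd_pow _ hk6.le
  · obtain ⟨j, hj⟩ := card_pow_Ind m
    have hbig : 2 < (univ.filter fun x : ZMod m => x * x = 1).card := by
      have hb : 2 < p ^ k := odd _ (e ▸ dvd_mul_right _ _)
        (Nat.one_lt_pow hk hp.one_lt).ne'
      have hc2 : 2 < c := odd _ (e ▸ dvd_mul_left _ _) hc1
      subst e
      exact card_big_Ind hb hc2 (((Nat.Prime.coprime_iff_not_dvd hp).2 hc).pow_left k)
    have hle : 2 ^ j ≤ m := by
      rw [← hj]
      exact (card_le_univ _).trans (ZMod.card m).le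
    have hj6 : j < L := (Nat.pow_lt_pow_iff_right one_lt_two).1 (hle.trans_lt hL)
    have hj2 : 1 < j := by
      rw [hj] at hbig
      exact (Nat.pow_lt_pow_iff_right one_lt_two).1 (by simpa using hbig)
    refine Dvd.dvd.mul_left ?_ _
    refine dvd_trans ?_ (dvd_prod_of_mem _ (mem_range.2 (show j - 2 < L by omega)))
    have hbig' : (2 : ℤ) < 2 ^ j := by
      rw [hj] at hbig
      exact_mod_cast hbig
    have hle' : (2 : ℤ) ^ j ≤ m := by exact_mod_cast hle
    rw [indF, Nat.sub_add_cancel hj2, if_neg (by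
      rw [Int.emod_eq_of_lt (by omega) (by omega)]
      omega)]
    refine Dvd.dvd.mul_right ?_ _
    rw [← ZMod.intCast_zmod_eq_zero_iff_dvd, cast_FS_Ind, facSum_true_Ind h1 hL.le, hj]
    push_cast
    exact sub_self _

theorem ind_of_prime (L p : ℕ) (hp : p.Prime) (hL : p < 2 ^ L) :
    ind L p ≡ 1 [ZMOD (p : ℤ) ^ L] := by
  have h1 : (p : ℤ) ∣ 1 - ind0 L p ^ L := by
    rw [← ZMod.intCast_zmod_eq_zero_iff_dvd]
    push_cast
    rw [ind0_prime_Ind L p hp hL, one_pow, sub_self]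
  refine (Int.modEq_iff_dvd.2 ?_)
  rw [ind, sub_sub_cancel]
  exact pow_dvd_pow_of_dvd h1 L

theorem ind_of_not_prime (L m : ℕ) (h1 : 1 < m) (hL : m < 2 ^ L) (hm : ¬ m.Prime) :
    (m : ℤ) ^ L ∣ ind L m := by
  refine (pow_dvd_pow_of_dvd (ind0_comp_Ind L m h1 hL hm) L).trans ?_
  have h := sub_dvd_pow_sub_pow (1 : ℤ) (1 - ind0 L m ^ L) L
  rwa [sub_sub_cancel, one_pow] at h

end Pool.Agent.MP_7d676c_b
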