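import Mathlib

/-! One step of a Lucas type recursion for binomial coefficients modulo a prime power. -/

namespace Pool.Agent.MP_7d676c_b

open Finset

/-- the coefficients of the recursion -/
def gam (E z a : ℕ) : ℤ := ∑ r ∈ range E, (-1) ^ (r + a) * (z.choose r : ℤ) * (r.choose a : ℤ)

theorem range_eq_Level {R : Type} [AddCommMonoid R] (f : ℕ → R) (m n : ℕ)
    (hm : ∀ i, m ≤ i → f i = 0) (hn : ∀ i, n ≤ i → f i = 0) :
    ∑ i ∈ range m, f i = ∑ i ∈ range n, f i := by
  have h : ∀ k, (∀ i, k ≤ i → f i = 0) → k ≤ m + n →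
      ∑ i ∈ range k, f i = ∑ i ∈ range (m + n), f i := fun k hk hk' =>
    sum_subset (range_subset_range.2 hk') fun i _ hi => hk i (by simpa using hi)
  rw [h m hm (by omega), h n hn (by omega)]

theorem pow_Level {R : Type} [CommRing R] (A B : R) (E z : ℕ) (h : (A - B) ^ E = 0) :
    A ^ z = ∑ a ∈ range E, if a ≤ z then (gam E z a : R) * A ^ a * B ^ (z - a) else 0 := by
  have h1 : A ^ z = ∑ r ∈ range E, (A - B) ^ r * B ^ (z - r) * (z.choose r : R) := by
    rw [← range_eq_Level _ (z + 1) E, ← add_pow, sub_add_cancel]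
    · intro i hi
      rw [Nat.choose_eq_zero_of_lt hi, Nat.cast_zero, mul_zero]
    · intro i hi
      rw [pow_eq_zero_of_le hi h, zero_mul, zero_mul]
  have h2 : ∀ r ∈ range E, (A - B) ^ r * B ^ (z - r) * (z.choose r : R) =
      ∑ a ∈ range E, if a ≤ z then
        (-1) ^ (r + a) * (z.choose r : R) * (r.choose a : R) * A ^ a * B ^ (z - a) else 0 := by
    intro r hr
    rcases lt_or_ge z r with hz | hz
    · simp [Nat.choose_eq_zero_of_lt hz]
    · have h0 : ∀ i, r + 1 ≤ i → (if i ≤ z then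
          (-1) ^ (r + i) * (z.choose r : R) * (r.choose i : R) * A ^ i * B ^ (z - i) else 0) = 0 :=
        fun i hi => by simp [Nat.choose_eq_zero_of_lt hi]
      rw [← range_eq_Level _ (r + 1) E h0 fun i hi => h0 i (by have := mem_range.1 hr; omega),
        sub_pow, sum_mul, sum_mul]
      refine sum_congr rfl fun a ha => ?_
      have ha' : a ≤ r := by have := mem_range.1 ha; omega
      have e : z - a = r - a + (z - r) := by omega
      rw [if_pos (ha'.trans hz), e, pow_add B, add_comm r a]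
      ring
  rw [h1, sum_congr rfl h2, sum_comm]
  refine sum_congr rfl fun a _ => ?_
  split_ifs
  · unfold gam
    push_cast
    rw [sum_mul, sum_mul]
  · simp

open Polynomial in
theorem coeff_Level {R : Type} [CommRing R] (p n m j : ℕ) (hp : 0 < p) :
    (((1 + X) ^ n * (1 + X ^ p) ^ m : R[X])).coeff j =
      ∑ i ∈ range (j + 1), if p * i ≤ j then (n.choose (j - p * i) : R) * (m.choose i : R) else 0 := by
  rw [← range_eq_Level _ (m + 1) (j + 1), add_comm 1 (X ^ p : R[X]), add_pow (X ^ p : R[X]), mul_sum,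
    finsetSum_coeff]
  · refine sum_congr rfl fun i _ => ?_
    rw [one_pow, mul_one, ← pow_mul, ← mul_assoc, coeff_mul_natCast, coeff_mul_X_pow',
      coeff_one_add_X_pow]
    split_ifs <;> simp
  · intro i hi
    simp [Nat.choose_eq_zero_of_lt hi]
  · intro i hi
    rw [if_neg]
    have := Nat.le_mul_of_pos_left i hp
    omega

open Polynomial in
theorem nil_Level (p E : ℕ) (hp : p.Prime) :
    (((1 + X) ^ p - (1 + X ^ p) : (ZMod (p ^ E))[X])) ^ E = 0 := by
  obtain ⟨r, hr⟩ := exists_add_pow_prime_eq hp (1 : (ZMod (p ^ E))[X]) X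
  have h : ((p : (ZMod (p ^ E))[X])) ^ E = 0 := by
    rw [← Nat.cast_pow, ← C_eq_natCast, ZMod.natCast_self, C_0]
  rw [hr, one_pow, add_sub_cancel_left, mul_pow, mul_pow, mul_pow, h]
  simp

theorem level_choose (p E z0 z1 j : ℕ) (hp : p.Prime) :
    ((z0 + p * z1).choose j : ZMod (p ^ E)) =
      ∑ a ∈ range E, ∑ i ∈ range (j + 1), if a ≤ z1 ∧ p * i ≤ j then
        (gam E z1 a : ZMod (p ^ E)) * ((z0 + p * a).choose (j - p * i) : ZMod (p ^ E)) *
          ((z1 - a).choose i : ZMod (p ^ E)) else 0 := by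
  rw [← Polynomial.coeff_one_add_X_pow, pow_add, pow_mul, pow_Level _ _ E z1 (nil_Level p E hp),
    mul_sum, Polynomial.finsetSum_coeff]
  refine sum_congr rfl fun a _ => ?_
  by_cases ha : a ≤ z1
  · rw [if_pos ha, ← pow_mul, mul_assoc, mul_left_comm, ← mul_assoc (_ ^ z0), ← pow_add,
      Polynomial.coeff_intCast_mul, coeff_Level _ _ _ _ hp.pos, mul_sum]
    refine sum_congr rfl fun i _ => ?_
    simp only [ha, true_and]
    split_ifs
    · rw [mul_assoc]
    · rw [mul_zero]
  · simp [ha]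

end Pool.Agent.MP_7d676c_b
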