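import Mathlib

/-! Binomial coefficients modulo a prime power as sums over Teichmueller representatives. -/

namespace Pool.Agent.MP_7d676c_b

open Finset

theorem pow_congr_Teich (p E a b : ℕ) (h : (a : ZMod p) = (b : ZMod p)) :
    (a : ZMod (p ^ E)) ^ p ^ E = (b : ZMod (p ^ E)) ^ p ^ E := by
  have h1 : (p : ℤ) ∣ (a : ℤ) - (b : ℤ) := by
    rw [← ZMod.intCast_zmod_eq_zero_iff_dvd]
    push_cast
    rw [h, sub_self]
  obtain ⟨k, hk⟩ := h1
  have h2 : ((p : ℕ) : ZMod (p ^ E)) ∣ (a : ZMod (p ^ E)) - (b : ZMod (p ^ E)) := by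
    refine ⟨(k : ZMod (p ^ E)), ?_⟩
    have := congrArg (Int.cast : ℤ → ZMod (p ^ E)) hk
    push_cast at this
    exact this
  have h3 := dvd_sub_pow_of_dvd_sub h2 E
  have h4 : ((p : ℕ) : ZMod (p ^ E)) ^ (E + 1) = 0 := by
    rw [pow_succ, ← Nat.cast_pow, ZMod.natCast_self, zero_mul]
  rw [h4, zero_dvd_iff, sub_eq_zero] at h3
  exact h3

/-- The Teichmueller lift as a monoid homomorphism. -/
def tm_Teich (p E : ℕ) [Fact p.Prime] : ZMod p →* ZMod (p ^ E) where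
  toFun x := ((x.val : ℕ) : ZMod (p ^ E)) ^ p ^ E
  map_one' := by rw [ZMod.val_one, Nat.cast_one, one_pow]
  map_mul' x y := by
    rw [← mul_pow, ← Nat.cast_mul]
    apply pow_congr_Teich
    simp

theorem unit_Teich (p E : ℕ) [hp : Fact p.Prime] (h : ZMod p) (h1 : h ≠ 1) :
    IsUnit (tm_Teich p E h - 1) := by
  have hnd : ¬ (p : ℤ) ∣ ((h.val : ℤ) ^ p ^ E - 1) := by
    rw [← ZMod.intCast_zmod_eq_zero_iff_dvd]
    push_cast
    rw [ZMod.natCast_zmod_val, ZMod.pow_card_pow, sub_eq_zero]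
    exact h1
  have hc : IsCoprime (p : ℤ) ((h.val : ℤ) ^ p ^ E - 1) :=
    ((Nat.prime_iff_prime_int.1 hp.out).irreducible.coprime_iff_not_dvd).2 hnd
  obtain ⟨u, w, huw⟩ := hc.pow_left (m := E)
  have := congrArg (Int.cast : ℤ → ZMod (p ^ E)) huw
  push_cast at this
  have h4 : ((p : ℕ) : ZMod (p ^ E)) ^ E = 0 := by
    rw [← Nat.cast_pow, ZMod.natCast_self]
  rw [h4, mul_zero, zero_add, mul_comm] at this
  exact IsUnit.of_mul_eq_one _ this

theorem sum_units_Teich (p E m : ℕ) [hp : Fact p.Prime] :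
    ∑ x : (ZMod p)ˣ, tm_Teich p E x ^ m =
      if p - 1 ∣ m then (p : ZMod (p ^ E)) - 1 else 0 := by
  have key := FiniteField.forall_pow_eq_one_iff (ZMod p) m
  rw [ZMod.card] at key
  split_ifs with h
  · have h2 : ∀ x : (ZMod p)ˣ, tm_Teich p E x ^ m = 1 := by
      intro x
      rw [← map_pow, ← Units.val_pow_eq_pow_val, key.2 h x, Units.val_one, map_one]
    simp only [h2, sum_const, card_univ, ZMod.card_units, nsmul_eq_mul, mul_one]
    rw [Nat.cast_sub hp.out.one_le, Nat.cast_one]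
  · rw [← key] at h
    push Not at h
    obtain ⟨g, hg⟩ := h
    have hu : IsUnit (tm_Teich p E ((g ^ m : (ZMod p)ˣ) : ZMod p) - 1) :=
      unit_Teich p E _ (fun h => hg (Units.val_eq_one.1 h))
    have h3 : ∑ x : (ZMod p)ˣ, tm_Teich p E x ^ m =
        ∑ x : (ZMod p)ˣ, tm_Teich p E ((g * x : (ZMod p)ˣ) : ZMod p) ^ m :=
      (Fintype.sum_equiv (Equiv.mulLeft g) _ _ (fun _ => rfl)).symm
    have h4 : (tm_Teich p E ((g ^ m : (ZMod p)ˣ) : ZMod p) - 1) *
        ∑ x : (ZMod p)ˣ, tm_Teich p E x ^ m = 0 := by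
      rw [sub_mul, one_mul, sub_eq_zero]
      conv_rhs => rw [h3]
      rw [mul_sum]
      refine sum_congr rfl fun x _ => ?_
      rw [Units.val_mul, map_mul, mul_pow, Units.val_pow_eq_pow_val, map_pow]
    exact (hu.mul_right_eq_zero).1 h4

theorem sum_Ico_Teich (p E : ℕ) [hp : Fact p.Prime] (f : ZMod (p ^ E) → ZMod (p ^ E)) :
    ∑ y ∈ Finset.Ico 1 p, f ((y : ZMod (p ^ E)) ^ p ^ E) =
      ∑ x : (ZMod p)ˣ, f (tm_Teich p E x) := by
  symm
  refine sum_bij (fun x _ => (x : ZMod p).val) ?_ ?_ ?_ ?_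
  · intro x _
    rw [mem_Ico]
    refine ⟨?_, ZMod.val_lt _⟩
    rw [Nat.one_le_iff_ne_zero, Ne, ZMod.val_eq_zero]
    exact x.ne_zero
  · intro x _ y _ h
    exact Units.ext (ZMod.val_injective p h)
  · intro y hy
    rw [mem_Ico] at hy
    have h0 : (y : ZMod p) ≠ 0 := by
      rw [Ne, ZMod.natCast_eq_zero_iff]
      intro hd
      have := Nat.le_of_dvd (by omega) hd
      omega
    refine ⟨Units.mk0 _ h0, mem_univ _, ?_⟩
    simp [ZMod.val_natCast, Nat.mod_eq_of_lt hy.2]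
  · intro x _
    rfl

theorem teich_choose (p E c v : ℕ) (hp : p.Prime) (hc : c + 2 ≤ p) (hv : v ≤ c) :
    ∑ y ∈ Finset.Ico 1 p, (1 + (y : ZMod (p ^ E)) ^ p ^ E) ^ c *
        ((y : ZMod (p ^ E)) ^ p ^ E) ^ (p - 1 - v) =
      ((p : ZMod (p ^ E)) - 1) * (c.choose v : ZMod (p ^ E)) := by
  have := Fact.mk hp
  rw [sum_Ico_Teich p E (fun t => (1 + t) ^ c * t ^ (p - 1 - v))]
  have h2 : ∀ k ∈ range (c + 1), ∑ x : (ZMod p)ˣ,
      tm_Teich p E x ^ k * 1 ^ (c - k) * (c.choose k : ZMod (p ^ E)) *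
        tm_Teich p E x ^ (p - 1 - v) =
        if k = v then ((p : ZMod (p ^ E)) - 1) * (c.choose v : ZMod (p ^ E)) else 0 := by
    intro k hk
    have hk' := mem_range.1 hk
    have h3 : ∀ y : ZMod (p ^ E),
        y ^ k * 1 ^ (c - k) * (c.choose k : ZMod (p ^ E)) * y ^ (p - 1 - v) =
        (c.choose k : ZMod (p ^ E)) * y ^ (k + (p - 1 - v)) := fun y => by ring
    simp only [h3]
    rw [← mul_sum, sum_units_Teich]
    by_cases h : k = v
    · subst h
      rw [if_pos rfl, if_pos (by rw [show k + (p - 1 - k) = p - 1 by omega]), mul_comm]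
    · rw [if_neg h, if_neg, mul_zero]
      rintro ⟨d, hd⟩
      rcases d with _ | _ | d
      · omega
      · omega
      · rw [Nat.mul_succ, Nat.mul_succ] at hd
        omega
  simp only [add_comm (1 : ZMod (p ^ E)), add_pow, sum_mul]
  rw [sum_comm, sum_congr rfl h2, sum_ite_eq', if_pos (mem_range.2 (by omega))]

end Pool.Agent.MP_7d676c_b
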