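import Mathlib
import Pool.Agent.MP_7d676c_b.GP
import Pool.Agent.MP_7d676c_b.Teich
import Pool.Agent.MP_7d676c_b.Level
import Pool.Agent.MP_7d676c_b.Ind
import Pool.Agent.MP_7d676c_b.Crt

/-! Binomial coefficients modulo an arbitrary number are exponential sums. -/

namespace Pool.Agent.MP_7d676c_b

open Finset Pool.Agent.MP_2e8011_lc Pool.Agent.MP_a6d740_lc Pool.Agent.MP_b0ee3d_lc
  Pool.Agent.MP_7d676c_lc

/-- binomial coefficient with a small lower index -/
def bc (z : ℤ) (r : ℕ) : ℤ :=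
  ((List.range r).map fun i : ℕ => z - i).prod / ((List.range r).map fun i : ℕ => (i : ℤ) + 1).prod

/-- the coefficients of the recursion -/
def gamZ (E : ℕ) (z : ℤ) (a : ℕ) : ℤ :=
  ((List.range E).map fun r : ℕ => (if (r + a) % 2 = 0 then 1 else -1) * bc z r * bc r a).sum

/-- summand for the binomial coefficients below the prime -/
def baseT (L : ℕ) (p c v y : ℤ) : ℤ :=
  if 1 ≤ y ∧ y < p then powMod (p ^ L) (1 + powMod (p ^ L) y (p ^ L)) c *
    powMod (p ^ L) (powMod (p ^ L) y (p ^ L)) (p - 1 - v) else 0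

/-- binomial coefficients below the prime -/
def base (L : ℕ) (p c v : ℤ) : ℤ :=
  if c < v then 0 else if c ≤ 1 then 1 else
    (∑ y ∈ range (2 ^ L), baseT L p c v (y : ℕ)) * -((List.range L).map fun i => p ^ i).sum

/-- the part of the exponent that is treated in one step -/
def chunk (p z : ℤ) : ℤ :=
  if z ≤ (if p ≤ 3 then 1 else p - 2) then z else if p ≤ 3 then 1 else p - 2

/-- weights of the inner recursion -/
def inC (L : ℕ) (p : ℤ) (s : ℤ × ℤ) (w : ℤ) : ℤ :=
  if w ≤ s.2 then base L p (chunk p s.1) w else 0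

/-- transitions of the inner recursion -/
def inN (L : ℕ) (p : ℤ) (s : ℤ × ℤ) (w : ℤ) : ℤ × ℤ :=
  ((s.1 - chunk p s.1) % 2 ^ (2 * L), (s.2 - w) % 2 ^ (2 * L))

/-- final weights -/
def fin0 (s : ℤ × ℤ) : ℤ := if s.2 = 0 then 1 else 0

/-- binomial coefficients with upper index below `p * L` -/
def innB (L : ℕ) (p z j : ℤ) : ℤ := recSum (inC L p) (inN L p) fin0 L (3 * L) (z, j)

/-- weights of the outer recursion -/
def outC (L : ℕ) (p : ℤ) (s : ℤ × ℤ) (w : ℤ) : ℤ :=
  if w % 2 ^ L < L ∧ w % 2 ^ L ≤ s.1 / p ∧ p * (w / 2 ^ L) ≤ s.2 then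
    gamZ L (s.1 / p) (un L (w % 2 ^ L)) *
      innB L p (s.1 % p + p * (w % 2 ^ L)) (s.2 - p * (w / 2 ^ L))
  else 0

/-- transitions of the outer recursion -/
def outN (L : ℕ) (p : ℤ) (s : ℤ × ℤ) (w : ℤ) : ℤ × ℤ :=
  ((s.1 / p - w % 2 ^ L) % 2 ^ L, w / 2 ^ L % 2 ^ L)

/-- binomial coefficients modulo `p ^ L` -/
def outB (L : ℕ) (p n j : ℤ) : ℤ := recSum (outC L p) (outN L p) fin0 (L + L) L (n, j)

/-- binomial coefficients modulo `d` -/
def bin (L : ℕ) (n j d : ℤ) : ℤ :=
  ∑ m ∈ range (2 ^ L), if (2 : ℤ) ≤ (m : ℕ) then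
    ind L (m : ℕ) * powMod d (cof L (m : ℕ) d) (((m : ℕ) : ℤ) ^ L * ((m : ℕ) - 1)) *
      outB L (m : ℕ) n j else 0

theorem bc_eq (z r : ℕ) : bc z r = z.choose r := by
  have h1 : ∀ r : ℕ, ((List.range r).map fun i : ℕ => (z : ℤ) - i).prod = z.descFactorial r := by
    intro r
    induction r with
    | zero => simp
    | succ r ih =>
      rw [List.prod_range_succ, ih, Nat.descFactorial_succ]
      by_cases h : r ≤ z
      · push_cast [h]
        ring
      · rw [Nat.descFactorial_of_lt (by omega)]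
        simp
  have h2 : ∀ r : ℕ, ((List.range r).map fun i : ℕ => (i : ℤ) + 1).prod = r.factorial := by
    intro r
    induction r with
    | zero => simp
    | succ r ih =>
      rw [List.prod_range_succ, ih, Nat.factorial_succ]
      push_cast
      ring
  rw [bc, h1, h2, Nat.descFactorial_eq_factorial_mul_choose]
  push_cast
  exact Int.mul_ediv_cancel_left _ (by exact_mod_cast r.factorial_ne_zero)

theorem gamZ_eq (E z a : ℕ) : gamZ E z a = gam E z a := by
  rw [gamZ, gam]
  induction E with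
  | zero => simp
  | succ E ih =>
    rw [List.sum_range_succ, sum_range_succ, ih, bc_eq, bc_eq]
    congr 3
    split_ifs with h
    · rw [Even.neg_one_pow (Nat.even_iff.2 h)]
    · rw [Odd.neg_one_pow (Nat.odd_iff.2 (by omega))]

theorem base_eq (L p c v : ℕ) (hp : p.Prime) (hL : p < 2 ^ L) (hc : c ≤ 1 ∨ c + 2 ≤ p) :
    ((base L p c v : ℤ) : ZMod (p ^ L)) = c.choose v := by
  rw [base]
  split_ifs with h1 h2
  · rw [Nat.choose_eq_zero_of_lt (by omega)]
    simp
  · have h3 : c.choose v = 1 := by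
      have h4 : v ≤ c := by omega
      have h5 : c ≤ 1 := by omega
      interval_cases c <;> interval_cases v <;> rfl
    rw [h3]
    simp
  · have hpos : 0 < p ^ L := pow_pos hp.pos L
    have e1 : ((∑ y ∈ range (2 ^ L), baseT L p c v (y : ℕ) : ℤ) : ZMod (p ^ L)) =
        ((p : ZMod (p ^ L)) - 1) * (c.choose v : ZMod (p ^ L)) := by
      rw [← teich_choose p L c v hp (by omega) (by omega), Int.cast_sum]
      symm
      refine sum_subset_zero_on_sdiff (fun y hy => ?_) (fun y hy => ?_) fun y hy => ?_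
      · have := mem_Ico.1 hy
        exact mem_range.2 (by omega)
      · have h4 := (mem_sdiff.1 hy).2
        rw [mem_Ico] at h4
        rw [baseT, if_neg (by omega), Int.cast_zero]
      · have h4 := mem_Ico.1 hy
        have e : (p : ℤ) - 1 - v = ((p - 1 - v : ℕ) : ℤ) := by omega
        have e' : (p : ℤ) ^ L = ((p ^ L : ℕ) : ℤ) := by push_cast; rfl
        rw [baseT, if_pos (by omega), e, e', Int.cast_mul, cast_powMod hpos,
          cast_powMod hpos, Int.cast_add, cast_powMod hpos]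
        simp
    have e2 : ∀ k : ℕ, ((((List.range k).map fun i => (p : ℤ) ^ i).sum : ℤ) : ZMod (p ^ L)) *
        ((p : ZMod (p ^ L)) - 1) = (p : ZMod (p ^ L)) ^ k - 1 := by
      intro k
      induction k with
      | zero => simp
      | succ k ih =>
        rw [List.sum_range_succ, Int.cast_add, add_mul, ih]
        push_cast
        ring
    have e3 := e2 L
    rw [← Nat.cast_pow, ZMod.natCast_self] at e3
    rw [Int.cast_mul, e1, Int.cast_neg]
    linear_combination (-(c.choose v : ZMod (p ^ L))) * e3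

theorem sum_range_zero {M : Type*} [AddCommMonoid M] (f : ℕ → M) {A B : ℕ}
    (hA : ∀ w, A ≤ w → f w = 0) (hB : ∀ w, B ≤ w → f w = 0) :
    ∑ w ∈ range A, f w = ∑ w ∈ range B, f w := by
  rcases le_total A B with h | h
  · exact sum_subset (range_subset_range.2 h) fun w _ hw => hA w (by simpa using hw)
  · exact (sum_subset (range_subset_range.2 h) fun w _ hw => hB w (by simpa using hw)).symm

theorem fin0_eq (R : Type*) [Ring R] (j : ℕ) :
    ((fin0 (((0 : ℕ) : ℤ), (j : ℤ)) : ℤ) : R) = (Nat.choose 0 j : ℕ) := by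
  rw [fin0]
  rcases j with _ | j
  · simp
  · rw [if_neg (by simp only; omega)]
    simp

theorem inn_rec (L p : ℕ) (hp : p.Prime) (hL : p < 2 ^ L) (k z j : ℕ) (hz : z < 2 ^ (2 * L))
    (hj : j < 2 ^ (2 * L)) (hk : z ≤ k * max 1 (p - 2)) :
    ((recSum (inC L p) (inN L p) fin0 L k ((z : ℤ), (j : ℤ)) : ℤ) : ZMod (p ^ L)) = z.choose j := by
  induction k generalizing z j with
  | zero =>
    obtain rfl : z = 0 := by omega
    exact fin0_eq _ j
  | succ k ih =>
    have h2 := hp.two_le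
    obtain ⟨c, hc, hc1, hc2, hc3⟩ : ∃ c : ℕ, chunk p z = c ∧ c ≤ z ∧ (c ≤ 1 ∨ c + 2 ≤ p) ∧
        z - c ≤ k * max 1 (p - 2) := by
      refine ⟨min z (max 1 (p - 2)), ?_, by omega, by omega, ?_⟩
      · rw [chunk]
        split_ifs <;> omega
      · rw [Nat.succ_mul] at hk
        omega
    have hB : ((2 ^ (2 * L) : ℕ) : ℤ) = 2 ^ (2 * L) := by push_cast; rfl
    have e : ∀ w : ℕ, ((inC L p ((z : ℤ), (j : ℤ)) w *
        recSum (inC L p) (inN L p) fin0 L k (inN L p ((z : ℤ), (j : ℤ)) w) : ℤ) : ZMod (p ^ L)) =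
        if w ≤ j then ((c.choose w * (z - c).choose (j - w) : ℕ) : ZMod (p ^ L)) else 0 := by
      intro w
      rw [inC]
      by_cases hw : w ≤ j
      · have e1 : inN L p ((z : ℤ), (j : ℤ)) w = (((z - c : ℕ) : ℤ), ((j - w : ℕ) : ℤ)) := by
          rw [inN, hc, Int.emod_eq_of_lt (by simp only; omega) (by simp only; omega),
            Int.emod_eq_of_lt (by simp only; omega) (by simp only; omega)]
          simp only [Prod.mk.injEq]
          omega
        rw [if_pos (by simp only; omega), if_pos hw, e1, Int.cast_mul,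
          ih _ _ (by omega) (by omega) hc3, hc, base_eq L p c w hp hL hc2, Nat.cast_mul]
      · rw [if_neg (by simp only; omega), if_neg hw, zero_mul, Int.cast_zero]
    rw [recSum, Int.cast_sum]
    simp only [e]
    rw [sum_range_zero _ (B := j + 1) (fun w hw => ?_) fun w hw => if_neg (by omega)]
    · conv_rhs => rw [show z = c + (z - c) by omega, Nat.add_choose_eq,
        Nat.sum_antidiagonal_eq_sum_range_succ_mk, Nat.cast_sum]
      exact sum_congr rfl fun w hw => if_pos (by have := mem_range.1 hw; omega)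
    · rw [Nat.choose_eq_zero_of_lt (by omega)]
      simp

theorem inn_eq (L p : ℕ) (hp : p.Prime) (hL : p < 2 ^ L) (z j : ℕ) (hz : z < p * L)
    (hj : j < 2 ^ (2 * L)) : ((innB L p z j : ℤ) : ZMod (p ^ L)) = z.choose j := by
  have h1 : L < 2 ^ L := Nat.lt_two_pow_self
  refine inn_rec L p hp hL _ z j (hz.trans_le ?_) hj (hz.le.trans ?_)
  · rw [two_mul, pow_add]
    exact Nat.mul_le_mul hL.le h1.le
  · calc p * L ≤ 3 * max 1 (p - 2) * L := Nat.mul_le_mul_right _ (by omega)
      _ = _ := by ring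

theorem out_rec (L p : ℕ) (hp : p.Prime) (hL : p < 2 ^ L) (k z j : ℕ) (hz : z < 2 ^ L)
    (hj : j < 2 ^ L) (hk : z < 2 ^ k) :
    ((recSum (outC L p) (outN L p) fin0 (L + L) k ((z : ℤ), (j : ℤ)) : ℤ) : ZMod (p ^ L)) =
      z.choose j := by
  induction k generalizing z j with
  | zero =>
    obtain rfl : z = 0 := by omega
    exact fin0_eq _ j
  | succ k ih =>
    have h2 := hp.two_le
    have h1 : L < 2 ^ L := Nat.lt_two_pow_self
    have hB : ((2 ^ L : ℕ) : ℤ) = 2 ^ L := by push_cast; rfl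
    have hLL : 2 ^ L ≤ 2 ^ (2 * L) := Nat.pow_le_pow_right two_pos (by omega)
    obtain ⟨z1, hz1⟩ : ∃ z1, z1 = z / p := ⟨_, rfl⟩
    obtain ⟨z0, hz0⟩ : ∃ z0, z0 = z % p := ⟨_, rfl⟩
    have a1 : z = z0 + p * z1 := by rw [hz0, hz1, Nat.mod_add_div]
    have a2 : z0 < p := hz0 ▸ Nat.mod_lt _ hp.pos
    have a3 : 2 * z1 ≤ p * z1 := Nat.mul_le_mul_right _ h2
    have a4 : (z : ℤ) / p = z1 := by rw [hz1]; push_cast; rfl
    have a5 : (z : ℤ) % p = z0 := by rw [hz0]; push_cast; rfl
    rw [pow_succ] at hk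
    have e : ∀ W : ℕ, W < 2 ^ L * 2 ^ L → ((outC L p ((z : ℤ), (j : ℤ)) W *
        recSum (outC L p) (outN L p) fin0 (L + L) k (outN L p ((z : ℤ), (j : ℤ)) W) : ℤ) :
          ZMod (p ^ L)) = (fun a i : ℕ => if a < L ∧ a ≤ z1 ∧ p * i ≤ j then
            (gam L z1 a : ZMod (p ^ L)) * ((z0 + p * a).choose (j - p * i) : ZMod (p ^ L)) *
              ((z1 - a).choose i : ZMod (p ^ L)) else 0) (W % 2 ^ L) (W / 2 ^ L) := by
      intro W hW
      have b1 : (W : ℤ) % 2 ^ L = ((W % 2 ^ L : ℕ) : ℤ) := by push_cast; rfl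
      have b2 : (W : ℤ) / 2 ^ L = ((W / 2 ^ L : ℕ) : ℤ) := by push_cast; rfl
      have b3 : W / 2 ^ L < 2 ^ L := Nat.div_lt_of_lt_mul hW
      rw [outC, outN]
      simp only [a4, a5, b1, b2]
      generalize W % 2 ^ L = a
      generalize W / 2 ^ L = i at b3
      have b4 : (p : ℤ) * i = ((p * i : ℕ) : ℤ) := by push_cast; rfl
      have b5 : (p : ℤ) * a = ((p * a : ℕ) : ℤ) := by push_cast; rfl
      rw [b4, b5]
      by_cases hw : a < L ∧ a ≤ z1 ∧ p * i ≤ j
      · have b6 : un L (a : ℤ) = a := by rw [un, Int.toNat_natCast]; omega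
        have b7 : z0 + p * a < p * L := by
          have := Nat.mul_le_mul_left p (show a + 1 ≤ L by omega)
          rw [mul_add] at this
          omega
        rw [if_pos (by omega), if_pos hw, b6, gamZ_eq,
          Int.emod_eq_of_lt (a := (z1 : ℤ) - a) (by omega) (by omega),
          Int.emod_eq_of_lt (a := (i : ℤ)) (by omega) (by omega),
          ← Nat.cast_sub hw.2.1, ← Nat.cast_sub hw.2.2, ← Nat.cast_add, Int.cast_mul, Int.cast_mul,
          ih _ _ (by omega) b3 (by omega), inn_eq L p hp hL _ _ b7 (by omega)]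
      · rw [if_neg (by omega), if_neg hw, zero_mul, Int.cast_zero]
    rw [recSum, Int.cast_sum, pow_add, sum_congr rfl fun W hW => e W (mem_range.1 hW),
      sum_range_mul (2 ^ L) (2 ^ L) fun a i : ℕ => if a < L ∧ a ≤ z1 ∧ p * i ≤ j then
        (gam L z1 a : ZMod (p ^ L)) * ((z0 + p * a).choose (j - p * i) : ZMod (p ^ L)) *
          ((z1 - a).choose i : ZMod (p ^ L)) else 0]
    conv_rhs => rw [a1, level_choose p L z0 z1 j hp]
    rw [sum_range_zero _ (B := L) (fun a ha => sum_eq_zero fun i _ => if_neg (by omega))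
      fun a ha => sum_eq_zero fun i _ => if_neg (by omega)]
    refine sum_congr rfl fun a ha => ?_
    have ha' := mem_range.1 ha
    have c1 : ∀ i, i ≤ p * i := fun i => Nat.le_mul_of_pos_left i hp.pos
    rw [sum_range_zero _ (B := j + 1) (fun i hi => if_neg (by have := c1 i; omega))
      fun i hi => if_neg (by have := c1 i; omega)]
    exact sum_congr rfl fun i _ => if_congr (by omega) rfl rfl

theorem bin_modEq (L n j d : ℕ) (hn : n < 2 ^ L) (hj : j < 2 ^ L) (hd : 0 < d) (hL : d < 2 ^ L) :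
    bin L n j d ≡ n.choose j [ZMOD d] := by
  have := crt_sum L d hd hL (n.choose j) (fun m => ind L m) (fun m => outB L m n j)
    (ind_of_prime L) (ind_of_not_prime L) fun p hp hpL => by
      rw [← Nat.cast_pow, ← ZMod.intCast_eq_intCast_iff, outB, out_rec L p hp hpL L n j hn hj hn,
        Int.cast_natCast]
  rw [bin]
  refine Int.ModEq.trans (Eq.subst (motive := fun x => _ ≡ x [ZMOD d]) ?_ (Int.ModEq.refl _)) this
  exact sum_congr rfl fun m _ => if_congr (by omega) rfl rfl

section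

variable {α : Type} [Enc α]

@[fun_prop] theorem pt_bc {z : α → ℤ} {r : α → ℕ} (hz : PT z) (hr : PT r) :
    PT (fun x => bc (z x) (r x)) := by
  unfold bc
  fun_prop

@[fun_prop] theorem pt_gamZ {E a : α → ℕ} {z : α → ℤ} (hE : PT E) (hz : PT z) (ha : PT a) :
    PT (fun x => gamZ (E x) (z x) (a x)) := by
  unfold gamZ
  fun_prop

@[fun_prop] theorem pt_baseT {L : α → ℕ} {p c v y : α → ℤ} (hL : PT L) (hp : PT p) (hc : PT c)
    (hv : PT v) (hy : PT y) : PT (fun x => baseT (L x) (p x) (c x) (v x) (y x)) := by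
  unfold baseT
  fun_prop

@[fun_prop] theorem pt_chunk {p z : α → ℤ} (hp : PT p) (hz : PT z) :
    PT (fun x => chunk (p x) (z x)) := by
  unfold chunk
  fun_prop

@[fun_prop] theorem pt_cof {L : α → ℕ} {m d : α → ℤ} (hL : PT L) (hm : PT m) (hd : PT d) :
    PT (fun x => cof (L x) (m x) (d x)) := by
  unfold cof
  refine PT.iterP (g := fun x c => if c % m x = 0 then c / m x else c) (by fun_prop) hL hd
    (B := fun x => 3 * sz (d x) + 4) (PT.pb (by fun_prop)) fun x i _ =>
      sz_int_le (le_trans ?_ (abs_lt_sz _).le)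
  induction i with
  | zero => exact le_rfl
  | succ i ih =>
    rw [Function.iterate_succ_apply']
    have := ih (by omega)
    split_ifs
    · exact (Int.abs_ediv_le_abs _ _).trans this
    · exact this

theorem gp_base {L : α → ℕ} {p c v : α → ℤ} (hL : PT L) (hp : PT p) (hc : PT c) (hv : PT v) :
    GP (fun x => base (L x) (p x) (c x) (v x)) := by
  unfold base
  refine GP.ite (by fun_prop) (GP.pt (by fun_prop)) (GP.ite (by fun_prop) (GP.pt (by fun_prop))
    (GP.mul ?_ (GP.pt (by fun_prop))))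
  exact GP.sum (f := fun y : α × ℤ => baseT (L y.1) (p y.1) (c y.1) (v y.1) y.2)
    (GP.pt (by fun_prop)) hL

theorem sz_pair_Bin (k : ℕ) (x y : ℤ) : sz (x % 2 ^ k, y % 2 ^ k) ≤ 9 * k + 13 := by
  have h : ∀ u : ℤ, sz (u % 2 ^ k) ≤ 3 * k + 4 := fun u => sz_int_le (by
    rw [abs_of_nonneg (Int.emod_nonneg _ (by positivity))]
    exact (Int.emod_lt_of_pos _ (by positivity)).le)
  have h1 := h x
  have h2 := h y
  rw [sz_prod]
  omega

theorem gp_fin0 : GP (fun x : α × ℤ × ℤ => fin0 x.2) := by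
  unfold fin0
  exact GP.pt (by fun_prop)

theorem gp_innB {L : α → ℕ} {p z j : α → ℤ} (hL : PT L) (hp : PT p) (hz : PT z) (hj : PT j) :
    GP (fun x => innB (L x) (p x) (z x) (j x)) := by
  unfold innB
  refine GP.recSum (c := fun x => inC (L x) (p x)) ?_ (nx := fun x => inN (L x) (p x)) ?_
    (g := fun _ => fin0) gp_fin0 hL (by fun_prop) (by fun_prop)
    (B := fun x => 9 * (2 * L x) + 13) (by fun_prop) fun _ _ _ => sz_pair_Bin _ _ _
  · unfold inC
    exact GP.ite (by fun_prop) (gp_base (by fun_prop) (by fun_prop) (by fun_prop) (by fun_prop))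
      (GP.pt (by fun_prop))
  · unfold inN
    fun_prop

theorem gp_outB {L : α → ℕ} {p z j : α → ℤ} (hL : PT L) (hp : PT p) (hz : PT z) (hj : PT j) :
    GP (fun x => outB (L x) (p x) (z x) (j x)) := by
  unfold outB
  refine GP.recSum (c := fun x => outC (L x) (p x)) ?_ (nx := fun x => outN (L x) (p x)) ?_
    (g := fun _ => fin0) gp_fin0 (by fun_prop) hL (by fun_prop)
    (B := fun x => 9 * L x + 13) (by fun_prop) fun _ _ _ => sz_pair_Bin _ _ _
  · unfold outC
    exact GP.ite (by fun_prop) ((GP.pt (by fun_prop)).mul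
      (gp_innB (by fun_prop) (by fun_prop) (by fun_prop) (by fun_prop))) (GP.pt (by fun_prop))
  · unfold outN
    fun_prop

theorem gp_FS {L : α → ℕ} {m : α → ℤ} {s : α → Spec} (hL : PT L) (hm : PT m) (hs : PT s) :
    GP (fun x => FS (L x) (m x) (s x)) :=
  GP.sum (f := fun y : α × ℤ => fac (m y.1) (s y.1) y.2) (GP.pt (by fun_prop)) hL

theorem gp_ind {L : α → ℕ} {m : α → ℤ} (hL : PT L) (hm : PT m) :
    GP (fun x => ind (L x) (m x)) := by
  have h1 : GP (fun y : α × ℕ => indF (L y.1) (m y.1) y.2) := by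
    unfold indF
    exact GP.ite (by fun_prop) (GP.pt (by fun_prop))
      ((gp_FS (by fun_prop) (by fun_prop) (by fun_prop)).mul (GP.pt (by fun_prop)))
  have h2 : GP (fun x => ind0 (L x) (m x)) := by
    unfold ind0
    exact GP.ite (by fun_prop) (GP.pt (by fun_prop)) (GP.ite (by fun_prop) (GP.pt (by fun_prop))
      (((gp_FS hL hm (by fun_prop)).pow hL).mul (h1.prod hL)))
  exact (GP.pt (PT.const 1)).sub (((GP.pt (PT.const 1)).sub (h2.pow hL)).pow hL)

theorem gp_bin {L : α → ℕ} {n j d : α → ℤ} (hL : PT L) (hn : PT n) (hj : PT j) (hd : PT d) :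
    GP (fun x => bin (L x) (n x) (j x) (d x)) := by
  have h1 : GP (fun y : α × ℤ => if (2 : ℤ) ≤ y.2 then
      ind (L y.1) y.2 * powMod (d y.1) (cof (L y.1) y.2 (d y.1)) (y.2 ^ L y.1 * (y.2 - 1)) *
        outB (L y.1) y.2 (n y.1) (j y.1) else 0) :=
    GP.ite (by fun_prop) (((gp_ind (by fun_prop) (by fun_prop)).mul (GP.pt (by fun_prop))).mul
      (gp_outB (by fun_prop) (by fun_prop) (by fun_prop) (by fun_prop))) (GP.pt (by fun_prop))
  exact h1.sum hL

end

end Pool.Agent.MP_7d676c_b
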