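import Mathlib
import Pool.Agent.MP_7d676c_b.Bin
import Pool.Agent.MP_7d676c_b.Approx

/-! Roundings of `(2 N + 1) / 2 ^ t`: fractional parts and residues are exponential sums. -/

namespace Pool.Agent.MP_7d676c_b

open Finset Pool.Agent.MP_2e8011_lc Pool.Agent.MP_a6d740_lc Pool.Agent.MP_b0ee3d_lc
  Pool.Agent.MP_7d676c_lc

/-- the denominators -/
def den (a : ℕ) (t V : ℤ) : ℤ :=
  if V % 2 ^ (2 * a) ≤ 2 ^ (2 * a - 2) ∧ V / 2 ^ (2 * a) ≤ t then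
    2 * (2 ^ (2 * a) + V % 2 ^ (2 * a)) - V / 2 ^ (2 * a) else 1

/-- the numerators modulo `m` -/
def num (nm : ℤ → ℤ) (a : ℕ) (t V m : ℤ) : ℤ :=
  if V % 2 ^ (2 * a) ≤ 2 ^ (2 * a - 2) ∧ V / 2 ^ (2 * a) ≤ t then
    ((if (V % 2 ^ (2 * a) + t + V / 2 ^ (2 * a)) % 2 = 0 then 1 else -1) * (2 * (2 * nm m + 1)) *
      (t + 1)) * (bin (6 * a) (2 ^ (2 * a - 2)) (V % 2 ^ (2 * a)) m *
      bin (6 * a) (2 ^ (2 * a) + V % 2 ^ (2 * a) + 2 ^ (2 * a - 2)) (2 ^ (2 * a - 2)) m *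
      bin (6 * a) (2 ^ (2 * a) + V % 2 ^ (2 * a)) (t + 1) m * bin (6 * a) t (V / 2 ^ (2 * a)) m)
  else 0

/-- the numerators -/
def AA (N : ℤ) (a t j u : ℕ) : ℤ :=
  if j ≤ 2 ^ (2 * a - 2) ∧ u ≤ t then
    ((-1) ^ (2 ^ (2 * a - 2) + j + t + u) * (2 * (2 * N + 1)) * ((t : ℤ) + 1)) *
      (((2 ^ (2 * a - 2)).choose j : ℤ) *
      ((2 ^ (2 * a) + j + 2 ^ (2 * a - 2)).choose (2 ^ (2 * a - 2)) : ℤ) *
      ((2 ^ (2 * a) + j).choose (t + 1) : ℤ) * (t.choose u : ℤ))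
  else 0

/-- the integer part -/
def ZZ (N : ℤ) (nm : ℤ → ℤ) (a t : ℕ) : ℤ :=
  ∑ V ∈ range (2 ^ (4 * a)), (AA N a t (V % 2 ^ (2 * a)) (V / 2 ^ (2 * a)) -
    num nm a t (V : ℕ) (den a t (V : ℕ))) / den a t (V : ℕ)

/-- the integer part modulo `q` -/
def XQ (nm : ℤ → ℤ) (a : ℕ) (t q : ℤ) : ℤ :=
  ∑ V ∈ range (2 ^ (4 * a)), (num nm a t (V : ℕ) q - num nm a t (V : ℕ) (den a t (V : ℕ))) *
    powMod q (den a t (V : ℕ)) (q - 2)

theorem pows_Core {a : ℕ} (ha : 8 ≤ a) : 4 * 2 ^ (2 * a - 2) = 2 ^ (2 * a) ∧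
    256 * 2 ^ a ≤ 2 ^ (2 * a) ∧ 4 * 2 ^ (2 * a) ≤ 2 ^ (6 * a) ∧ 256 ≤ 2 ^ a := by
  have h1 : 2 ^ 8 ≤ 2 ^ a := Nat.pow_le_pow_right two_pos ha
  refine ⟨?_, ?_, ?_, h1⟩
  · rw [show 2 * a = 2 + (2 * a - 2) by omega, pow_add]
    norm_num
  · rw [two_mul, pow_add]
    exact Nat.mul_le_mul_right _ h1
  · calc 4 * 2 ^ (2 * a) = 2 ^ (2 * a + 2) := by ring
      _ ≤ _ := Nat.pow_le_pow_right two_pos (by omega)

theorem den_eq (a t V : ℕ) : den a t V =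
    if V % 2 ^ (2 * a) ≤ 2 ^ (2 * a - 2) ∧ V / 2 ^ (2 * a) ≤ t then
      2 * (((2 ^ (2 * a) : ℕ) : ℤ) + (V % 2 ^ (2 * a) : ℕ)) - (V / 2 ^ (2 * a) : ℕ) else 1 := by
  rw [den]
  refine if_congr ?_ ?_ rfl
  · norm_cast
  · push_cast
    rfl

theorem den_range {a t : ℕ} (ha : 8 ≤ a) (ht : t ≤ 2 ^ a + 1) (V : ℕ) :
    ∃ d : ℕ, den a t V = d ∧ 0 < d ∧ d ≤ 3 * 2 ^ (2 * a) := by
  obtain ⟨h1, h2, h3, h4⟩ := pows_Core ha
  rw [den_eq]
  generalize V % 2 ^ (2 * a) = j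
  generalize V / 2 ^ (2 * a) = u
  split_ifs with h
  · exact ⟨2 * (2 ^ (2 * a) + j) - u, by omega, by omega, by omega⟩
  · exact ⟨1, rfl, by omega, by omega⟩

theorem num_modEq {N : ℤ} {nm : ℤ → ℤ} (hN : Res N nm) {a t : ℕ} (ha : 8 ≤ a)
    (ht : t ≤ 2 ^ a + 1) (V m : ℕ) (hm : 0 < m) (hL : m < 2 ^ (6 * a)) :
    num nm a t V m ≡ AA N a t (V % 2 ^ (2 * a)) (V / 2 ^ (2 * a)) [ZMOD m] := by
  obtain ⟨h1, h2, h3, h4⟩ := pows_Core ha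
  have b1 : (V : ℤ) % 2 ^ (2 * a) = ((V % 2 ^ (2 * a) : ℕ) : ℤ) := by push_cast; rfl
  have b2 : (V : ℤ) / 2 ^ (2 * a) = ((V / 2 ^ (2 * a) : ℕ) : ℤ) := by push_cast; rfl
  have b3 : (2 : ℤ) ^ (2 * a) = ((2 ^ (2 * a) : ℕ) : ℤ) := by push_cast; rfl
  have b4 : (2 : ℤ) ^ (2 * a - 2) = ((2 ^ (2 * a - 2) : ℕ) : ℤ) := by push_cast; rfl
  have b5 : 2 ^ (2 * a - 2) % 2 = 0 := by
    rw [show 2 * a - 2 = 2 * a - 3 + 1 by omega, pow_succ]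
    omega
  rw [num, AA, b1, b2, b3, b4]
  generalize V % 2 ^ (2 * a) = j
  generalize V / 2 ^ (2 * a) = u
  generalize 2 ^ (2 * a - 2) = J at *
  generalize 2 ^ (2 * a) = K at *
  by_cases h : j ≤ J ∧ u ≤ t
  · rw [if_pos (by omega), if_pos h]
    have c1 := bin_modEq (6 * a) J j m (by omega) (by omega) hm hL
    have c2 := bin_modEq (6 * a) (K + j + J) J m (by omega) (by omega) hm hL
    have c3 := bin_modEq (6 * a) (K + j) (t + 1) m (by omega) (by omega) hm hL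
    have c4 := bin_modEq (6 * a) t u m (by omega) (by omega) hm hL
    have c5 : (if ((j : ℤ) + t + u) % 2 = 0 then (1 : ℤ) else -1) = (-1) ^ (J + j + t + u) := by
      split_ifs with h5
      · rw [Even.neg_one_pow (Nat.even_iff.2 (by omega))]
      · rw [Odd.neg_one_pow (Nat.odd_iff.2 (by omega))]
    have c6 := hN m (by exact_mod_cast hm)
    push_cast at c2 c3
    rw [c5]
    exact (((Int.ModEq.refl _).mul (((c6.mul_left 2).add_right 1).mul_left 2)).mul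
      (Int.ModEq.refl _)).mul (((c1.mul c2).mul c3).mul c4)
  · rw [if_neg (by omega), if_neg h]

theorem err_Core {a t : ℕ} (ha : 8 ≤ a) (ht : t ≤ 2 ^ a + 1) {N : ℤ}
    (hs : |N| ≤ 2 ^ 2 ^ (a - 8)) :
    |((2 * (2 * N + 1) : ℤ) : ℚ)| * ((2 * (t : ℚ) + 2) ^ (t + 2) / 2 ^ 2 ^ (2 * a - 2)) ≤
      1 / 64 := by
  obtain ⟨h1, h2, h3, h4⟩ := pows_Core ha
  have e1 : |2 * (2 * N + 1)| ≤ 2 ^ (2 ^ (a - 8) + 3) := by
    have h0 : (0 : ℤ) < 2 ^ 2 ^ (a - 8) := by positivity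
    rw [pow_add, abs_le] at *
    omega
  have e2 : |((2 * (2 * N + 1) : ℤ) : ℚ)| ≤ 2 ^ (2 ^ (a - 8) + 3) := by exact_mod_cast e1
  have e3 : 2 * t + 2 ≤ 2 ^ (a + 2) := by rw [pow_add]; omega
  have e4 : (2 * (t : ℚ) + 2) ^ (t + 2) ≤ 2 ^ ((a + 2) * (t + 2)) := by
    rw [pow_mul]
    exact pow_le_pow_left₀ (by positivity) (by exact_mod_cast e3) _
  have e5 : ∀ b : ℕ, 16 * (b + 8) ≤ 2 ^ (b + 8) := by
    intro b
    induction b with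
    | zero => norm_num
    | succ b ih => rw [show b + 1 + 8 = b + 8 + 1 by ring, pow_succ]; omega
  have e6 := e5 (a - 8)
  rw [show a - 8 + 8 = a by omega] at e6
  have e7 : 2 ^ (a - 8) ≤ 2 ^ a := Nat.pow_le_pow_right two_pos (by omega)
  have e8 : 2 ^ (a - 8) + 3 + (a + 2) * (t + 2) + 6 ≤ 2 ^ (2 * a - 2) := by
    rw [two_mul a, pow_add] at h1
    rw [two_mul a]
    generalize 2 ^ (a + a - 2) = J at *
    generalize 2 ^ (a - 8) = s at *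
    generalize 2 ^ a = y at *
    have := Nat.mul_le_mul_left (a + 2) (show t + 2 ≤ y + 3 by omega)
    nlinarith
  have e9 : (2 : ℚ) ^ (2 ^ (a - 8) + 3 + (a + 2) * (t + 2) + 6) ≤ 2 ^ 2 ^ (2 * a - 2) :=
    pow_le_pow_right₀ (by norm_num) e8
  rw [← mul_div_assoc, div_le_div_iff₀ (by positivity) (by norm_num), one_mul]
  refine le_trans ?_ e9
  rw [pow_add _ _ 6, pow_add _ _ ((a + 2) * (t + 2))]
  norm_num
  exact mul_le_mul (by simpa using e2) e4 (by positivity) (by positivity)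

theorem sum_AA {a t : ℕ} (ha : 8 ≤ a) (ht : t ≤ 2 ^ a + 1) {N : ℤ} (hs : |N| ≤ 2 ^ 2 ^ (a - 8)) :
    |∑ V ∈ range (2 ^ (4 * a)), (AA N a t (V % 2 ^ (2 * a)) (V / 2 ^ (2 * a)) : ℚ) /
      den a t (V : ℕ) - ((2 * N + 1 : ℤ) : ℚ) / 2 ^ t| ≤ 1 / 64 := by
  obtain ⟨h1, h2, h3, h4⟩ := pows_Core ha
  have e0 := approx_two_pow (2 ^ (2 * a)) (2 ^ (2 * a - 2)) t (by omega)
  refine le_trans ?_ ((mul_le_mul_of_nonneg_left e0 (abs_nonneg _)).trans (err_Core ha ht hs))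
  rw [← abs_mul]
  refine le_of_eq (congrArg abs ?_)
  simp only [den_eq]
  rw [show 4 * a = 2 * a + 2 * a by ring, pow_add, sum_range_mul (2 ^ (2 * a)) (2 ^ (2 * a))
    fun j u => (AA N a t j u : ℚ) / ((if j ≤ 2 ^ (2 * a - 2) ∧ u ≤ t then
      2 * (((2 ^ (2 * a) : ℕ) : ℤ) + (j : ℕ)) - (u : ℕ) else 1 : ℤ) : ℚ), mul_sub, mul_sum]
  congr 1
  · rw [sum_range_zero _ (B := 2 ^ (2 * a - 2) + 1)
      (fun j hj => sum_eq_zero fun u _ => by rw [AA, if_neg (by omega)]; simp)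
      fun j hj => sum_eq_zero fun u _ => by rw [AA, if_neg (by omega)]; simp]
    refine sum_congr rfl fun j hj => ?_
    have hj' := mem_range.1 hj
    rw [mul_sum, sum_range_zero _ (B := t + 1)
      (fun u hu => by rw [AA, if_neg (by omega)]; simp)
      fun u hu => by rw [AA, if_neg (by omega)]; simp]
    refine sum_congr rfl fun u hu => ?_
    have hu' := mem_range.1 hu
    rw [AA, if_pos (by omega), if_pos (by omega)]
    generalize 2 ^ (2 * a - 2) = J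
    generalize 2 ^ (2 * a) = K
    push_cast
    ring
  · push_cast
    field_simp
    ring

theorem dvd_Core {N : ℤ} {nm : ℤ → ℤ} (hN : Res N nm) {a t : ℕ} (ha : 8 ≤ a)
    (ht : t ≤ 2 ^ a + 1) (V : ℕ) :
    den a t V ∣ AA N a t (V % 2 ^ (2 * a)) (V / 2 ^ (2 * a)) - num nm a t V (den a t V) := by
  obtain ⟨h1, h2, h3, h4⟩ := pows_Core ha
  obtain ⟨d, e, d1, d2⟩ := den_range ha ht V
  rw [e]
  exact (num_modEq hN ha ht V d d1 (by omega)).dvd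

theorem ZZ_approx {N : ℤ} {nm : ℤ → ℤ} (hN : Res N nm) {a t : ℕ} (ha : 8 ≤ a)
    (ht : t ≤ 2 ^ a + 1) (hs : |N| ≤ 2 ^ 2 ^ (a - 8)) :
    |((2 * N + 1 : ℤ) : ℚ) / 2 ^ t - ZZ N nm a t - ∑ V ∈ range (2 ^ (4 * a)),
      (num nm a t (V : ℕ) (den a t (V : ℕ)) : ℚ) / den a t (V : ℕ)| ≤ 1 / 64 := by
  refine le_trans (le_of_eq ?_) (sum_AA ha ht hs)
  rw [abs_sub_comm (∑ V ∈ range (2 ^ (4 * a)), _), sub_sub, ZZ, Int.cast_sum, ← sum_add_distrib]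
  congr 2
  refine sum_congr rfl fun V _ => ?_
  obtain ⟨d, e, d1, -⟩ := den_range ha ht V
  have h0 : ((den a t V : ℤ) : ℚ) ≠ 0 := by
    rw [e]
    exact_mod_cast d1.ne'
  rw [Int.cast_div (dvd_Core hN ha ht V) h0, Int.cast_sub]
  ring

theorem XQ_modEq {N : ℤ} {nm : ℤ → ℤ} (hN : Res N nm) {a t : ℕ} (ha : 8 ≤ a)
    (ht : t ≤ 2 ^ a + 1) {q : ℕ} (hq : q.Prime) (h1 : 3 * 2 ^ (2 * a) < q) (h2 : q < 2 ^ (6 * a)) :
    XQ nm a t q ≡ ZZ N nm a t [ZMOD q] := by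
  have := Fact.mk hq
  have hq2 := hq.two_le
  rw [← ZMod.intCast_eq_intCast_iff, XQ, ZZ, Int.cast_sum, Int.cast_sum]
  refine sum_congr rfl fun V _ => ?_
  obtain ⟨c, hc⟩ := dvd_Core hN ha ht V
  obtain ⟨d, e, d1, d2⟩ := den_range ha ht V
  have h3 := (ZMod.intCast_eq_intCast_iff _ _ _).2 (num_modEq hN ha ht V q hq.pos h2)
  have h4 : (d : ZMod q) ≠ 0 := fun h =>
    absurd (Nat.le_of_dvd d1 ((ZMod.natCast_eq_zero_iff d q).1 h)) (by omega)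
  have h5 := ZMod.pow_card_sub_one_eq_one h4
  have h6 : (q : ℤ) - 2 = ((q - 2 : ℕ) : ℤ) := by omega
  rw [hc, Int.mul_ediv_cancel_left _ (by omega), Int.cast_mul, Int.cast_sub, h3, ← Int.cast_sub,
    hc, h6, cast_powMod hq.pos, e]
  rw [show q - 1 = q - 2 + 1 by omega, pow_succ] at h5
  push_cast
  linear_combination (c : ZMod q) * h5

section

variable {α : Type} [Enc α]

@[fun_prop] theorem pt_den' {a : α → ℕ} {t V : α → ℤ} (ha : PT a) (ht : PT t) (hV : PT V) :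
    PT (fun x => den (a x) (t x) (V x)) := by
  unfold den
  fun_prop

theorem gp_num {P : α → List (ℕ × ℕ × ℕ)} {a : α → ℕ} {t V m : α → ℤ} (hP : PT P) (ha : PT a)
    (ht : PT t) (hV : PT V) (hm : PT m) :
    GP (fun x => num (evalMod (P x)) (a x) (t x) (V x) (m x)) := by
  unfold num
  have h0 := pt_evalMod hP hm
  refine GP.ite (by fun_prop) ((GP.pt ?_).mul ((((gp_bin ?_ ?_ ?_ hm).mul (gp_bin ?_ ?_ ?_ hm)).mul
    (gp_bin ?_ ?_ ?_ hm)).mul (gp_bin ?_ ?_ ?_ hm))) (GP.pt (by fun_prop))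
  all_goals fun_prop

theorem gp_XQ {P : α → List (ℕ × ℕ × ℕ)} {a : α → ℕ} {t q : α → ℤ} (hP : PT P) (ha : PT a)
    (ht : PT t) (hq : PT q) : GP (fun x => XQ (evalMod (P x)) (a x) (t x) (q x)) := by
  have h1 : GP (fun y : α × ℤ => (num (evalMod (P y.1)) (a y.1) (t y.1) y.2 (q y.1) -
      num (evalMod (P y.1)) (a y.1) (t y.1) y.2 (den (a y.1) (t y.1) y.2)) *
      powMod (q y.1) (den (a y.1) (t y.1) y.2) (q y.1 - 2)) :=
    ((gp_num (by fun_prop) (by fun_prop) (by fun_prop) (by fun_prop) (by fun_prop)).sub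
      (gp_num (by fun_prop) (by fun_prop) (by fun_prop) (by fun_prop) (by fun_prop))).mul
      (GP.pt (by fun_prop))
  exact h1.sum (l := fun x => 4 * a x) (by fun_prop)

end

/-- the program, the parameter and the scale -/
abbrev Yq := (List (ℕ × ℕ × ℕ) × ℕ) × ℤ

attribute [local irreducible] XQ Pr evalMod num den

theorem core : ∃ A ∈ PP, ∃ ff : Yq → ℤ, OC A ff ∧
    OC A (fun z : Yq × ℤ => XQ (evalMod z.1.1.1) z.1.1.2 z.1.2 z.2) ∧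
    OC A (fun z : ℕ × ℤ => Pr z.1 z.2) ∧
    ∀ (P : List (ℕ × ℕ × ℕ)) (a t : ℕ), 8 ≤ a → t ≤ 2 ^ a + 1 → |value P| ≤ 2 ^ 2 ^ (a - 8) →
      |((2 * value P + 1 : ℤ) : ℚ) / 2 ^ t - ZZ (value P) (evalMod P) a t -
        (ff ((P, a), t) : ℚ) / 64| ≤ 3 / 64 := by
  have h1 : GP (fun y : Yq × ℤ =>
      num (evalMod y.1.1.1) y.1.1.2 y.1.2 y.2 (den y.1.1.2 y.1.2 y.2)) :=
    gp_num (by fun_prop) (by fun_prop) (by fun_prop) (by fun_prop) (by fun_prop)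
  obtain ⟨G, s, hG, hs, h⟩ := h1.frac (d := fun y : Yq × ℤ => den y.1.1.2 y.1.2 y.2)
    (by fun_prop) (l := fun y => 4 * y.1.2) (by fun_prop)
  have h2 : GP (fun z : ℕ × Yq × ℤ => XQ (evalMod z.2.1.1.1) z.2.1.1.2 z.2.1.2 z.2.2) :=
    gp_XQ (by fun_prop) (by fun_prop) (by fun_prop) (by fun_prop)
  have h3 : GP (fun z : ℕ × Yq × ℤ => Pr z.2.1.1.2 z.2.2) := by
    unfold Pr
    exact GP.sum (f := fun y : (ℕ × Yq × ℤ) × ℤ => vP y.1.2.2 y.2) (GP.pt (by fun_prop))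
      (l := fun z => 6 * z.2.1.1.2) (by fun_prop)
  have h4 : GP (fun z : ℕ × Yq × ℤ => if z.1 = 0 then G z.2.1 else if z.1 = 1 then
      XQ (evalMod z.2.1.1.1) z.2.1.1.2 z.2.1.2 z.2.2 else Pr z.2.1.1.2 z.2.2) :=
    GP.ite (by fun_prop) (hG.pre (by fun_prop)) (GP.ite (by fun_prop) h2 h3)
  obtain ⟨A, hA, ho⟩ := h4.oc (dec_prod dec_nat (dec_prod (dec_prod (dec_prod
    (dec_list (dec_prod dec_nat (dec_prod dec_nat dec_nat))) dec_nat) dec_int) dec_int))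
  have o1 : OC A G := ho.pre (g := fun y : Yq => ((0 : ℕ), y, (0 : ℤ))) (by fun_prop)
  refine ⟨A, hA, fun y => 64 * G y / 2 ^ s y,
    o1.post (v := fun z : Yq × ℤ => 64 * z.2 / 2 ^ s z.1) (by fun_prop),
    ho.pre (g := fun z : Yq × ℤ => ((1 : ℕ), z)) (by fun_prop),
    ho.pre (g := fun z : ℕ × ℤ => ((2 : ℕ), ((([] : List (ℕ × ℕ × ℕ)), z.1), (0 : ℤ)), z.2))
      (by fun_prop), fun P a t ha ht hs => ?_⟩
  have e1 := ZZ_approx (res_evalMod P) ha ht hs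
  have e2 := h ((P, a), t) fun w _ => by
    obtain ⟨d, e, d1, -⟩ := den_range ha ht w
    simp only [e]
    exact_mod_cast d1
  obtain ⟨e3, e4⟩ := ediv_bounds_Chk (64 * G ((P, a), t)) (m := 2 ^ s ((P, a), t)) (by positivity)
  simp only at e2
  push_cast at e3 e4
  rw [mul_div_assoc] at e3 e4
  rw [abs_le] at e1 e2 ⊢
  constructor <;> linarith [e1.1, e1.2, e2.1, e2.2]

end Pool.Agent.MP_7d676c_b
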