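import Mathlib

/-! Reading a bit from roundings at all scales. -/

namespace Pool.Agent.MP_7d676c_b

/-- `R t` is a rounding of `(2 N + 1) / 2 ^ t` whose error is known up to `3 / 64`. -/
def Rnd (N : ℤ) (T : ℕ) (R ph : ℕ → ℤ) : Prop :=
  ∀ t ≤ T, |((2 * N + 1 : ℤ) : ℚ) / 2 ^ t - R t - (ph t : ℚ) / 64| ≤ 3 / 64 ∧
    -32 ≤ ph t ∧ ph t < 32

theorem err_Round {N : ℤ} {T : ℕ} {R ph : ℕ → ℤ} (h : Rnd N T R ph) {t : ℕ} (ht : t ≤ T) :
    -(35 / 64 : ℚ) ≤ ((2 * N + 1 : ℤ) : ℚ) / 2 ^ t - R t ∧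
      ((2 * N + 1 : ℤ) : ℚ) / 2 ^ t - R t ≤ 35 / 64 := by
  obtain ⟨h1, h2, h3⟩ := h t ht
  have h2' : (-32 : ℚ) ≤ (ph t : ℚ) := by exact_mod_cast h2
  have h3' : (ph t : ℚ) < 32 := by exact_mod_cast h3
  rw [abs_le] at h1
  constructor <;> linarith [h1.1, h1.2]

theorem half_Round (a : ℚ) (t : ℕ) : a / 2 ^ t = 2 * (a / 2 ^ (t + 1)) := by
  rw [pow_succ]
  field_simp

theorem floor_Round (N q : ℤ) (i : ℕ) (h1 : (q : ℚ) ≤ ((2 * N + 1 : ℤ) : ℚ) / 2 ^ (i + 1))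
    (h2 : ((2 * N + 1 : ℤ) : ℚ) / 2 ^ (i + 1) < q + 1) : N / 2 ^ i = q := by
  have hp : (0 : ℚ) < 2 ^ (i + 1) := by positivity
  rw [le_div_iff₀ hp] at h1
  rw [div_lt_iff₀ hp] at h2
  have h1' : q * 2 ^ (i + 1) ≤ 2 * N + 1 := by exact_mod_cast h1
  have h2' : 2 * N + 1 < (q + 1) * 2 ^ (i + 1) := by exact_mod_cast h2
  have hq : (0 : ℤ) < 2 ^ i := by positivity
  rw [pow_succ] at h1' h2'
  have a1 : q * 2 ^ i ≤ N := by
    have : q * (2 ^ i * 2) = 2 * (q * 2 ^ i) := by ring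
    omega
  have a2 : N < (q + 1) * 2 ^ i := by
    have : (q + 1) * (2 ^ i * 2) = 2 * ((q + 1) * 2 ^ i) := by ring
    omega
  have b1 : q ≤ N / 2 ^ i := Int.le_ediv_of_mul_le hq a1
  have b2 : N / 2 ^ i < q + 1 := Int.ediv_lt_of_lt_mul hq a2
  omega

theorem rnd_zero {N : ℤ} {T : ℕ} {R ph : ℕ → ℤ} (h : Rnd N T R ph) {I : ℕ} (hI : 1 ≤ I) :
    R 0 ≠ 2 ^ I * R I := by
  obtain ⟨h1, h2⟩ := err_Round h (Nat.zero_le T)
  simp only [pow_zero, div_one] at h1 h2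
  have a1 : ((-1 : ℤ) : ℚ) < ((2 * N + 1 - R 0 : ℤ) : ℚ) := by
    push_cast at h1 ⊢
    linarith
  have a2 : ((2 * N + 1 - R 0 : ℤ) : ℚ) < ((1 : ℤ) : ℚ) := by
    push_cast at h2 ⊢
    linarith
  have b1 : -1 < 2 * N + 1 - R 0 := by exact_mod_cast a1
  have b2 : 2 * N + 1 - R 0 < 1 := by exact_mod_cast a2
  obtain ⟨J, rfl⟩ : ∃ J, I = J + 1 := ⟨I - 1, by omega⟩
  intro he
  have : 2 ^ (J + 1) * R (J + 1) = 2 * (2 ^ J * R (J + 1)) := by ring
  omega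

theorem rnd_bit {N : ℤ} {T : ℕ} {R ph : ℕ → ℤ} (h : Rnd N T R ph) {i t : ℕ} (hi : i + 2 ≤ T)
    (ht : t ≤ i) (h0 : R t ≠ 2 ^ (i + 1 - t) * R (i + 1))
    (h1 : R (t + 1) = 2 ^ (i - t) * R (i + 1)) :
    N / 2 ^ i % 2 =
      ((2 * ph (i + 2) - ph (i + 1) + 32) / 64 - if ph (t + 1) < 0 then 1 else 0) % 2 := by
  obtain ⟨d, rfl⟩ : ∃ d, i = t + d := ⟨i - t, by omega⟩
  have e1 : t + d + 1 - t = d + 1 := by omega
  have e2 : t + d - t = d := by omega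
  rw [e1] at h0
  rw [e2] at h1
  set a : ℚ := ((2 * N + 1 : ℤ) : ℚ) with ha
  have hne : R t - 2 * R (t + 1) ≠ 0 := by
    intro hz
    apply h0
    rw [pow_succ]
    have : 2 ^ d * 2 * R (t + d + 1) = 2 * (2 ^ d * R (t + d + 1)) := by ring
    omega
  obtain ⟨p1, p2⟩ := err_Round h (t := t) (by omega)
  obtain ⟨q1, q2⟩ := err_Round h (t := t + d + 1) (by omega)
  obtain ⟨r1, -, -⟩ := h (t + 1) (by omega)
  obtain ⟨s1, -, -⟩ := h (t + d + 1) (by omega)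
  obtain ⟨u1, -, -⟩ := h (t + d + 2) (by omega)
  rw [← ha] at p1 p2 q1 q2 r1 s1 u1
  rw [abs_le] at r1 s1 u1
  have hx := half_Round a t
  have hy := half_Round a (t + d + 1)
  have hpd : (0 : ℚ) < 2 ^ d := by positivity
  have hz : a / 2 ^ (t + 1) - R (t + 1) = 2 ^ d * (a / 2 ^ (t + d + 1) - R (t + d + 1)) := by
    rw [h1]
    push_cast
    have : (2 : ℚ) ^ (t + d + 1) = 2 ^ (t + 1) * 2 ^ d := by ring
    rw [this]
    field_simp
  have hD : (2 * ph (t + d + 2) - ph (t + d + 1) + 32) / 64 =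
      R (t + d + 1) - 2 * R (t + d + 2) := by
    have c1 : ((64 * (R (t + d + 1) - 2 * R (t + d + 2)) : ℤ) : ℚ) ≤
        ((2 * ph (t + d + 2) - ph (t + d + 1) + 9 : ℤ) : ℚ) := by
      push_cast
      have : t + d + 1 + 1 = t + d + 2 := rfl
      rw [this] at hy
      linarith [s1.1, s1.2, u1.1, u1.2]
    have c2 : ((2 * ph (t + d + 2) - ph (t + d + 1) - 9 : ℤ) : ℚ) ≤
        ((64 * (R (t + d + 1) - 2 * R (t + d + 2)) : ℤ) : ℚ) := by
      push_cast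
      have : t + d + 1 + 1 = t + d + 2 := rfl
      rw [this] at hy
      linarith [s1.1, s1.2, u1.1, u1.2]
    have c1' : 64 * (R (t + d + 1) - 2 * R (t + d + 2)) ≤
        2 * ph (t + d + 2) - ph (t + d + 1) + 9 := by exact_mod_cast c1
    have c2' : 2 * ph (t + d + 2) - ph (t + d + 1) - 9 ≤
        64 * (R (t + d + 1) - 2 * R (t + d + 2)) := by exact_mod_cast c2
    omega
  rw [hD]
  rcases lt_or_gt_of_ne hne with hlt | hgt
  · have c : ((R t - 2 * R (t + 1) : ℤ) : ℚ) ≤ ((-1 : ℤ) : ℚ) := by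
      exact_mod_cast (show R t - 2 * R (t + 1) ≤ -1 by omega)
    push_cast at c
    have hneg : a / 2 ^ (t + 1) - R (t + 1) ≤ -(29 / 128) := by linarith
    have hph : ph (t + 1) < 0 := by
      have : (ph (t + 1) : ℚ) < 0 := by linarith [r1.1, r1.2]
      exact_mod_cast this
    have hneg' : a / 2 ^ (t + d + 1) - R (t + d + 1) < 0 := by
      by_contra hc
      have : 0 ≤ 2 ^ d * (a / 2 ^ (t + d + 1) - R (t + d + 1)) :=
        mul_nonneg hpd.le (not_lt.mp hc)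
      linarith
    have hf : N / 2 ^ (t + d) = R (t + d + 1) - 1 := by
      apply floor_Round
      · rw [← ha]
        push_cast
        linarith
      · rw [← ha]
        push_cast
        linarith
    rw [if_pos hph, hf]
    omega
  · have c : ((1 : ℤ) : ℚ) ≤ ((R t - 2 * R (t + 1) : ℤ) : ℚ) := by
      exact_mod_cast (show 1 ≤ R t - 2 * R (t + 1) by omega)
    push_cast at c
    have hpos : 29 / 128 ≤ a / 2 ^ (t + 1) - R (t + 1) := by linarith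
    have hph : ¬ ph (t + 1) < 0 := by
      have : (0 : ℚ) < (ph (t + 1) : ℚ) := by linarith [r1.1, r1.2]
      have : 0 < ph (t + 1) := by exact_mod_cast this
      omega
    have hpos' : 0 ≤ a / 2 ^ (t + d + 1) - R (t + d + 1) := by
      by_contra hc
      have : 2 ^ d * (a / 2 ^ (t + d + 1) - R (t + d + 1)) < 0 :=
        mul_neg_of_pos_of_neg hpd (not_le.mp hc)
      linarith
    have hf : N / 2 ^ (t + d) = R (t + d + 1) := by
      apply floor_Round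
      · rw [← ha]
        linarith
      · rw [← ha]
        linarith
    rw [if_neg hph, hf]
    omega

theorem rnd_size {N : ℤ} {T : ℕ} {R ph : ℕ → ℤ} (h : Rnd N T R ph) {t : ℕ} (ht : t ≤ T) :
    |R t| ≤ 2 * |N| + 2 := by
  obtain ⟨h1, h2⟩ := err_Round h ht
  have hp : (1 : ℚ) ≤ 2 ^ t := one_le_pow₀ (by norm_num)
  have hb : |((2 * N + 1 : ℤ) : ℚ) / 2 ^ t| ≤ 2 * |(N : ℚ)| + 1 := by
    rw [abs_div, abs_of_pos (show (0 : ℚ) < 2 ^ t by positivity)]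
    refine (div_le_self (abs_nonneg _) hp).trans ?_
    push_cast
    refine (abs_add_le _ _).trans ?_
    rw [abs_mul]
    norm_num
  rw [abs_le] at hb
  have : ((|R t| : ℤ) : ℚ) ≤ ((2 * |N| + 2 : ℤ) : ℚ) := by
    push_cast
    rw [abs_le]
    push_cast at h1 h2 hb
    constructor <;> linarith [hb.1, hb.2]
  exact_mod_cast this

end Pool.Agent.MP_7d676c_b
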