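import Mathlib
import Pool.Agent.MP_7d676c_b.Defs
import Pool.Agent.MP_7d676c_b.Core
import Pool.Agent.MP_7d676c_b.Round

/-! BitSLP is in BPP relative to an oracle in PP. -/

namespace Pool.Agent.MP_7d676c_b

open Finset Pool.Agent.MP_2e8011_lc Pool.Agent.MP_a6d740_lc Pool.Agent.MP_b0ee3d_lc
  Pool.Agent.MP_7d676c_lc

/-- rounding -/
def rB (F : ℤ) : ℤ := (F + 32) / 64

/-- the error of rounding -/
def phB (F : ℤ) : ℤ := F - 64 * rB F

/-- the check at one candidate `q` -/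
def chkB (ff : ℤ → ℤ) (xq : ℤ → ℤ → ℤ) (a : ℕ) (I t q : ℤ) : Bool :=
  decide (Pr a q = 0 ∧ 3 * 2 ^ (2 * a) < q →
    (xq t q + rB (ff t) - powMod q 2 (I - t) * (xq I q + rB (ff I))) % q = 0)

/-- the randomized test -/
def testB (ff : ℤ → ℤ) (xq : ℤ → ℤ → ℤ) (a : ℕ) (I ρ t : ℤ) : Bool :=
  decide (I ≤ t) || (List.range (24 * a)).all fun i => chkB ff xq a I t (dig (6 * a) i ρ)

/-- one step of binary search -/
def bsB (ff : ℤ → ℤ) (xq : ℤ → ℤ → ℤ) (a : ℕ) (I ρ : ℤ) (s : ℤ × ℤ) : ℤ × ℤ :=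
  (if testB ff xq a I ρ (s.1 + s.2 / 2) = true then s.1 else s.1 + s.2 / 2, s.2 / 2)

/-- the end point of the binary search -/
def endB (ff : ℤ → ℤ) (xq : ℤ → ℤ → ℤ) (a : ℕ) (I ρ : ℤ) : ℤ :=
  ((bsB ff xq a I ρ)^[a] (0, 2 ^ a)).1 + 1

/-- the output -/
def outBit (ff : ℤ → ℤ) (xq : ℤ → ℤ → ℤ) (a : ℕ) (I ρ : ℤ) : Bool :=
  decide (((2 * phB (ff (I + 1)) - phB (ff I) + 32) / 64 -
    if phB (ff (endB ff xq a I ρ)) < 0 then 1 else 0) % 2 = 1)

theorem search_Main (ff : ℤ → ℤ) (xq : ℤ → ℤ → ℤ) (a : ℕ) (I ρ : ℤ) (E : ℕ → Prop) (h0 : ¬ E 0)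
    (h1 : E (2 ^ a)) (h : ∀ t ≤ 2 ^ a, testB ff xq a I ρ (t : ℕ) = true ↔ E t) (i k : ℕ)
    (hk : i + k = a) : ∃ lo : ℕ, (bsB ff xq a I ρ)^[i] (0, 2 ^ a) = ((lo : ℤ), 2 ^ k) ∧
      lo + 2 ^ k ≤ 2 ^ a ∧ ¬ E lo ∧ E (lo + 2 ^ k) := by
  induction i generalizing k with
  | zero =>
    obtain rfl : k = a := by omega
    exact ⟨0, rfl, by omega, h0, by simpa using h1⟩
  | succ i ih =>
    obtain ⟨lo, e, b1, b2, b3⟩ := ih (k + 1) (by omega)
    have e1 : (2 : ℤ) ^ (k + 1) / 2 = 2 ^ k := by rw [pow_succ]; omega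
    have e2 : (lo : ℤ) + 2 ^ k = ((lo + 2 ^ k : ℕ) : ℤ) := by push_cast; rfl
    rw [pow_succ] at b1 b3
    rw [Function.iterate_succ_apply', e, bsB]
    simp only [e1, e2]
    by_cases c : E (lo + 2 ^ k)
    · rw [if_pos ((h _ (by omega)).2 c)]
      exact ⟨lo, rfl, by omega, b2, c⟩
    · rw [if_neg fun d => c ((h _ (by omega)).1 d)]
      exact ⟨lo + 2 ^ k, rfl, by omega, c, by rwa [add_assoc, ← mul_two]⟩

theorem outBit_correct {ff : ℤ → ℤ} {xq : ℤ → ℤ → ℤ} {a i : ℕ} {N : ℤ} {R : ℕ → ℤ}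
    (hR : Rnd N (2 ^ a + 1) R fun t => phB (ff t)) (hi : i + 1 ≤ 2 ^ a) (ρ : ℤ)
    (h : ∀ t ≤ 2 ^ a, testB ff xq a (i + 1 : ℕ) ρ (t : ℕ) = true ↔
      (i + 1 ≤ t ∨ R t = 2 ^ (i + 1 - t) * R (i + 1))) :
    outBit ff xq a (i + 1 : ℕ) ρ = decide (N / 2 ^ i % 2 = 1) := by
  obtain ⟨lo, e, b1, b2, b3⟩ := search_Main ff xq a (i + 1 : ℕ) ρ _
    (fun c => c.elim (by omega) (rnd_zero hR (by omega))) (Or.inl hi) h a 0 rfl
  rw [pow_zero] at b1 b3
  rw [not_or] at b2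
  have b4 : R (lo + 1) = 2 ^ (i - lo) * R (i + 1) := by
    rcases b3 with c | c
    · obtain rfl : lo = i := by omega
      simp
    · rwa [show i + 1 - (lo + 1) = i - lo by omega] at c
  have := rnd_bit hR (i := i) (t := lo) (by omega) (by omega) b2.2 b4
  rw [outBit, endB, e, this]
  push_cast
  rfl

theorem chkB_of_not_prime (ff : ℤ → ℤ) (xq : ℤ → ℤ → ℤ) (a : ℕ) (I t : ℤ) (q : ℕ)
    (hq : q < 2 ^ (6 * a)) (h : ¬ (q.Prime ∧ 3 * 2 ^ (2 * a) < q)) :
    chkB ff xq a I t q = true := by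
  rw [chkB, decide_eq_true_iff]
  rintro ⟨h1, h2⟩
  exfalso
  have h3 : 3 * 2 ^ (2 * a) < q := by exact_mod_cast h2
  have h4 : 1 ≤ 2 ^ (2 * a) := Nat.one_le_two_pow
  refine h ⟨?_, h3⟩
  by_contra hp
  obtain ⟨d, hd, hd1, hd2⟩ := Nat.exists_dvd_of_not_prime2 (by omega) hp
  have h5 := (sum_eq_zero_iff_of_nonneg fun (d : ℕ) _ => vP_nonneg_Chk q d).1 h1 d
    (mem_range.2 (hd2.trans hq))
  unfold vP at h5
  rw [if_pos] at h5
  · exact one_ne_zero h5
  · refine ⟨by omega, by omega, Int.emod_eq_zero_of_dvd ?_⟩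
    exact_mod_cast hd

theorem chkB_iff {ff : ℤ → ℤ} {xq : ℤ → ℤ → ℤ} {a I t q : ℕ} {x y : ℤ} (ht : t ≤ I)
    (hq : q.Prime) (h1 : 3 * 2 ^ (2 * a) < q) (hx : xq t q + rB (ff t) ≡ x [ZMOD q])
    (hy : xq I q + rB (ff I) ≡ y [ZMOD q]) :
    chkB ff xq a I t q = true ↔ (q : ℤ) ∣ x - 2 ^ (I - t) * y := by
  have h2 : powMod q 2 ((I : ℤ) - t) ≡ 2 ^ (I - t) [ZMOD q] := by
    rw [powMod, show ((I : ℤ) - t).toNat = I - t by omega]
    exact rd_modEq (by exact_mod_cast hq.pos) _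
  have h3 : xq t q + rB (ff t) - powMod q 2 ((I : ℤ) - t) * (xq I q + rB (ff I)) ≡
      x - 2 ^ (I - t) * y [ZMOD q] := hx.sub (h2.mul hy)
  rw [chkB, decide_eq_true_iff, h3.eq, Int.dvd_iff_emod_eq_zero]
  exact ⟨fun h => h ⟨Pr_eq_zero_Chk a q hq, by exact_mod_cast h1⟩, fun h _ => h⟩

theorem outBit_prob {ff : ℤ → ℤ} {xq : ℤ → ℤ → ℤ} {a i : ℕ} {N : ℤ} {R : ℕ → ℤ} (ha : 8 ≤ a)
    (hs : |N| ≤ 2 ^ 2 ^ (a - 8)) (hR : Rnd N (2 ^ a + 1) R fun t => phB (ff t))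
    (hi : i + 1 ≤ 2 ^ a) (hx : ∀ t : ℕ, t ≤ 2 ^ a + 1 → ∀ q : ℕ, q.Prime → 3 * 2 ^ (2 * a) < q →
      q < 2 ^ (6 * a) → xq t q + rB (ff t) ≡ R t [ZMOD q]) :
    2 * 2 ^ (6 * a * (24 * a)) ≤ 3 * ((range (2 ^ (6 * a * (24 * a)))).filter fun ρ : ℕ =>
      outBit ff xq a (i + 1 : ℕ) ρ = decide (N / 2 ^ i % 2 = 1)).card := by
  classical
  obtain ⟨p1, p2, p3, p4⟩ := pows_Core ha
  have hz : ∀ n : ℕ, |if n ≤ i + 1 then R n - 2 ^ (i + 1 - n) * R (i + 1) else 0| ≤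
      2 ^ (3 * 2 ^ (2 * a)) := by
    intro n
    split_ifs with c
    · have c1 := rnd_size hR (t := n) (by omega)
      have c2 := rnd_size hR (t := i + 1) (by omega)
      have c3 : 2 ^ (a - 8) ≤ 2 ^ a := Nat.pow_le_pow_right two_pos (by omega)
      have c4 : |N| ≤ 2 ^ 2 ^ a := hs.trans (pow_le_pow_right₀ (by norm_num) c3)
      have c5 : (2 : ℤ) ^ (i + 1 - n) ≤ 2 ^ 2 ^ a := pow_le_pow_right₀ (by norm_num) (by omega)
      have c6 : (2 : ℤ) ^ (2 ^ a + 2 ^ a + 3) ≤ 2 ^ (3 * 2 ^ (2 * a)) :=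
        pow_le_pow_right₀ (by norm_num) (by omega)
      have c7 : (1 : ℤ) ≤ 2 ^ 2 ^ a := one_le_pow₀ (by norm_num)
      have c8 := abs_sub (R n) (2 ^ (i + 1 - n) * R (i + 1))
      rw [abs_mul, abs_of_pos (a := (2 : ℤ) ^ (i + 1 - n)) (by positivity)] at c8
      have c9 : (2 : ℤ) ^ (i + 1 - n) * |R (i + 1)| ≤ 2 ^ 2 ^ a * (4 * 2 ^ 2 ^ a) :=
        mul_le_mul c5 (by omega) (abs_nonneg _) (by positivity)
      rw [pow_add, pow_add] at c6
      nlinarith
    · simp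
  refine (many_good a ha _ hz).trans (Nat.mul_le_mul_left 3 (card_le_card fun ρ hρ => ?_))
  rw [mem_filter] at hρ ⊢
  obtain ⟨h0, j, hj, q, q1, q2, q3, q4⟩ := hρ
  refine ⟨h0, outBit_correct hR hi ρ fun t ht => ?_⟩
  rw [testB, Bool.or_eq_true, decide_eq_true_iff, Nat.cast_le, List.all_eq_true]
  by_cases c : i + 1 ≤ t
  · exact iff_of_true (Or.inl c) (Or.inl c)
  refine or_congr_right ⟨fun h => ?_, fun h l _ => ?_⟩
  · have t1 := h j (List.mem_range.2 hj)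
    obtain ⟨q', e1, e2⟩ := dig_Search (6 * a) j ρ
    obtain rfl : q' = q := by exact_mod_cast e1.symm.trans q1
    rw [q1, chkB_iff (by omega) q2 q3 (hx t (by omega) _ q2 q3 e2)
      (hx (i + 1) (by omega) _ q2 q3 e2)] at t1
    have t2 := q4 t (by omega)
    rw [if_pos (by omega)] at t2
    by_contra d
    exact t2 (sub_ne_zero.2 d) t1
  · obtain ⟨p, e1, e2⟩ := dig_Search (6 * a) l ρ
    rw [e1]
    by_cases hp : p.Prime ∧ 3 * 2 ^ (2 * a) < p
    · rw [chkB_iff (by omega) hp.1 hp.2 (hx t (by omega) _ hp.1 hp.2 e2)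
        (hx (i + 1) (by omega) _ hp.1 hp.2 e2), h, sub_self]
      exact dvd_zero _
    · exact chkB_of_not_prime _ _ _ _ _ p e2 hp

section

variable {α : Type} [Enc α]

@[fun_prop] theorem pt_rB {F : α → ℤ} (hF : PT F) : PT (fun x => rB (F x)) := by
  unfold rB
  fun_prop

@[fun_prop] theorem pt_phB {F : α → ℤ} (hF : PT F) : PT (fun x => phB (F x)) := by
  unfold phB
  fun_prop

variable {A : List Bool → Bool} {β : Type} [Enc β] {ff : β → ℤ → ℤ} {xq : β → ℤ → ℤ → ℤ}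
  (hff : OC A (fun z : β × ℤ => ff z.1 z.2))
  (hxq : OC A (fun z : (β × ℤ) × ℤ => xq z.1.1 z.1.2 z.2))
  (hpr : OC A (fun z : ℕ × ℤ => Pr z.1 z.2)) {b : α → β} {a : α → ℕ} {I : α → ℤ} (hb : PT b)
  (ha : PT a) (hI : PT I)

attribute [local irreducible] Pr

include hff hxq hpr hb ha hI

theorem oc_chkB {t q : α → ℤ} (ht : PT t) (hq : PT q) :
    OC A (fun x => chkB (ff (b x)) (xq (b x)) (a x) (I x) (t x) (q x)) := by
  have h0 : OC A (fun x => ff (b x) (t x)) := hff.pre (g := fun x => (b x, t x)) (by fun_prop)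
  have h1 : OC A (fun x => ff (b x) (I x)) := hff.pre (g := fun x => (b x, I x)) (by fun_prop)
  have h2 : OC A (fun x => xq (b x) (t x) (q x)) :=
    hxq.pre (g := fun x => ((b x, t x), q x)) (by fun_prop)
  have h3 : OC A (fun x => xq (b x) (I x) (q x)) :=
    hxq.pre (g := fun x => ((b x, I x), q x)) (by fun_prop)
  have h4 : OC A (fun x => Pr (a x) (q x)) := hpr.pre (g := fun x => (a x, q x)) (by fun_prop)
  exact (h0.pair (h1.pair (h2.pair (h3.pair h4)))).post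
    (v := fun z : α × ℤ × ℤ × ℤ × ℤ × ℤ => decide (z.2.2.2.2.2 = 0 ∧ 3 * 2 ^ (2 * a z.1) < q z.1 →
      (z.2.2.2.1 + rB z.2.1 - powMod (q z.1) 2 (I z.1 - t z.1) * (z.2.2.2.2.1 + rB z.2.2.1)) %
        q z.1 = 0)) (by fun_prop)

theorem oc_testB {ρ t : α → ℤ} (hρ : PT ρ) (ht : PT t) :
    OC A (fun x => testB (ff (b x)) (xq (b x)) (a x) (I x) (ρ x) (t x)) :=
  (OC.all (f := fun x i => chkB (ff (b x)) (xq (b x)) (a x) (I x) (t x) (dig (6 * a x) i (ρ x)))
    (oc_chkB hff hxq hpr (b := fun z : α × ℕ => b z.1) (a := fun z : α × ℕ => a z.1)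
      (I := fun z : α × ℕ => I z.1) (by fun_prop) (by fun_prop) (by fun_prop) (by fun_prop)
      (by fun_prop)) (l := fun x => List.range (24 * a x)) (by fun_prop)).post
    (v := fun z : α × Bool => decide (I z.1 ≤ t z.1) || z.2) (by fun_prop)

theorem oc_endB {ρ : α → ℤ} (hρ : PT ρ) :
    OC A (fun x => endB (ff (b x)) (xq (b x)) (a x) (I x) (ρ x)) := by
  have hg : OC A (fun z : α × ℤ × ℤ =>
      bsB (ff (b z.1)) (xq (b z.1)) (a z.1) (I z.1) (ρ z.1) z.2) :=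
    (oc_testB hff hxq hpr (b := fun z : α × ℤ × ℤ => b z.1) (a := fun z => a z.1)
      (I := fun z => I z.1) (by fun_prop) (by fun_prop) (by fun_prop) (ρ := fun z => ρ z.1)
      (t := fun z => z.2.1 + z.2.2 / 2) (by fun_prop)
      (by fun_prop)).post (v := fun z : (α × ℤ × ℤ) × Bool =>
        (if z.2 = true then z.1.2.1 else z.1.2.1 + z.1.2.2 / 2, z.1.2.2 / 2)) (by fun_prop)
  have key : ∀ (f : ℤ → ℤ) (g : ℤ → ℤ → ℤ) (c : ℕ) (u r C : ℤ) (i : ℕ) (s : ℤ × ℤ), 0 ≤ s.1 →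
      0 ≤ s.2 → s.1 + s.2 ≤ C → 0 ≤ ((bsB f g c u r)^[i] s).1 ∧ 0 ≤ ((bsB f g c u r)^[i] s).2 ∧
        ((bsB f g c u r)^[i] s).1 + ((bsB f g c u r)^[i] s).2 ≤ C := by
    intro f g c u r C i
    induction i with
    | zero => intro s h1 h2 h3; exact ⟨h1, h2, h3⟩
    | succ i ih =>
      intro s h1 h2 h3
      rw [Function.iterate_succ_apply]
      apply ih <;> simp only [bsB] <;> (try split_ifs) <;> omega
  have := OC.iter (g := fun x => bsB (ff (b x)) (xq (b x)) (a x) (I x) (ρ x)) hg ha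
    (s := fun x => (0, 2 ^ a x)) (by fun_prop)
    (B := fun x => 3 * (3 * a x + 4) + 1) (PT.pb (by fun_prop)) (fun x i _ => by
      obtain ⟨h1, h2, h3⟩ := key (ff (b x)) (xq (b x)) (a x) (I x) (ρ x) (2 ^ a x) i
        (0, 2 ^ a x) le_rfl (by positivity) (by simp)
      generalize (bsB (ff (b x)) (xq (b x)) (a x) (I x) (ρ x))^[i] _ = s at h1 h2 h3 ⊢
      have e1 := sz_int_le (z := s.1) (k := a x) (by rw [abs_of_nonneg h1]; omega)
      have e2 := sz_int_le (z := s.2) (k := a x) (by rw [abs_of_nonneg h2]; omega)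
      rw [← Prod.mk.eta (p := s), sz_prod]
      omega)
  exact this.post (v := fun z : α × ℤ × ℤ => z.2.1 + 1) (by fun_prop)

theorem oc_outBit {ρ : α → ℤ} (hρ : PT ρ) :
    OC A (fun x => outBit (ff (b x)) (xq (b x)) (a x) (I x) (ρ x)) := by
  have h0 : OC A (fun x => ff (b x) (I x + 1)) :=
    hff.pre (g := fun x => (b x, I x + 1)) (by fun_prop)
  have h1 : OC A (fun x => ff (b x) (I x)) := hff.pre (g := fun x => (b x, I x)) (by fun_prop)
  have h2 : OC A (fun x => ff (b x) (endB (ff (b x)) (xq (b x)) (a x) (I x) (ρ x))) :=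
    (oc_endB hff hxq hpr hb ha hI hρ).bind (v := fun z : α × ℤ => ff (b z.1) z.2)
      (hff.pre (g := fun z : α × ℤ => (b z.1, z.2)) (by fun_prop))
  exact (h0.pair (h1.pair h2)).post (v := fun z : α × ℤ × ℤ × ℤ =>
    decide (((2 * phB z.2.1 - phB z.2.2.1 + 32) / 64 - if phB z.2.2.2 < 0 then 1 else 0) % 2 = 1))
    (by fun_prop)

end

theorem odd_floor_Main (N : ℤ) (i : ℕ) : Odd ⌊(N : ℚ) / 2 ^ i⌋ ↔ N / 2 ^ i % 2 = 1 := by
  have h := Rat.floor_intCast_div_natCast N (2 ^ i)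
  push_cast at h
  rw [h, Int.odd_iff]

theorem exists_parse_bit : ∃ (par : List Bool → List (ℕ × ℕ × ℕ)) (idx : List Bool → ℕ)
    (ok : List Bool → Bool), PT par ∧ PT (fun x => (idx x : ℤ)) ∧ PT ok ∧ ∀ x,
      (ok x = true → (par x).length ≤ x.length ∧ idx x < 2 ^ x.length) ∧
      BitSLP x = (ok x && decide (value (par x) / 2 ^ idx x % 2 = 1)) := by
  obtain ⟨d, hd, e⟩ := dec_prod (dec_list (dec_prod dec_bin (dec_prod dec_bin dec_bin))) dec_bin
  have hpar : PT (fun x : List Bool => (d x).1.map fun t =>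
      (t.1.cap (x.length + 5), t.2.1.cap (x.length + 5), t.2.2.cap (x.length + 5))) := by
    fun_prop
  generalize hp : (fun x : List Bool => (d x).1.map fun t =>
      (t.1.cap (x.length + 5), t.2.1.cap (x.length + 5), t.2.2.cap (x.length + 5))) = par at hpar
  have hcode : ∀ (P : List (ℕ × ℕ × ℕ)) (i : ℕ),
      N487b59b3.bitEncode (P, i) = enc (P.map toBin_Slp, Bin.mk i) := fun P i =>
    bitEncode_prod (ι := fun Q : List (ℕ × ℕ × ℕ) => Q.map toBin_Slp) (κ := Bin.mk) code_Slp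
      bitEncode_bin (P, i)
  have hlen : ∀ (P : List (ℕ × ℕ × ℕ)) (y : Bin),
      P.length ≤ (enc (P.map toBin_Slp, y)).length ∧
      y.val < 2 ^ (enc (P.map toBin_Slp, y)).length := fun P y => by
    have h1 := length_le_sz (P.map toBin_Slp)
    have h2 := sz_prod (P.map toBin_Slp) y
    have h3 := sz_bin y
    rw [List.length_map] at h1
    change P.length ≤ sz (P.map toBin_Slp, y) ∧ y.val < 2 ^ sz (P.map toBin_Slp, y)
    exact ⟨by omega, Nat.size_le.1 (by omega)⟩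
  refine ⟨par, fun x => (d x).2.val,
    fun x => decide (enc ((par x).map toBin_Slp, (d x).2) = x) && validB_Slp (par x), hpar,
    pt_diff hd.snd (PT.const ⟨0⟩) fun x => by simp,
    PT.and (PT.eq (PT.enc ((PT.map (f := fun _ => toBin_Slp) (by unfold toBin_Slp; fun_prop)
      hpar).prodMk hd.snd)) PT.id) (pt_validB_Slp.comp hpar), fun x => ⟨fun h => ?_, ?_⟩⟩
  · simp only [Bool.and_eq_true, decide_eq_true_eq] at h
    have := hlen (par x) (d x).2
    rwa [h.1] at this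
  · rw [Bool.eq_iff_iff]
    simp only [BitSLP, Bool.and_eq_true, decide_eq_true_eq, validB_iff_Slp, hcode, odd_floor_Main]
    refine ⟨?_, fun h => ⟨par x, (d x).2.val, h.1.1, h.1.2, h.2⟩⟩
    rintro ⟨P, i, rfl, hV, h0⟩
    have h1 : par (enc (P.map toBin_Slp, Bin.mk i)) = P := by
      rw [← hp]
      beta_reduce
      rw [e, List.map_map]
      conv_rhs => rw [← List.map_id P]
      refine List.map_congr_left fun g hg => ?_
      obtain ⟨j, hj, rfl⟩ := List.getElem_of_mem hg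
      have h2 := (hlen P ⟨i⟩).1
      have h3 := hV.2 ⟨j, hj⟩
      simp only [Fin.getElem_fin, Prod.ext_iff] at h3
      simp only [Function.comp_apply, toBin_Slp, Bin.cap, id, Prod.ext_iff]
      omega
    rw [h1, e]
    exact ⟨⟨rfl, hV⟩, h0⟩

attribute [local irreducible] outBit evalMod value XQ

theorem bitSLP_mem : ∃ A ∈ PP, BitSLP ∈ BPPrel A := by
  obtain ⟨A, hA, ff, o1, o2, o3, hc⟩ := core
  obtain ⟨par, idx, ok, hpar, hidx, hok, h⟩ := exists_parse_bit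
  refine ⟨A, hA, ?_⟩
  have h1 : OC A (fun y : List Bool × List Bool =>
      outBit (fun t => ff ((par y.1, y.1.length + 8), t)) (XQ (evalMod (par y.1)) (y.1.length + 8))
        (y.1.length + 8) (idx y.1 + 1) (valL y.2)) :=
    oc_outBit (ff := fun c t => ff (c, t)) (xq := fun c => XQ (evalMod c.1) c.2) o1 o2 o3
      (b := fun y : List Bool × List Bool => (par y.1, y.1.length + 8)) (by fun_prop) (by fun_prop)
      (pt_intAdd (hidx.comp (by fun_prop)) (by fun_prop)) (by fun_prop)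
  have h2 := h1.post (v := fun z : (List Bool × List Bool) × Bool => ok z.1.1 && z.2)
    (by fun_prop)
  refine h2.mem_BPPrel (6 * (Polynomial.X + 8) * (24 * (Polynomial.X + 8))) (fun x => ?_)
  have e : (6 * (Polynomial.X + 8) * (24 * (Polynomial.X + 8)) : Polynomial ℕ).eval x.length =
      6 * (x.length + 8) * (24 * (x.length + 8)) := by simp
  generalize (6 * (Polynomial.X + 8) * (24 * (Polynomial.X + 8)) : Polynomial ℕ).eval x.length
    = k at e ⊢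
  simp only [(h x).2]
  rw [card_filter_valL k (fun ρ => (ok x && outBit (fun t => ff ((par x, x.length + 8), t))
    (XQ (evalMod (par x)) (x.length + 8)) (x.length + 8) (idx x + 1) (ρ : ℕ)) =
    (ok x && decide (value (par x) / 2 ^ idx x % 2 = 1)))]
  subst e
  cases hx : ok x
  · simp only [Bool.false_and, filter_true, card_range]
    omega
  · simp only [Bool.true_and]
    obtain ⟨b1, b2⟩ := (h x).1 hx
    have hs : |value (par x)| ≤ 2 ^ 2 ^ (x.length + 8 - 8) := (abs_value_le _).trans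
      (pow_le_pow_right₀ (by norm_num) (Nat.pow_le_pow_right (by norm_num) (by omega)))
    have hi : 2 ^ x.length ≤ 2 ^ (x.length + 8) := Nat.pow_le_pow_right two_pos (by omega)
    refine outBit_prob (i := idx x) (R := fun t => ZZ (value (par x)) (evalMod (par x))
      (x.length + 8) t + rB (ff ((par x, x.length + 8), t))) (by omega) hs (fun t ht => ?_)
      (by omega) fun t ht q q1 q2 q3 =>
        (XQ_modEq (res_evalMod _) (by omega) ht q1 q2 q3).add_right _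
    have := hc (par x) (x.length + 8) t (by omega) ht hs
    refine ⟨le_trans (le_of_eq (congrArg abs ?_)) this, ?_, ?_⟩
    · simp only [phB]
      push_cast
      ring
    · simp only [phB, rB]
      omega
    · simp only [phB, rB]
      omega

end Pool.Agent.MP_7d676c_b
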